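import Pool.Agent.Lib.LUD.Defs

/-! # Row G1: transcendence degree zero

Recipe. `K` is a finite separable extension of the field of fractions `Q` of `Λ` (characteristic
zero, `Algebra.EssFiniteType`, transcendence degree `0`).  Let `C` be the integral closure of `Λ` in `K`: a
Dedekind domain, finite over `Λ` (`IsIntegralClosure.finite` or similar), with field of fractions
`K`, contained in `V` (`V` is integrally closed, `hΛ`).  `V ∩ C` has centre `P ≠ 0` (it contains `ϖ`), `C_P` is a discrete valuation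
ring contained in and dominated by `V ≠ K` (`hpos`), so `V = C_P`, i.e. every `f ∈ V` is `a / b` with
`a, b ∈ C`, `V.valuation b = 1`; `V` is a discrete valuation ring, let `z` be a uniformizer, in `V`.
Given `A`, `T`: let `c_1, .., c_n` generate `C` over `Λ`, `g ∈ A` a common denominator of the `c_i`
and of `z`, `G := {g c_i} ∪ {g z}`, `A' := A[G / g]`: then `C ⊆ A' ⊆ V`, so `locV V A' = V`, and
`IsPar V (locV V A') (fun _ : Fin 1 => z)`: every `f ∈ V` of positive value is `z` times an element of `V`,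
and `ringKrullDim V = 1`.  Every non-zero `t ∈ K` is `z ^ n` times a unit of `V`: `SMonoV` with
`J = univ`.
-/

set_option autoImplicit false

open Polynomial

namespace Pool.Agent.LUD

open Pool.Agent.LUM
open Pool.Agent.H15JM (RVal)
open Pool.Agent.LU1 (VPos val_add_vpos adj Ev)

universe u

/-- Elements of a Dedekind domain, at a non-zero prime `P`: there is `p ∈ P` such that every non-zero element
is `p ^ n` times a quotient of elements outside `P`. -/
private theorem dd_unif {C : Type u} [CommRing C] [IsDedekindDomain C] (P : Ideal C) [P.IsPrime]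
    (hP : P ≠ ⊥) : ∃ p ∈ P, p ≠ 0 ∧ ∀ c : C, c ≠ 0 → ∃ (n : ℕ) (s t : C), s ∉ P ∧ t ∉ P ∧
      c * t = p ^ n * s := by
  have hdvr : IsDiscreteValuationRing (Localization.AtPrime P) :=
    IsLocalization.AtPrime.isDiscreteValuationRing_of_dedekind_domain C hP _
  have hinj : Function.Injective (algebraMap C (Localization.AtPrime P)) :=
    IsLocalization.injective _ P.primeCompl_le_nonZeroDivisors
  obtain ⟨q, hq⟩ := IsDiscreteValuationRing.exists_irreducible (Localization.AtPrime P)
  obtain ⟨p, s₀, hps⟩ := IsLocalization.exists_mk'_eq P.primeCompl q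
  have hs₀ : IsUnit (algebraMap C (Localization.AtPrime P) s₀) :=
    IsLocalization.map_units _ s₀
  have hpq : algebraMap C (Localization.AtPrime P) p = q * algebraMap C _ (s₀ : C) := by
    rw [← hps, IsLocalization.mk'_spec]
  have hp : Irreducible (algebraMap C (Localization.AtPrime P) p) := by
    rw [hpq]
    exact (irreducible_mul_isUnit hs₀).mpr hq
  have hpP : p ∈ P := by
    by_contra hc
    exact hp.not_isUnit (IsLocalization.map_units _ (⟨p, hc⟩ : P.primeCompl))
  have hp0 : p ≠ 0 := by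
    rintro rfl
    rw [map_zero] at hp
    exact hp.ne_zero rfl
  refine ⟨p, hpP, hp0, fun c hc => ?_⟩
  have hc' : algebraMap C (Localization.AtPrime P) c ≠ 0 := fun h =>
    hc (hinj (h.trans (map_zero _).symm))
  obtain ⟨n, hn⟩ := IsDiscreteValuationRing.associated_pow_irreducible hc' hp
  obtain ⟨u, hu⟩ := hn
  obtain ⟨a, b, hab⟩ := IsLocalization.exists_mk'_eq P.primeCompl (u : Localization.AtPrime P)
  have ha : a ∉ P := by
    intro ha
    have h1 : IsUnit (IsLocalization.mk' (Localization.AtPrime P) a b) := by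
      rw [hab]
      exact u.isUnit
    rw [IsLocalization.AtPrime.isUnit_mk'_iff (Localization.AtPrime P) P] at h1
    exact h1 ha
  refine ⟨n, b, a, b.2, ha, ?_⟩
  apply hinj
  rw [map_mul, map_mul, map_pow, ← hu, ← hab]
  have h2 : IsLocalization.mk' (Localization.AtPrime P) a b * algebraMap C _ (b : C)
      = algebraMap C _ a := IsLocalization.mk'_spec _ a b
  rw [mul_assoc, h2]

theorem lurV_trdeg_zero {Λ K : Type u} [CommRing Λ] [IsDomain Λ] [IsDiscreteValuationRing Λ]
    [CharZero Λ] [Field K] [Algebra Λ K] (hinj : Function.Injective (algebraMap Λ K))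
    [Algebra.EssFiniteType Λ K] {ϖ : Λ} (hϖ : Irreducible ϖ) (V : ValuationSubring K)
    (hΛ : ∀ c : Λ, algebraMap Λ K c ∈ V) (hpos : V.valuation (algebraMap Λ K ϖ) < 1)
    (htr : Algebra.trdeg Λ K = 0) : LUC.LUrV Λ V := by
  classical
  -- the fraction field of `Λ`
  have hfs : FaithfulSMul Λ K := (faithfulSMul_iff_algebraMap_injective Λ K).mpr hinj
  let : Algebra (FractionRing Λ) K := FractionRing.liftAlgebra Λ K
  have : IsScalarTower Λ (FractionRing Λ) K := FractionRing.isScalarTower_liftAlgebra Λ K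
  have halg : Algebra.IsAlgebraic Λ K := trdeg_eq_zero_iff.mp htr
  have : Algebra.IsAlgebraic (FractionRing Λ) K :=
    (IsFractionRing.comap_isAlgebraic_iff (A := Λ) (K := FractionRing Λ)).mp halg
  have : Algebra.EssFiniteType (FractionRing Λ) K := Algebra.EssFiniteType.of_comp Λ _ K
  have : FiniteDimensional (FractionRing Λ) K :=
    Algebra.finite_of_essFiniteType_of_isAlgebraic
  have : CharZero (FractionRing Λ) :=
    charZero_of_injective_algebraMap (IsFractionRing.injective Λ (FractionRing Λ))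
  have : Algebra.IsSeparable (FractionRing Λ) K := inferInstance
  have : IsDedekindDomain (integralClosure Λ K) :=
    integralClosure.isDedekindDomain Λ (FractionRing Λ) K
  have hfin : Module.Finite Λ (integralClosure Λ K) :=
    IsIntegralClosure.finite Λ (FractionRing Λ) K (integralClosure Λ K)
  have hfr : IsFractionRing (integralClosure Λ K) K :=
    integralClosure.isFractionRing_of_finite_extension (FractionRing Λ) K
  -- the integral closure is contained in `V`
  have hCV : ∀ c ∈ integralClosure Λ K, c ∈ V := by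
    intro c hc
    obtain ⟨p, hp1, hp2⟩ := hc
    have h1 : IsIntegral V c := by
      refine ⟨p.map ((algebraMap Λ K).codRestrict V.toSubring hΛ), hp1.map _, ?_⟩
      rw [eval₂_map]
      exact hp2
    obtain ⟨y, hy⟩ := IsIntegrallyClosed.isIntegral_iff.mp h1
    rw [← hy]
    exact y.2
  let φ : integralClosure Λ K →+* V :=
    ((integralClosure Λ K).val : integralClosure Λ K →+* K).codRestrict V.toSubring
      (fun c => hCV c c.2)
  have hφ : ∀ c : integralClosure Λ K, ((φ c : V) : K) = c := fun _ => rfl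
  let P : Ideal (integralClosure Λ K) := (IsLocalRing.maximalIdeal V).comap φ
  have hPmem : ∀ c : integralClosure Λ K, c ∈ P ↔ V.valuation (c : K) < 1 := by
    intro c
    rw [Ideal.mem_comap, V.valuation_lt_one_iff, hφ]
  have hPp : P.IsPrime := Ideal.comap_isPrime _ _
  have hP0 : P ≠ ⊥ := by
    intro h
    have h1 : algebraMap Λ (integralClosure Λ K) ϖ ∈ P := (hPmem _).mpr hpos
    rw [h, Ideal.mem_bot] at h1
    have h2 : algebraMap Λ K ϖ = 0 := congrArg Subtype.val h1
    exact hϖ.ne_zero (hinj (h2.trans (map_zero _).symm))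
  obtain ⟨p, hpP, hp0, hfac⟩ := dd_unif P hP0
  have hone : ∀ c : integralClosure Λ K, c ∉ P → V.valuation (c : K) = 1 := by
    intro c hc
    refine le_antisymm ((V.valuation_le_one_iff _).mpr (hCV c c.2)) ?_
    rw [← not_lt]
    exact fun h => hc ((hPmem c).mpr h)
  obtain ⟨z, hz⟩ : ∃ z : K, z = (p : K) := ⟨_, rfl⟩
  have hz0 : z ≠ 0 := by
    rw [hz]
    exact fun h => hp0 (Subtype.ext h)
  have hz1 : V.valuation z < 1 := by
    rw [hz]
    exact (hPmem p).mp hpP
  have hzpos : 0 < V.valuation z := by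
    rw [zero_lt_iff]
    exact (Valuation.ne_zero_iff _).mpr hz0
  have hzC : z ∈ integralClosure Λ K := by
    rw [hz]
    exact p.2
  have hval : ∀ c : K, V.valuation c = 1 → c ≠ 0 := by
    rintro c hc rfl
    rw [map_zero] at hc
    exact zero_ne_one hc
  have hfac2 : ∀ c : integralClosure Λ K, c ≠ 0 → ∃ (n : ℕ) (s t : integralClosure Λ K),
      V.valuation (s : K) = 1 ∧ V.valuation (t : K) = 1 ∧ (c : K) = z ^ n * ((s : K) / t) := by
    intro c hc
    obtain ⟨n, s, t, hs, ht, h⟩ := hfac c hc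
    refine ⟨n, s, t, hone s hs, hone t ht, ?_⟩
    have h1 : (c : K) * t = z ^ n * s := by
      rw [hz]
      exact congrArg Subtype.val h
    rw [← mul_div_assoc, ← h1, mul_div_cancel_right₀ _ (hval _ (hone t ht))]
  have hrep : ∀ t : K, t ≠ 0 → ∃ (m : ℤ) (a b : K), a ∈ integralClosure Λ K ∧
      b ∈ integralClosure Λ K ∧ V.valuation a = 1 ∧ V.valuation b = 1 ∧ t = z ^ m * (a / b) := by
    intro t ht
    obtain ⟨x, y, hy, hxy⟩ := IsFractionRing.div_surjective (A := integralClosure Λ K) t
    have hy0 : y ≠ 0 := nonZeroDivisors.ne_zero hy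
    have hx0 : x ≠ 0 := by
      rintro rfl
      rw [map_zero, zero_div] at hxy
      exact ht hxy.symm
    obtain ⟨n, s, u, hs, hu, h1⟩ := hfac2 x hx0
    obtain ⟨n', s', u', hs', hu', h2⟩ := hfac2 y hy0
    refine ⟨(n : ℤ) - n', (s : K) * u', (u : K) * s', mul_mem s.2 u'.2, mul_mem u.2 s'.2, ?_, ?_, ?_⟩
    · rw [map_mul, hs, hu', one_mul]
    · rw [map_mul, hu, hs', one_mul]
    · have h3 : t = (x : K) / (y : K) := hxy.symm
      rw [h3, h1, h2, zpow_sub₀ hz0, zpow_natCast, zpow_natCast]
      have e1 := hval _ hs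
      have e2 := hval _ hu
      have e3 := hval _ hs'
      have e4 := hval _ hu'
      field_simp
  -- the model
  intro A hfg hA hfrac T hT
  obtain ⟨S, hS⟩ := Module.Finite.iff_fg.mp (show Module.Finite Λ
    (Subalgebra.toSubmodule (integralClosure Λ K)) from hfin)
  have hSC : ∀ s ∈ S, s ∈ integralClosure Λ K := by
    intro s hs
    rw [← Subalgebra.mem_toSubmodule, ← hS]
    exact Submodule.subset_span hs
  have hden : ∀ S' : Finset K, ∃ g ∈ A, g ≠ 0 ∧ ∀ s ∈ S', g * s ∈ A := by
    intro S'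
    induction S' using Finset.induction_on with
    | empty => exact ⟨1, A.one_mem, one_ne_zero, fun s hs => absurd hs (Finset.notMem_empty s)⟩
    | insert s S' _ ih =>
      obtain ⟨g, hgA, hg0, hg⟩ := ih
      obtain ⟨a, ha, b, hb, hb0, hab⟩ := hfrac s
      refine ⟨b * g, A.mul_mem hb hgA, mul_ne_zero hb0 hg0, fun s' hs' => ?_⟩
      rcases Finset.mem_insert.mp hs' with rfl | hs'
      · have h1 : b * g * s' = g * a := by
          rw [hab]
          field_simp
        rw [h1]
        exact A.mul_mem hgA ha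
      · rw [mul_assoc]
        exact A.mul_mem hb (hg s' hs')
  obtain ⟨g, hgA, hg0, hg⟩ := hden S
  have hch : IsChart V A (Algebra.adjoin Λ ((A : Set K) ∪
      (fun x => x / g) '' ((S.image fun s => g * s : Finset K) : Set K))) g := by
    refine ⟨hgA, hg0, S.image fun s => g * s, fun x hx => ?_, rfl⟩
    obtain ⟨s, hs, rfl⟩ := Finset.mem_image.mp hx
    refine ⟨hg s hs, ?_⟩
    rw [map_mul]
    exact mul_le_of_le_one_right' ((V.valuation_le_one_iff _).mpr (hCV s (hSC s hs)))
  refine ⟨_, g, hch, ?_⟩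
  obtain ⟨A', hA'⟩ : ∃ A' : Subalgebra Λ K, A' = Algebra.adjoin Λ ((A : Set K) ∪
      (fun x => x / g) '' ((S.image fun s => g * s : Finset K) : Set K)) := ⟨_, rfl⟩
  rw [← hA']
  have hCA : ∀ c ∈ integralClosure Λ K, c ∈ A' := by
    intro c hc
    have h1 : c ∈ Submodule.span Λ (S : Set K) := by
      rw [hS]
      exact hc
    have h2 : Submodule.span Λ (S : Set K) ≤ Subalgebra.toSubmodule A' := by
      rw [Submodule.span_le]
      intro s hs
      show s ∈ A'
      rw [hA']
      refine Algebra.subset_adjoin (Or.inr ⟨g * s, ?_, ?_⟩)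
      · rw [Finset.mem_coe]
        exact Finset.mem_image_of_mem _ hs
      · show g * s / g = s
        rw [mul_div_cancel_left₀ _ hg0]
    exact h2 h1
  let VA : Subalgebra Λ K := { V.toSubring with algebraMap_mem' := hΛ }
  have hAV : ∀ a ∈ A', a ∈ V := by
    intro a ha
    have h1 : A' ≤ VA := by
      rw [hA']
      refine Algebra.adjoin_le ?_
      rintro x (hx | ⟨y, hy, rfl⟩)
      · exact hA x hx
      · rw [Finset.mem_coe] at hy
        obtain ⟨s, hs, rfl⟩ := Finset.mem_image.mp hy
        show g * s / g ∈ V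
        rw [mul_div_cancel_left₀ _ hg0]
        exact hCV s (hSC s hs)
    exact h1 ha
  have hRV : ∀ f ∈ locV V A', V.valuation f ≤ 1 := by
    rintro f ⟨a, ha, b, hb, hvb, rfl⟩
    rw [map_div₀, hvb, div_one]
    exact (V.valuation_le_one_iff _).mpr (hAV a ha)
  have hVR : ∀ f : K, V.valuation f ≤ 1 → f ∈ locV V A' := by
    intro f hf
    by_cases h0 : f = 0
    · rw [h0]
      exact (locV V A').zero_mem
    · obtain ⟨m, a, b, ha, hb, hva, hvb, h1⟩ := hrep f h0
      have h2 : V.valuation f = V.valuation z ^ m := by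
        rw [h1, map_mul, map_zpow₀, map_div₀, hva, hvb, div_one, mul_one]
      rw [h2, zpow_le_one_iff_right_of_lt_one₀ hzpos hz1] at hf
      obtain ⟨n, rfl⟩ := Int.eq_ofNat_of_zero_le hf
      refine ⟨z ^ n * a, A'.mul_mem (A'.pow_mem (hCA z hzC) n) (hCA a ha), b, hCA b hb, hvb, ?_⟩
      rw [h1, zpow_natCast, mul_div_assoc]
  have hrepR : ∀ t : K, t ≠ 0 → ∃ (m : ℤ) (w : K), w ∈ locV V A' ∧ V.valuation w = 1 ∧
      t = z ^ m * w ∧ V.valuation t = V.valuation z ^ m := by
    intro t ht
    obtain ⟨m, a, b, ha, hb, hva, hvb, h1⟩ := hrep t ht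
    have h2 : V.valuation (a / b) = 1 := by rw [map_div₀, hva, hvb, div_one]
    refine ⟨m, a / b, hVR _ h2.le, h2, h1, ?_⟩
    rw [h1, map_mul, map_zpow₀, h2, mul_one]
  have hSM : ∀ t : K, t ≠ 0 →
      LUC.SMonoV V (locV V A') (fun _ : Fin 1 => z) Finset.univ t := by
    intro t ht
    obtain ⟨m, w, hw, hw1, h1, h2⟩ := hrepR t ht
    refine ⟨fun _ => m, w, hw, hw1, ?_, fun i hi => absurd (Finset.mem_univ i) hi, ?_, ?_, ?_⟩
    · rw [Fin.prod_univ_one]
      exact h1
    · intro h3 _ _
      rw [h2] at h3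
      exact (zpow_lt_one_iff_right_of_lt_one₀ hzpos hz1).mp h3
    · intro h3 _ _
      rw [h2] at h3
      exact (one_lt_zpow_iff_right_of_lt_one₀ hzpos hz1).mp h3
    · intro h3 _
      rw [h2] at h3
      exact (zpow_eq_one_iff_right₀ hzpos.le hz1.ne).mp h3
  have hunit : ∀ x : locV V A', V.valuation (x : K) = 1 → IsUnit x := by
    intro x hx
    have hx0 : (x : K) ≠ 0 := hval _ hx
    have h1 : (x : K)⁻¹ ∈ locV V A' := hVR _ (by rw [map_inv₀, hx, inv_one])
    exact IsUnit.of_mul_eq_one ⟨(x : K)⁻¹, h1⟩ (Subtype.ext (mul_inv_cancel₀ hx0))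
  have hzR : z ∈ locV V A' := hVR z hz1.le
  have hirr : Irreducible (⟨z, hzR⟩ : locV V A') := by
    refine ⟨fun hu => ?_, fun x y hxy => ?_⟩
    · obtain ⟨y, hy⟩ := hu.exists_right_inv
      have h1 : z * (y : K) = 1 := congrArg Subtype.val hy
      have h2 : V.valuation z * V.valuation (y : K) = 1 := by rw [← map_mul, h1, map_one]
      have h3 : V.valuation z * V.valuation (y : K) < 1 :=
        mul_lt_one_of_lt_of_le hz1 (hRV _ y.2)
      exact h3.ne h2
    · have h1 : z = (x : K) * (y : K) := congrArg Subtype.val hxy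
      have hx0 : (x : K) ≠ 0 := fun h => hz0 (by rw [h1, h, zero_mul])
      have hy0 : (y : K) ≠ 0 := fun h => hz0 (by rw [h1, h, mul_zero])
      rcases (hRV _ x.2).eq_or_lt with hx | hx
      · exact Or.inl (hunit x hx)
      rcases (hRV _ y.2).eq_or_lt with hy | hy
      · exact Or.inr (hunit y hy)
      exfalso
      obtain ⟨m, _, _, _, _, h2⟩ := hrepR x hx0
      obtain ⟨n, _, _, _, _, h3⟩ := hrepR y hy0
      rw [h2] at hx
      rw [h3] at hy
      have hm := (zpow_lt_one_iff_right_of_lt_one₀ hzpos hz1).mp hx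
      have hn := (zpow_lt_one_iff_right_of_lt_one₀ hzpos hz1).mp hy
      have h4 : V.valuation z = V.valuation z ^ (m + n) := by
        conv_lhs => rw [h1]
        rw [map_mul, h2, h3, zpow_add₀ hzpos.ne']
      have h5 : V.valuation z ^ (m + n) < V.valuation z ^ (1 : ℤ) :=
        zpow_lt_zpow_right_of_lt_one₀ hzpos hz1 (by omega)
      rw [zpow_one, ← h4] at h5
      exact lt_irrefl _ h5
  have hdvr : IsDiscreteValuationRing (locV V A') := by
    apply IsDiscreteValuationRing.ofHasUnitMulPowIrreducibleFactorization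
    refine ⟨⟨z, hzR⟩, hirr, fun {x} hx => ?_⟩
    have hx0 : (x : K) ≠ 0 := fun h => hx (Subtype.ext h)
    obtain ⟨m, w, hw, hw1, h1, h2⟩ := hrepR x hx0
    have h3 := hRV _ x.2
    rw [h2, zpow_le_one_iff_right_of_lt_one₀ hzpos hz1] at h3
    obtain ⟨n, rfl⟩ := Int.eq_ofNat_of_zero_le h3
    obtain ⟨u, hu⟩ := hunit ⟨w, hw⟩ hw1
    refine ⟨n, u, ?_⟩
    rw [hu]
    apply Subtype.ext
    show z ^ n * w = x
    rw [h1, zpow_natCast]
  refine ⟨1, fun _ => z, Finset.univ, ⟨fun _ => hzR, fun _ => hz0, fun _ => hz1, ?_, ?_⟩,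
    hSM g hg0, fun t ht => hSM t (hT t ht)⟩
  · intro f hf hf1
    refine ⟨fun _ => f / z, fun _ => ?_, ?_⟩
    · by_cases h0 : f = 0
      · rw [h0, zero_div]
        exact (locV V A').zero_mem
      · obtain ⟨m, _, _, _, _, h2⟩ := hrepR f h0
        apply hVR
        rw [h2] at hf1
        have hm := (zpow_lt_one_iff_right_of_lt_one₀ hzpos hz1).mp hf1
        rw [map_div₀, h2]
        have h3 : V.valuation z ^ m / V.valuation z = V.valuation z ^ (m - 1) := by
          rw [zpow_sub_one₀ hzpos.ne', div_eq_mul_inv]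
        rw [h3, zpow_le_one_iff_right_of_lt_one₀ hzpos hz1]
        omega
    · rw [Fin.sum_univ_one, div_mul_cancel₀ _ hz0]
  · rw [IsDiscreteValuationRing.ringKrullDim_eq_one]
    rfl

end Pool.Agent.LUD
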