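import Pool.Agent.Lib.LUD.Defs

/-! # Row A1: toric transforms and monomials: basic facts

Recipe. All rings are local at the centre of `v` (`N.loc` of LUM/Q01.lean: inverses of elements of
value zero; `le_locv`, `locv_mono`, `locv_le`, `locv_inv` of LUM/Basic.lean).
`Tor.trans`: `N'.R = locv (N.R, x')`, `N''.R = locv (N'.R, x'')` and every `x'_i` is a monomial with
natural exponents in the `x''_j` (`dn`), so `N''.R = locv (N.R, x'')`.
`Mn.tor`: `x_i = ∏ x'_j ^ n_ij`, so a Laurent monomial in the `x_i` is one in the `x'_j`.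
`Mn.of_monoPos`: drop the signs (the unit `u` of `MonoPos` has `v u = 0` by `N.nonneg`).
-/

set_option autoImplicit false
set_option linter.unusedSectionVars false

open Polynomial

namespace Pool.Agent.LUD

open Pool.Agent.LUM
open Pool.Agent.H15JM (RVal)
open Pool.Agent.LU1 (VPos val_add_vpos adj Ev)

universe u

variable {Λ Ω : Type u} [CommRing Λ] [IsDomain Λ] [IsDiscreteValuationRing Λ] [Field Ω]
  [Algebra Λ Ω] {ϖ : Λ} {v : RVal Ω} {r : ℕ}

private theorem a1_single (N : WN Λ v r) (i : Fin r) :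
    ∏ j, N.x j ^ (if i = j then (1 : ℤ) else 0) = N.x i := by
  rw [Finset.prod_eq_single i]
  · rw [if_pos rfl, zpow_one]
  · intro j _ hj
    rw [if_neg hj.symm, zpow_zero]
  · intro h
    exact absurd (Finset.mem_univ _) h

private theorem a1_single_nat (N : WN Λ v r) (i : Fin r) :
    ∏ j, N.x j ^ (if i = j then (1 : ℕ) else 0) = N.x i := by
  rw [Finset.prod_eq_single i]
  · rw [if_pos rfl, pow_one]
  · intro j _ hj
    rw [if_neg hj.symm, pow_zero]
  · intro h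
    exact absurd (Finset.mem_univ _) h

private theorem a1_prod_zpow {ι : Type*} {a : Ω} (ha : a ≠ 0) (s : Finset ι) (n : ι → ℤ) :
    a ^ (∑ i ∈ s, n i) = ∏ i ∈ s, a ^ n i := by
  classical
  induction s using Finset.induction_on with
  | empty => rw [Finset.sum_empty, Finset.prod_empty, zpow_zero]
  | insert b s hb ih => rw [Finset.sum_insert hb, Finset.prod_insert hb, zpow_add₀ ha, ih]

private theorem a1_quo_mul {R : Subalgebra Λ Ω} {f g : Ω} (hf : Quo R f) (hg : Quo R g) :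
    Quo R (f * g) := by
  obtain ⟨a, ha, b, hb, hb0, rfl⟩ := hf
  obtain ⟨c, hc, d, hd, hd0, rfl⟩ := hg
  exact ⟨a * c, R.mul_mem ha hc, b * d, R.mul_mem hb hd, mul_ne_zero hb0 hd0,
    div_mul_div_comm _ _ _ _⟩

private theorem a1_quo_inv {R : Subalgebra Λ Ω} {f : Ω} (hf : Quo R f) : Quo R f⁻¹ := by
  obtain ⟨a, ha, b, hb, hb0, rfl⟩ := hf
  by_cases ha0 : a = 0
  · refine ⟨0, R.zero_mem, 1, R.one_mem, one_ne_zero, ?_⟩
    rw [ha0]
    simp
  · exact ⟨b, hb, a, ha, ha0, inv_div _ _⟩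

private theorem a1_quo_mem {R : Subalgebra Λ Ω} {f : Ω} (hf : f ∈ R) : Quo R f :=
  ⟨f, hf, 1, R.one_mem, one_ne_zero, (div_one _).symm⟩

private theorem a1_quo_pow {R : Subalgebra Λ Ω} {f : Ω} (hf : Quo R f) (n : ℕ) :
    Quo R (f ^ n) := by
  induction n with
  | zero =>
    rw [pow_zero]
    exact a1_quo_mem R.one_mem
  | succ n ih =>
    rw [pow_succ]
    exact a1_quo_mul ih hf

private theorem a1_quo_zpow {R : Subalgebra Λ Ω} {f : Ω} (hf : Quo R f) (n : ℤ) :
    Quo R (f ^ n) := by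
  cases n with
  | ofNat n =>
    rw [Int.ofNat_eq_natCast, zpow_natCast]
    exact a1_quo_pow hf n
  | negSucc n =>
    rw [zpow_negSucc]
    exact a1_quo_inv (a1_quo_pow hf _)

private theorem a1_quo_prod {R : Subalgebra Λ Ω} {ι : Type*} (s : Finset ι) (f : ι → Ω)
    (hf : ∀ i ∈ s, Quo R (f i)) : Quo R (∏ i ∈ s, f i) := by
  classical
  induction s using Finset.induction_on with
  | empty =>
    rw [Finset.prod_empty]
    exact a1_quo_mem R.one_mem
  | insert a s ha ih =>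
    rw [Finset.prod_insert ha]
    exact a1_quo_mul (hf a (Finset.mem_insert_self a s))
      (ih fun i hi => hf i (Finset.mem_insert_of_mem hi))

theorem Tor.refl (N : WN Λ v r) : Tor N N := by
  refine ⟨rfl, fun i => ⟨_, (a1_single N i).symm⟩, fun i => ⟨_, (a1_single_nat N i).symm⟩, ?_⟩
  have h1 : Algebra.adjoin Λ ((N.R : Set Ω) ∪ Set.range N.x) = N.R := by
    refine le_antisymm (Algebra.adjoin_le (Set.union_subset subset_rfl ?_)) ?_
    · rintro _ ⟨i, rfl⟩
      exact N.x_mem i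
    · intro f hf
      exact Algebra.subset_adjoin (Or.inl hf)
  rw [h1]
  exact le_antisymm (le_locv _) (locv_le le_rfl fun f hf h0 h2 => N.loc hf h0 h2)

theorem Tor.le {N N' : WN Λ v r} (h : Tor N N') : N.R ≤ N'.R := by
  rw [h.R]
  intro f hf
  exact le_locv _ (Algebra.subset_adjoin (Or.inl hf))

theorem Tor.trans {N N' N'' : WN Λ v r} (h : Tor N N') (h' : Tor N' N'') : Tor N N'' := by
  refine ⟨h'.y.trans h.y, fun i => ?_, fun i => ?_, ?_⟩
  · obtain ⟨n, hn⟩ := h'.up i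
    choose m hm using h.up
    refine ⟨fun l => ∑ j, m j l * n j, ?_⟩
    rw [hn, Finset.prod_congr rfl fun j _ => by rw [hm j, ← Finset.prod_zpow], Finset.prod_comm]
    refine Finset.prod_congr rfl fun l _ => ?_
    rw [Finset.prod_congr rfl fun j _ => (zpow_mul (N.x l) (m j l) (n j)).symm]
    exact (a1_prod_zpow (N.x_ne l) _ _).symm
  · obtain ⟨n, hn⟩ := h.dn i
    choose m hm using h'.dn
    refine ⟨fun l => ∑ j, m j l * n j, ?_⟩
    rw [hn, Finset.prod_congr rfl fun j _ => by rw [hm j, ← Finset.prod_pow], Finset.prod_comm]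
    refine Finset.prod_congr rfl fun l _ => ?_
    rw [Finset.prod_congr rfl fun j _ => (pow_mul (N''.x l) (m j l) (n j)).symm]
    exact Finset.prod_pow_eq_pow_sum _ _ _
  · refine le_antisymm ?_ ?_
    · have hinv : ∀ f ∈ locv v (Algebra.adjoin Λ ((N.R : Set Ω) ∪ Set.range N''.x)), f ≠ 0 →
          v f = 0 → f⁻¹ ∈ locv v (Algebra.adjoin Λ ((N.R : Set Ω) ∪ Set.range N''.x)) :=
        fun f hf h0 h1 => locv_inv hf h0 h1
      have hx'' : ∀ j, N''.x j ∈ locv v (Algebra.adjoin Λ ((N.R : Set Ω) ∪ Set.range N''.x)) :=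
        fun j => le_locv _ (Algebra.subset_adjoin (Or.inr ⟨j, rfl⟩))
      have hR : N'.R ≤ locv v (Algebra.adjoin Λ ((N.R : Set Ω) ∪ Set.range N''.x)) := by
        rw [h.R]
        refine locv_le (Algebra.adjoin_le (Set.union_subset ?_ ?_)) hinv
        · intro f hf
          exact le_locv _ (Algebra.subset_adjoin (Or.inl hf))
        · rintro _ ⟨i, rfl⟩
          obtain ⟨n, hn⟩ := h'.dn i
          rw [hn]
          exact Subalgebra.prod_mem _ fun j _ => Subalgebra.pow_mem _ (hx'' j) _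
      rw [h'.R]
      refine locv_le (Algebra.adjoin_le (Set.union_subset hR ?_)) hinv
      rintro _ ⟨i, rfl⟩
      exact hx'' i
    · rw [h'.R]
      refine locv_mono (Algebra.adjoin_mono (Set.union_subset_union_left _ ?_))
      exact h.le

theorem Mn.ne {N : WN Λ v r} {f : Ω} (hf : Mn N f) : f ≠ 0 := by
  obtain ⟨n, w, -, hw, -, rfl⟩ := hf
  exact mul_ne_zero (Finset.prod_ne_zero_iff.2 fun i _ => zpow_ne_zero _ (N.x_ne i)) hw

theorem Mn.x (N : WN Λ v r) (i : Fin r) : Mn N (N.x i) :=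
  ⟨_, 1, N.R.one_mem, one_ne_zero, v.map_one, by rw [mul_one]; exact (a1_single N i).symm⟩

theorem Mn.of_unit {N : WN Λ v r} {f : Ω} (hf : f ∈ N.R) (h0 : f ≠ 0) (h1 : v f = 0) : Mn N f :=
  ⟨fun _ => 0, f, hf, h0, h1, by simp⟩

theorem Mn.one (N : WN Λ v r) : Mn N 1 :=
  Mn.of_unit N.R.one_mem one_ne_zero v.map_one

theorem Mn.mul {N : WN Λ v r} {f g : Ω} (hf : Mn N f) (hg : Mn N g) : Mn N (f * g) := by
  obtain ⟨n, w, hw, hw0, hvw, rfl⟩ := hf
  obtain ⟨m, w', hw', hw0', hvw', rfl⟩ := hg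
  refine ⟨fun i => n i + m i, w * w', N.R.mul_mem hw hw', mul_ne_zero hw0 hw0', ?_, ?_⟩
  · rw [v.map_mul hw0 hw0', hvw, hvw', add_zero]
  · have h1 : (∏ i, N.x i ^ (n i + m i)) = (∏ i, N.x i ^ n i) * ∏ i, N.x i ^ m i := by
      rw [← Finset.prod_mul_distrib]
      exact Finset.prod_congr rfl fun i _ => zpow_add₀ (N.x_ne i) _ _
    rw [h1]
    ring

theorem Mn.inv {N : WN Λ v r} {f : Ω} (hf : Mn N f) : Mn N f⁻¹ := by
  obtain ⟨n, w, hw, hw0, hvw, rfl⟩ := hf
  refine ⟨fun i => -n i, w⁻¹, N.loc hw hw0 hvw, inv_ne_zero hw0, ?_, ?_⟩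
  · rw [v.map_inv hw0, hvw, neg_zero]
  · rw [mul_inv, ← Finset.prod_inv_distrib]
    congr 1
    exact Finset.prod_congr rfl fun i _ => (zpow_neg _ _).symm

theorem Mn.div {N : WN Λ v r} {f g : Ω} (hf : Mn N f) (hg : Mn N g) : Mn N (f / g) := by
  rw [div_eq_mul_inv]
  exact hf.mul hg.inv

theorem Mn.pow {N : WN Λ v r} {f : Ω} (hf : Mn N f) (n : ℕ) : Mn N (f ^ n) := by
  induction n with
  | zero =>
    rw [pow_zero]
    exact Mn.one N
  | succ n ih =>
    rw [pow_succ]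
    exact ih.mul hf

theorem Mn.zpow {N : WN Λ v r} {f : Ω} (hf : Mn N f) (n : ℤ) : Mn N (f ^ n) := by
  cases n with
  | ofNat n =>
    rw [Int.ofNat_eq_natCast, zpow_natCast]
    exact hf.pow n
  | negSucc n =>
    rw [zpow_negSucc]
    exact (hf.pow _).inv

theorem Mn.prod {N : WN Λ v r} {ι : Type*} (s : Finset ι) (f : ι → Ω)
    (hf : ∀ i ∈ s, Mn N (f i)) : Mn N (∏ i ∈ s, f i) := by
  classical
  induction s using Finset.induction_on with
  | empty =>
    rw [Finset.prod_empty]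
    exact Mn.one N
  | insert a s ha ih =>
    rw [Finset.prod_insert ha]
    exact (hf a (Finset.mem_insert_self a s)).mul
      (ih fun i hi => hf i (Finset.mem_insert_of_mem hi))

theorem Mn.of_monoPos {N : WN Λ v r} {f : Ω} (hf : N.MonoPos f) : Mn N f := by
  obtain ⟨n, u, hu, hu1, hu2, hfe, -, -, -⟩ := hf
  refine ⟨n, u, hu1, hu, le_antisymm ?_ (N.nonneg u hu1 hu), hfe⟩
  have h1 := N.nonneg u⁻¹ hu2 (inv_ne_zero hu)
  rw [v.map_inv hu] at h1
  linarith

theorem Mn.tor {N N' : WN Λ v r} (h : Tor N N') {f : Ω} (hf : Mn N f) : Mn N' f := by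
  obtain ⟨n, w, hw, hw0, hvw, rfl⟩ := hf
  refine (Mn.prod _ _ fun i _ => Mn.zpow ?_ _).mul (Mn.of_unit (h.le hw) hw0 hvw)
  obtain ⟨m, hm⟩ := h.dn i
  rw [hm]
  exact Mn.prod _ _ fun j _ => (Mn.x N' j).pow _

/-- Laurent monomials are quotients of elements of the ring. -/
theorem Mn.quo {N : WN Λ v r} {f : Ω} (hf : Mn N f) : Quo N.R f := by
  obtain ⟨n, w, hw, hw0, hvw, rfl⟩ := hf
  exact a1_quo_mul (a1_quo_prod _ _ fun i _ => a1_quo_zpow (a1_quo_mem (N.x_mem i)) _)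
    (a1_quo_mem hw)

theorem Quo.mul {R : Subalgebra Λ Ω} {f g : Ω} (hf : Quo R f) (hg : Quo R g) : Quo R (f * g) :=
  a1_quo_mul hf hg

theorem Quo.inv {R : Subalgebra Λ Ω} {f : Ω} (hf : Quo R f) : Quo R f⁻¹ :=
  a1_quo_inv hf

theorem Quo.pow {R : Subalgebra Λ Ω} {f : Ω} (hf : Quo R f) (n : ℕ) : Quo R (f ^ n) :=
  a1_quo_pow hf n

theorem Quo.mono {R R' : Subalgebra Λ Ω} (h : R ≤ R') {f : Ω} (hf : Quo R f) : Quo R' f := by
  obtain ⟨a, ha, b, hb, hb0, rfl⟩ := hf
  exact ⟨a, h ha, b, h hb, hb0, rfl⟩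

end Pool.Agent.LUD
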