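import Pool.Agent.Lib.LUD.A1
import Pool.Agent.Lib.LUM.NFa
import Pool.Agent.Lib.LUM.G01

/-! # Row A2: existence of toric transforms (Perron)

`Γ` is the group generated by the values of the `x_i`.  `LU1.perron` gives a basis `u` of `Γ` of
positive numbers such that the values of the `x_i` and the `|v f|`, `f ∈ D`, have positive
coordinates.  With `u_j = ∑ c_ji v (x_i)` put `x'_j := ∏ x_i ^ c_ji`.
-/

set_option autoImplicit false

open Polynomial

namespace Pool.Agent.LUD

open Pool.Agent.LUM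
open Pool.Agent.H15JM (RVal)
open Pool.Agent.LU1 (VPos val_add_vpos adj Ev)

universe u

variable {Λ Ω : Type u} [CommRing Λ] [IsDomain Λ] [IsDiscreteValuationRing Λ] [Field Ω]
  [Algebra Λ Ω] {ϖ : Λ} {v : RVal Ω} {r : ℕ}

/-- The value of a Laurent monomial. -/
private theorem val_mon (κ : RVal Ω) {x : Fin r → Ω} (hx : ∀ i, x i ≠ 0) (n : Fin r → ℤ) :
    κ (∏ i, x i ^ n i) = ∑ i, (n i : ℝ) * κ (x i) := by
  rw [κ.map_prod _ _ fun i _ => zpow_ne_zero _ (hx i)]
  exact Finset.sum_congr rfl fun i _ => κ.map_zpow (hx i) _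

private theorem mon_ne {x : Fin r → Ω} (hx : ∀ i, x i ≠ 0) (n : Fin r → ℤ) :
    (∏ i, x i ^ n i) ≠ 0 :=
  Finset.prod_ne_zero_iff.2 fun i _ => zpow_ne_zero _ (hx i)

/-- Laurent monomials in Laurent monomials are determined by their values. -/
private theorem mon_eq {x x' : Fin r → Ω} (hx : ∀ i, x i ≠ 0)
    (hind : LinearIndependent ℚ fun i => v (x i)) {c : Fin r → Fin r → ℤ}
    (hx' : ∀ i, x' i = ∏ j, x j ^ c i j) {m n : Fin r → ℤ}
    (h : ∑ j, (m j : ℝ) * v (x' j) = ∑ j, (n j : ℝ) * v (x j)) :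
    ∏ j, x' j ^ m j = ∏ j, x j ^ n j := by
  have h1 : ∏ j, x' j ^ m j = ∏ k, x k ^ (∑ j, m j * c j k) := by
    calc ∏ j, x' j ^ m j = ∏ j, ∏ k, x k ^ (m j * c j k) := by
          refine Finset.prod_congr rfl fun j _ => ?_
          rw [hx' j, ← Finset.prod_zpow]
          refine Finset.prod_congr rfl fun k _ => ?_
          rw [← zpow_mul, mul_comm]
      _ = ∏ k, ∏ j, x k ^ (m j * c j k) := Finset.prod_comm
      _ = ∏ k, x k ^ (∑ j, m j * c j k) := by
          refine Finset.prod_congr rfl fun k _ => ?_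
          generalize (Finset.univ : Finset (Fin r)) = s
          classical
          induction s using Finset.induction_on with
          | empty => simp
          | insert a s ha ih =>
            rw [Finset.prod_insert ha, Finset.sum_insert ha, zpow_add₀ (hx k), ih]
  have hx'0 : ∀ i, x' i ≠ 0 := fun i => by rw [hx' i]; exact mon_ne hx _
  rw [h1]
  have h2 : (fun k => ∑ j, m j * c j k) = n := by
    apply NFA.coord_unique hind
    rw [← val_mon v hx, ← h, ← val_mon v hx'0, h1]
  rw [← h2]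

theorem exists_tor (hr : 0 < r) (N : WN Λ v r) (hK : N.Kap) (D : Finset Ω)
    (hD : ∀ f ∈ D, Mn N f) :
    ∃ N' : WN Λ v r, Tor N N' ∧ N'.Kap ∧ ∀ f ∈ D, N'.MonoPos f := by
  classical
  obtain ⟨κ, hκ1, hκ2, hκ3⟩ := hK
  have hloc : ∀ f ∈ N.R, f ≠ 0 → v f = 0 → f⁻¹ ∈ N.R := fun f hf h0 h1 => WN.loc N hf h0 h1
  have hxm : ∀ i, v (N.x i) ∈ NFA.grp (fun i => v (N.x i)) := fun i => by
    refine NFA.mem_grp.2 ⟨Pi.single i 1, ?_⟩
    rw [Finset.sum_eq_single i]
    · simp
    · intro j _ hj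
      simp [Pi.single_eq_of_ne hj]
    · simp
  -- values of the elements of `D`
  choose! n w hw using hD
  have hvD : ∀ f ∈ D, v f = ∑ i, (n f i : ℝ) * v (N.x i) := by
    intro f hf
    obtain ⟨-, h1, h2, h3⟩ := hw f hf
    conv_lhs => rw [h3]
    rw [v.map_mul (mon_ne N.x_ne _) h1, h2, add_zero, val_mon v N.x_ne]
  set S : Finset ℝ := Finset.univ.image (fun i => v (N.x i)) ∪
    (D.filter fun f => v f ≠ 0).image (fun f => |v f|) with hS
  have hSx : ∀ i, v (N.x i) ∈ (S : Set ℝ) := fun i => by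
    rw [Finset.mem_coe, hS, Finset.mem_union]
    exact Or.inl (Finset.mem_image_of_mem _ (Finset.mem_univ i))
  have hSD : ∀ f ∈ D, v f ≠ 0 → |v f| ∈ (S : Set ℝ) := fun f hf h0 => by
    rw [Finset.mem_coe, hS, Finset.mem_union]
    exact Or.inr (Finset.mem_image.2 ⟨f, Finset.mem_filter.2 ⟨hf, h0⟩, rfl⟩)
  obtain ⟨u, hu⟩ := LU1.perron hr (NFA.grp fun i => v (N.x i)) (NFA.grp_fg _)
    ⟨fun i => v (N.x i), N.x_ind, hxm, fun γ hγ => by
      obtain ⟨m, rfl⟩ := NFA.mem_grp.1 hγ
      refine Submodule.sum_mem _ fun i _ => ?_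
      have e : (m i : ℝ) * v (N.x i) = (m i : ℚ) • v (N.x i) := by
        rw [Rat.smul_def]; push_cast; rfl
      rw [e]
      exact Submodule.smul_mem _ _ (Submodule.subset_span ⟨i, rfl⟩)⟩ S (by
    intro γ hγ
    rw [hS, Finset.mem_union] at hγ
    rcases hγ with h | h
    · obtain ⟨i, -, rfl⟩ := Finset.mem_image.1 h
      exact ⟨hxm i, N.x_pos i⟩
    · obtain ⟨f, hf, rfl⟩ := Finset.mem_image.1 h
      obtain ⟨hf, h0⟩ := Finset.mem_filter.1 hf
      refine ⟨?_, abs_pos.2 h0⟩
      have h1 : v f ∈ NFA.grp fun i => v (N.x i) := NFA.mem_grp.2 ⟨_, hvD f hf⟩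
      rcases abs_choice (v f) with h2 | h2
      · rw [h2]; exact h1
      · rw [h2]; exact (NFA.grp _).neg_mem h1)
  choose c hc using fun i => NFA.mem_grp.1 (hu.mem i)
  obtain ⟨x', hx'⟩ : ∃ x' : Fin r → Ω, ∀ i, x' i = ∏ j, N.x j ^ c i j := ⟨_, fun _ => rfl⟩
  have hx'0 : ∀ i, x' i ≠ 0 := fun i => by rw [hx' i]; exact mon_ne N.x_ne _
  have hx'v : ∀ i, v (x' i) = u i := fun i => by rw [hx' i, val_mon v N.x_ne, ← hc i]
  have hx'κ : ∀ i, κ (x' i) = u i := fun i => by
    rw [hx' i, val_mon κ N.x_ne, hc i]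
    exact Finset.sum_congr rfl fun j _ => by rw [hκ3]
  have hmon : ∀ m k : Fin r → ℤ, ∑ j, (m j : ℝ) * u j = ∑ j, (k j : ℝ) * v (N.x j) →
      ∏ j, x' j ^ m j = ∏ j, N.x j ^ k j := by
    intro m k h
    refine mon_eq N.x_ne N.x_ind hx' ?_
    rw [← h]
    exact Finset.sum_congr rfl fun j _ => by rw [hx'v]
  -- the old parameters are monomials in the new ones
  have hdn : ∀ i, ∃ m : Fin r → ℕ, (∀ j, 0 < m j) ∧ N.x i = ∏ j, x' j ^ m j := by
    intro i
    obtain ⟨m, hm, h1⟩ := hu.cone _ (hSx i)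
    refine ⟨m, hm, ?_⟩
    have h2 := hmon (fun j => (m j : ℤ)) (Pi.single i 1) (by
      rw [Finset.sum_eq_single (f := fun j => ((Pi.single i (1 : ℤ) : Fin r → ℤ) j : ℝ) *
        v (N.x j)) i]
      · simp only [Int.cast_natCast, Pi.single_eq_same, Int.cast_one, one_mul]
        exact h1.symm
      · intro j _ hj
        simp [Pi.single_eq_of_ne hj]
      · simp)
    have h3 : ∏ j, N.x j ^ (Pi.single i (1 : ℤ) : Fin r → ℤ) j = N.x i := by
      rw [Finset.prod_eq_single i]
      · simp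
      · intro j _ hj
        simp [Pi.single_eq_of_ne hj]
      · simp
    rw [h3] at h2
    rw [← h2]
    exact Finset.prod_congr rfl fun j _ => zpow_natCast _ _
  set A : Subalgebra Λ Ω := Algebra.adjoin Λ ((N.R : Set Ω) ∪ Set.range x') with hA
  have hNA : N.R ≤ A := fun f hf => Algebra.subset_adjoin (Or.inl hf)
  have hxA : ∀ i, x' i ∈ A := fun i => Algebra.subset_adjoin (Or.inr ⟨i, rfl⟩)
  have hAnon : ∀ f ∈ A, v.Ge 0 f := by
    intro f hf
    induction hf using Algebra.adjoin_induction with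
    | mem x hx =>
      rcases hx with hx | ⟨i, rfl⟩
      · exact N.nonneg x hx
      · intro _
        rw [hx'v]; exact (hu.pos i).le
    | algebraMap c => exact N.nonneg _ (N.R.algebraMap_mem c)
    | add x y _ _ hx hy => exact hx.add hy
    | mul x y _ _ hx hy => simpa using hx.mul hy
  have hnon : ∀ f ∈ locv v A, v.Ge 0 f := locv_nonneg hAnon
  have i0 : Fin r := ⟨0, hr⟩
  -- the ideal
  let I : Ω → Prop := fun f => ∃ a : Fin r → Ω, (∀ i, a i ∈ locv v A) ∧ ∃ b ∈ locv v A,
    f = ∑ i, x' i * a i + N.y * b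
  have hIadd : ∀ f g, I f → I g → I (f + g) := by
    rintro f g ⟨a, ha, b, hb, rfl⟩ ⟨a', ha', b', hb', rfl⟩
    refine ⟨fun i => a i + a' i, fun i => Subalgebra.add_mem _ (ha i) (ha' i), b + b',
      Subalgebra.add_mem _ hb hb', ?_⟩
    simp only [mul_add, Finset.sum_add_distrib]
    ring
  have hImul : ∀ f g, I f → g ∈ locv v A → I (f * g) := by
    rintro f g ⟨a, ha, b, hb, rfl⟩ hg
    refine ⟨fun i => a i * g, fun i => Subalgebra.mul_mem _ (ha i) hg, b * g,
      Subalgebra.mul_mem _ hb hg, ?_⟩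
    rw [add_mul, Finset.sum_mul]
    simp only [mul_assoc]
  have hIx : ∀ i, I (x' i) := fun i => ⟨Pi.single i 1, fun j => by
      by_cases hj : j = i
      · subst hj; rw [Pi.single_eq_same]; exact Subalgebra.one_mem _
      · rw [Pi.single_eq_of_ne hj]; exact Subalgebra.zero_mem _, 0, Subalgebra.zero_mem _, by
      simp [Pi.single_apply]⟩
  have hyA : N.y ∈ A := hNA N.y_mem
  have hIy : I N.y := ⟨0, fun _ => Subalgebra.zero_mem _, 1, Subalgebra.one_mem _, by simp⟩
  have hI0 : I 0 := ⟨0, fun _ => Subalgebra.zero_mem _, 0, Subalgebra.zero_mem _, by simp⟩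
  have hINx : ∀ i, I (N.x i) := by
    intro i
    obtain ⟨m, hm, h1⟩ := hdn i
    rw [h1, ← Finset.mul_prod_erase Finset.univ _ (Finset.mem_univ i0)]
    have h2 : x' i0 ^ m i0 = x' i0 * x' i0 ^ (m i0 - 1) := by
      rw [← pow_succ']
      congr 1
      have := hm i0
      omega
    rw [h2, mul_assoc]
    refine hImul _ _ (hIx i0) (le_locv _ ?_)
    exact A.mul_mem (A.pow_mem (hxA _) _) (A.prod_mem fun j _ => A.pow_mem (hxA j) _)
  have hIpos : ∀ f, I f → VPos v f := by
    rintro f ⟨a, ha, b, hb, rfl⟩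
    refine VPos.add ?_ (VPos.mul (fun _ => N.y_pos) (hnon b hb))
    have h1 : ∀ s : Finset (Fin r), VPos v (∑ i ∈ s, x' i * a i) := by
      intro s
      induction s using Finset.induction_on with
      | empty => simpa using VPos.zero
      | insert i s hi ih =>
        rw [Finset.sum_insert hi]
        exact VPos.add (VPos.mul (fun _ => by rw [hx'v]; exact hu.pos i) (hnon _ (ha i))) ih
    exact h1 _
  -- every element of `A` is an element of `N.R` plus an element of the ideal
  have hAI : ∀ f ∈ A, ∃ f0 ∈ N.R, I (f - f0) := by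
    intro f hf
    induction hf using Algebra.adjoin_induction with
    | mem f hf =>
      rcases hf with hf | ⟨i, rfl⟩
      · exact ⟨f, hf, by rw [sub_self]; exact hI0⟩
      · exact ⟨0, N.R.zero_mem, by rw [sub_zero]; exact hIx i⟩
    | algebraMap c => exact ⟨_, N.R.algebraMap_mem c, by rw [sub_self]; exact hI0⟩
    | add f g _ _ hf hg =>
      obtain ⟨f0, hf0, h1⟩ := hf
      obtain ⟨g0, hg0, h2⟩ := hg
      refine ⟨f0 + g0, N.R.add_mem hf0 hg0, ?_⟩
      have := hIadd _ _ h1 h2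
      convert this using 1
      ring
    | mul f g hfA hgA hf hg =>
      obtain ⟨f0, hf0, h1⟩ := hf
      obtain ⟨g0, hg0, h2⟩ := hg
      refine ⟨f0 * g0, N.R.mul_mem hf0 hg0, ?_⟩
      have h3 := hImul _ g h1 (le_locv _ hgA)
      have h4 := hImul _ f0 h2 (le_locv _ (hNA hf0))
      have := hIadd _ _ h3 h4
      convert this using 1
      ring
  have hgen : ∀ f ∈ locv v A, VPos v f → I f := by
    rintro f hf hfp
    obtain ⟨P, hP, Q, hQ, hQ0, hvQ, rfl⟩ := hf
    obtain ⟨P0, hP0, h1⟩ := hAI P hP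
    have hPp : VPos v P := by
      intro hP0
      have h1 := hfp (div_ne_zero hP0 hQ0)
      rwa [v.map_div hP0 hQ0, hvQ, sub_zero] at h1
    have hP0p : VPos v P0 := by
      have h2 := hPp.sub (hIpos _ h1)
      rwa [sub_sub_cancel] at h2
    obtain ⟨a, ha, b, hb, h2⟩ := N.gen P0 hP0 hP0p
    have h3 : I P0 := by
      rw [h2]
      refine hIadd _ _ ?_ (hImul _ _ hIy (le_locv _ (hNA hb)))
      have h4 : ∀ s : Finset (Fin r), I (∑ i ∈ s, N.x i * a i) := by
        intro s
        induction s using Finset.induction_on with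
        | empty => simpa using hI0
        | insert i s hi ih =>
          rw [Finset.sum_insert hi]
          exact hIadd _ _ (hImul _ _ (hINx i) (le_locv _ (hNA (ha i)))) ih
      exact h4 _
    have h5 := hIadd _ _ h1 h3
    rw [sub_add_cancel] at h5
    rw [div_eq_mul_inv]
    exact hImul _ _ h5 (locv_inv (le_locv _ hQ) hQ0 hvQ)
  obtain ⟨F, hF⟩ := N.fgen
  have hfg : ∃ F : Finset Ω, locv v A = locv v (Algebra.adjoin Λ (F : Set Ω)) := by
    refine ⟨F ∪ Finset.univ.image x', le_antisymm ?_ ?_⟩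
    · refine locv_le (Algebra.adjoin_le ?_) fun f hf h0 h1 => locv_inv hf h0 h1
      rintro f (hf | ⟨i, rfl⟩)
      · rw [SetLike.mem_coe, hF] at hf
        refine locv_mono (Algebra.adjoin_mono ?_) hf
        rw [Finset.coe_union]
        exact Set.subset_union_left
      · refine le_locv _ (Algebra.subset_adjoin ?_)
        rw [Finset.mem_coe, Finset.mem_union]
        exact Or.inr (Finset.mem_image_of_mem _ (Finset.mem_univ i))
    · refine locv_mono (Algebra.adjoin_le ?_)
      intro f hf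
      rw [Finset.mem_coe, Finset.mem_union] at hf
      rcases hf with hf | hf
      · refine hNA ?_
        rw [hF]
        exact le_locv _ (Algebra.subset_adjoin hf)
      · obtain ⟨i, -, rfl⟩ := Finset.mem_image.1 hf
        exact hxA i
  let N' : WN Λ v r :=
    { x := x', x_ne := hx'0
      x_pos := fun i => by rw [hx'v]; exact hu.pos i
      x_ind := by
        have h1 : (fun i => v (x' i)) = u := funext hx'v
        rw [h1]; exact hu.ind
      y := N.y, y_ne := N.y_ne, y_pos := N.y_pos, R := locv v A, nonneg := hnon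
      x_mem := fun i => le_locv _ (hxA i), y_mem := le_locv _ hyA
      fgen := hfg, gen := hgen }
  refine ⟨N', ⟨rfl, fun i => ⟨c i, hx' i⟩, fun i => ?_, rfl⟩,
    ⟨κ, ?_, hκ2, fun i => ?_⟩, fun f hf => ?_⟩
  · obtain ⟨m, -, h1⟩ := hdn i
    exact ⟨m, h1⟩
  · refine WNK.near_locv N.nonneg hκ1 hloc ?_
    rintro t (ht | ⟨i, rfl⟩)
    · exact WNK.near_mem N.nonneg hκ1 ht
    · refine ⟨fun _ => ?_, fun _ => ?_, 0, N.R.zero_mem, fun _ => ?_, fun _ => ?_⟩
      · rw [hx'v]; exact (hu.pos i).le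
      · rw [hx'κ]; exact (hu.pos i).le
      · rw [sub_zero, hx'v]; exact hu.pos i
      · rw [sub_zero, hx'κ]; exact hu.pos i
  · change κ (x' i) = v (x' i)
    rw [hx'v, hx'κ]
  · obtain ⟨h1, h2, h3, h4⟩ := hw f hf
    have key : ∀ m : Fin r → ℤ, ∑ j, (m j : ℝ) * u j = v f →
        f = (∏ j, x' j ^ m j) * w f := by
      intro m hm
      rw [hmon m (n f) (by rw [hm]; exact hvD f hf)]
      exact h4
    have hwR : w f ∈ locv v A := le_locv _ (hNA h1)
    have hwR' : (w f)⁻¹ ∈ locv v A := le_locv _ (hNA (hloc _ h1 h2 h3))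
    rcases lt_trichotomy (v f) 0 with h5 | h5 | h5
    · obtain ⟨m, hm, h6⟩ := hu.cone _ (hSD f hf h5.ne)
      refine ⟨fun j => -(m j : ℤ), w f, h2, hwR, hwR', key _ ?_, fun h => ?_, fun _ i => ?_,
        fun h => ?_⟩
      · rw [abs_of_neg h5] at h6
        have h7 : v f = -∑ i, (m i : ℝ) * u i := by linarith
        rw [h7, ← Finset.sum_neg_distrib]
        refine Finset.sum_congr rfl fun j _ => ?_
        push_cast
        ring
      · exact absurd h (not_lt.2 h5.le)
      · have := hm i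
        change -(m i : ℤ) < 0
        omega
      · exact absurd h h5.ne
    · refine ⟨fun _ => 0, w f, h2, hwR, hwR', key _ ?_, fun h => ?_, fun h => ?_,
        fun _ _ => rfl⟩
      · simp [h5]
      · exact absurd h5 h.ne'
      · exact absurd h5 h.ne
    · obtain ⟨m, hm, h6⟩ := hu.cone _ (hSD f hf h5.ne')
      refine ⟨fun j => (m j : ℤ), w f, h2, hwR, hwR', key _ ?_, fun _ i => ?_, fun h => ?_,
        fun h => ?_⟩
      · rw [abs_of_pos h5] at h6
        rw [h6]
        exact Finset.sum_congr rfl fun j _ => by push_cast; rfl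
      · have := hm i
        change 0 < (m i : ℤ)
        omega
      · exact absurd h (not_lt.2 h5.le)
      · exact absurd h h5.ne'

end Pool.Agent.LUD
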