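import Pool.Agent.Lib.LUD.A1
import Pool.Agent.Lib.LUM.C02
import Pool.Agent.Lib.LU2_h15z.Normal

/-! # Row B1: the ring of a weak frame with `Kap` is regular and integrally closed

Recipe. `isRegular`: `WN.isNoetherian`, `WN.isLocalRing`, `WN.dim` (LUM/C02.lean) and
`IsRegularLocalRing.of_spanFinrank_maximalIdeal_le`: the maximal ideal is generated by the `r + 1`
elements `x_i`, `y` (see `WN.dim` in LUM/C02.lean, `NF.regular2` and `spanFinrank_le` in
LU2_base/Reg.lean and its imports).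
`normal`: word for word `NF.normal2` in LU2_h15z/Normal.lean, with `LU2Z.cic_of_regular (r + 1)`.
-/

set_option autoImplicit false

open Polynomial

namespace Pool.Agent.LUD

open Pool.Agent.LUM
open Pool.Agent.H15JM (RVal)
open Pool.Agent.LU1 (VPos val_add_vpos adj Ev)

universe u

variable {Λ Ω : Type u} [CommRing Λ] [IsDomain Λ] [IsDiscreteValuationRing Λ] [Field Ω]
  [Algebra Λ Ω] {ϖ : Λ} {v : RVal Ω} {r : ℕ}

private theorem spanFinrank_le (N : WN Λ v r) [IsLocalRing N.R] :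
    (IsLocalRing.maximalIdeal N.R).spanFinrank ≤ r + 1 := by
  have hmem : ∀ z : N.R, z ∈ IsLocalRing.maximalIdeal N.R ↔ VPos v (z : Ω) := by
    intro z
    rw [IsLocalRing.mem_maximalIdeal, mem_nonunits_iff, N.not_isUnit_iff]
  let X : Fin r → N.R := fun i => ⟨N.x i, N.x_mem i⟩
  let Y : N.R := ⟨N.y, N.y_mem⟩
  let g : Option (Fin r) → N.R := fun o => o.elim Y X
  have hsp : IsLocalRing.maximalIdeal N.R = Ideal.span (Set.range g) := by
    apply le_antisymm
    · intro z hz
      obtain ⟨a, ha, b, hb, hab⟩ := N.gen z z.2 ((hmem z).1 hz)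
      have h5 : z = ∑ i, X i * ⟨a i, ha i⟩ + Y * ⟨b, hb⟩ := by
        apply Subtype.ext
        rw [Subalgebra.coe_add, Subalgebra.coe_mul, AddSubmonoidClass.coe_finsetSum]
        exact hab
      rw [h5]
      refine Ideal.add_mem _ (Ideal.sum_mem _ fun i _ => ?_) ?_
      · exact Ideal.mul_mem_right _ _ (Ideal.subset_span ⟨some i, rfl⟩)
      · exact Ideal.mul_mem_right _ _ (Ideal.subset_span ⟨none, rfl⟩)
    · rw [Ideal.span_le]
      rintro _ ⟨o, rfl⟩
      rw [SetLike.mem_coe, hmem]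
      cases o with
      | none => exact fun _ => N.y_pos
      | some i => exact fun _ => N.x_pos i
  rw [hsp]
  refine (Submodule.spanFinrank_span_le_ncard_of_finite (Set.finite_range _)).trans ?_
  rw [← Set.image_univ]
  refine (Set.ncard_image_le Set.finite_univ).trans ?_
  rw [Set.ncard_univ]
  simp

theorem isRegular (h : Ctx0 ϖ v r) (N : WN Λ v r) (hK : N.Kap) : IsRegularLocalRing N.R := by
  have h1 := N.isNoetherian
  have h2 := N.isLocalRing
  apply IsRegularLocalRing.of_spanFinrank_maximalIdeal_le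
  rw [N.dim h hK]
  exact_mod_cast spanFinrank_le N

theorem normal (h : Ctx0 ϖ v r) (N : WN Λ v r) (hK : N.Kap) {f : Ω} (hf : IsIntegral N.R f)
    (hq : Quo N.R f) : f ∈ N.R := by
  obtain ⟨a, ha, b, hb, hb0, hfab⟩ := hq
  have hreg := isRegular h N hK
  have hcic := LU2Z.cic_of_regular (r + 1) N.R (N.dim h hK)
  have hb1 : (⟨b, hb⟩ : N.R) ≠ 0 := fun h0 => hb0 (congrArg Subtype.val h0)
  have hal := hf.isAlmostIntegral_of_exists_smul_mem_range
    ⟨⟨b, hb⟩, mem_nonZeroDivisors_of_ne_zero hb1, ⟨⟨a, ha⟩, by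
      rw [hfab, Algebra.smul_def]
      change a = b * (a / b)
      rw [mul_div_cancel₀ _ hb0]⟩⟩
  obtain ⟨e, he, hl⟩ := hal
  obtain ⟨c, hc⟩ := hcic ⟨a, ha⟩ ⟨b, hb⟩ e hb1 (nonZeroDivisors.ne_zero he) fun l => by
    obtain ⟨q, hq⟩ := hl l
    refine ⟨q, Subtype.ext ?_⟩
    have h1 : (q : Ω) = (e : Ω) * f ^ l := by
      rw [Algebra.smul_def] at hq
      exact hq
    push_cast
    rw [h1, hfab, div_pow]
    field_simp
  have h2 : a = b * (c : Ω) := congrArg Subtype.val hc
  rw [hfab, h2, mul_div_cancel_left₀ _ hb0]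
  exact c.2

end Pool.Agent.LUD
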