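import Pool.Agent.Lib.LUD.B1

/-! # Row B2: an element a power of which is a monomial is a monomial

Recipe. (1) `x_i` is a prime element of `N.R`: `N.R / (x_i)` is a regular local ring, hence a domain:
`Pool.Agent.BEH5.Reg.quot_regular`, `Pool.Agent.BEH5.Reg.isDomain_of_regular` (MP_d9447e_al_helper1/Reg.lean,
used in LU2_h15z/Normal.lean, `cic_of_regular`); one needs `x_i ∉ m ^ 2`: otherwise `m` is generated
by the other `r` parameters (Nakayama), but the dimension is `r + 1` (`WN.dim`).
(2) `x_i` does not divide `x_j`, `j ≠ i` (same reason: `m` would be generated by `r` elements), nor a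
unit.
(3) Let `g ^ n = (∏ x_i ^ k_i) w`.  Multiply `g` by a monomial: `k_i ≥ 0`.  Then `g ^ n ∈ N.R`, so
`g` is integral over `N.R`, in its field of fractions, so `g ∈ N.R` (`normal`).  Induction on
`∑ k_i`: if it is zero, `g` is a unit; otherwise some `k_i > 0`, `x_i ∣ g ^ n`, `x_i ∣ g` (prime),
`g = x_i g'`, `x_i ^ n g' ^ n = (∏ x_j ^ k_j) w`; if `k_i < n` then `x_i` divides
`(∏_{j ≠ i} x_j ^ k_j) w`, impossible by (1), (2); so `k_i ≥ n` and `g' ^ n` is the monomial with
`k_i - n`.
-/

set_option autoImplicit false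

open Polynomial

namespace Pool.Agent.LUD

open Pool.Agent.LUM
open Pool.Agent.H15JM (RVal)
open Pool.Agent.LU1 (VPos val_add_vpos adj Ev)

universe u

variable {Λ Ω : Type u} [CommRing Λ] [IsDomain Λ] [IsDiscreteValuationRing Λ] [Field Ω]
  [Algebra Λ Ω] {ϖ : Λ} {v : RVal Ω} {r : ℕ}

private theorem pow_aux {R : Type u} [CommRing R] [IsDomain R] {r : ℕ} (X : Fin r → R)
    (hp : ∀ i, Prime (X i)) (hd : ∀ i j, i ≠ j → ¬ X i ∣ X j) {n : ℕ} (hn : 0 < n) :
    ∀ (s : ℕ) (k : Fin r → ℕ), ∑ i, k i = s → ∀ g w : R, IsUnit w →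
      g ^ n = (∏ i, X i ^ k i) * w →
      ∃ (l : Fin r → ℕ) (w' : R), IsUnit w' ∧ g = (∏ i, X i ^ l i) * w' := by
  classical
  intro s
  induction s using Nat.strong_induction_on with
  | _ s ih =>
    intro k hk g w hw hg
    by_cases h0 : ∀ i, k i = 0
    · refine ⟨fun _ => 0, g, ?_, by simp⟩
      have h1 : g ^ n = w := by
        rw [hg]
        simp [h0]
      rw [← h1] at hw
      exact (isUnit_pow_iff hn.ne').1 hw
    · push Not at h0
      obtain ⟨i, hi⟩ := h0
      have hsplit : ∏ j, X j ^ k j = X i ^ k i * ∏ j ∈ Finset.univ.erase i, X j ^ k j :=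
        (Finset.mul_prod_erase Finset.univ (fun j => X j ^ k j) (Finset.mem_univ i)).symm
      have hdv : X i ∣ g := by
        apply (hp i).dvd_of_dvd_pow (n := n)
        rw [hg, hsplit]
        exact Dvd.dvd.mul_right (Dvd.dvd.mul_right (dvd_pow_self _ hi) _) _
      obtain ⟨g', rfl⟩ := hdv
      have hX0 : X i ≠ 0 := (hp i).ne_zero
      have hrest : ¬ X i ∣ (∏ j ∈ Finset.univ.erase i, X j ^ k j) * w := by
        intro hcon
        rcases (hp i).dvd_or_dvd hcon with h1 | h1
        · obtain ⟨j, hj, hj2⟩ := (hp i).exists_mem_finset_dvd h1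
          exact hd i j (Finset.ne_of_mem_erase hj).symm ((hp i).dvd_of_dvd_pow hj2)
        · exact (hp i).not_isUnit (isUnit_of_dvd_unit h1 hw)
      have hki : n ≤ k i := by
        by_contra hcon
        push Not at hcon
        apply hrest
        have h1 : X i ^ k i * (X i ^ (n - k i) * g' ^ n)
            = X i ^ k i * ((∏ j ∈ Finset.univ.erase i, X j ^ k j) * w) := by
          rw [← mul_assoc, ← pow_add, Nat.add_sub_cancel' hcon.le, ← mul_pow, hg, hsplit,
            mul_assoc]
        have h2 := mul_left_cancel₀ (pow_ne_zero _ hX0) h1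
        rw [← h2]
        exact Dvd.dvd.mul_right (dvd_pow_self _ (by omega)) _
      have hk' : ∑ j, Function.update k i (k i - n) j < s := by
        rw [Finset.sum_update_of_mem (Finset.mem_univ i), ← hk,
          ← Finset.add_sum_erase Finset.univ k (Finset.mem_univ i), Finset.sdiff_singleton_eq_erase]
        omega
      have hg' : g' ^ n = (∏ j, X j ^ Function.update k i (k i - n) j) * w := by
        have h1 : X i ^ n * g' ^ n
            = X i ^ n * ((∏ j, X j ^ Function.update k i (k i - n) j) * w) := by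
          have h2 : ∏ j, X j ^ Function.update k i (k i - n) j
              = X i ^ (k i - n) * ∏ j ∈ Finset.univ.erase i, X j ^ k j := by
            rw [← Finset.mul_prod_erase Finset.univ _ (Finset.mem_univ i)]
            congr 1
            · rw [Function.update_self]
            · refine Finset.prod_congr rfl fun j hj => ?_
              rw [Function.update_of_ne (Finset.ne_of_mem_erase hj)]
          rw [h2, ← mul_pow, hg, hsplit, ← mul_assoc, ← mul_assoc, ← pow_add,
            Nat.add_sub_cancel' hki]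
        exact mul_left_cancel₀ (pow_ne_zero _ hX0) h1
      obtain ⟨l, w', hw', hl⟩ := ih _ hk' _ rfl g' w hw hg'
      refine ⟨Function.update l i (l i + 1), w', hw', ?_⟩
      have h2 : ∏ j, X j ^ Function.update l i (l i + 1) j = X i * ∏ j, X j ^ l j := by
        rw [← Finset.mul_prod_erase Finset.univ _ (Finset.mem_univ i),
          ← Finset.mul_prod_erase Finset.univ (fun j => X j ^ l j) (Finset.mem_univ i),
          Function.update_self, pow_succ', mul_assoc]
        congr 2
        refine Finset.prod_congr rfl fun j hj => ?_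
        rw [Function.update_of_ne (Finset.ne_of_mem_erase hj)]
      rw [h2, hl, mul_assoc]

open Classical in
private theorem notMem_aux (h : Ctx0 ϖ v r) (N : WN Λ v r) (hK : N.Kap) [IsLocalRing N.R]
    (i : Fin r) :
    (⟨N.x i, N.x_mem i⟩ : N.R) ∉ Ideal.span
      ((insert (⟨N.y, N.y_mem⟩ : N.R)
        ((Finset.univ.erase i).image fun j => (⟨N.x j, N.x_mem j⟩ : N.R)) : Finset N.R) : Set N.R)
        ⊔ IsLocalRing.maximalIdeal N.R ^ 2 := by
  intro hcon
  have hreg := isRegular h N hK
  have hdim := N.dim h hK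
  have hN := N.isNoetherian
  have hmem : ∀ z : N.R, z ∈ IsLocalRing.maximalIdeal N.R ↔ VPos v (z : Ω) := by
    intro z
    rw [IsLocalRing.mem_maximalIdeal, mem_nonunits_iff, N.not_isUnit_iff]
  set S : Finset N.R := insert (⟨N.y, N.y_mem⟩ : N.R)
        ((Finset.univ.erase i).image fun j => (⟨N.x j, N.x_mem j⟩ : N.R)) with hS
  have hle : IsLocalRing.maximalIdeal N.R ≤ Ideal.span (S : Set N.R)
      ⊔ IsLocalRing.maximalIdeal N.R • IsLocalRing.maximalIdeal N.R := by
    rw [smul_eq_mul, ← pow_two]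
    intro z hz
    obtain ⟨a, ha, b, hb, hab⟩ := N.gen z z.2 ((hmem z).1 hz)
    have h5 : z = ∑ j, (⟨N.x j, N.x_mem j⟩ : N.R) * ⟨a j, ha j⟩
        + (⟨N.y, N.y_mem⟩ : N.R) * ⟨b, hb⟩ := by
      apply Subtype.ext
      rw [Subalgebra.coe_add, Subalgebra.coe_mul, AddSubmonoidClass.coe_finsetSum]
      exact hab
    rw [h5]
    refine Ideal.add_mem _ (Ideal.sum_mem _ fun j _ => ?_) ?_
    · by_cases hj : j = i
      · rw [hj]
        exact Ideal.mul_mem_right _ _ hcon
      · refine Ideal.mul_mem_right _ _ (Ideal.mem_sup_left (Ideal.subset_span ?_))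
        rw [Finset.mem_coe, hS, Finset.mem_insert, Finset.mem_image]
        exact Or.inr ⟨j, Finset.mem_erase.2 ⟨hj, Finset.mem_univ j⟩, rfl⟩
    · refine Ideal.mul_mem_right _ _ (Ideal.mem_sup_left (Ideal.subset_span ?_))
      rw [Finset.mem_coe, hS, Finset.mem_insert]
      exact Or.inl rfl
  have hle2 : IsLocalRing.maximalIdeal N.R ≤ Ideal.span (S : Set N.R) :=
    Submodule.le_of_le_smul_of_le_jacobson_bot (IsNoetherian.noetherian _)
      (IsLocalRing.jacobson_eq_maximalIdeal _ bot_ne_top).ge hle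
  have heq : IsLocalRing.maximalIdeal N.R = Ideal.span (S : Set N.R) := by
    apply le_antisymm hle2
    rw [Ideal.span_le]
    intro z hz
    rw [Finset.mem_coe, hS, Finset.mem_insert, Finset.mem_image] at hz
    rw [SetLike.mem_coe, hmem]
    rcases hz with rfl | ⟨j, -, rfl⟩
    · exact fun _ => N.y_pos
    · exact fun _ => N.x_pos j
  have hcard : S.card ≤ r := by
    have h1 : S.card ≤ ((Finset.univ.erase i).image
        fun j => (⟨N.x j, N.x_mem j⟩ : N.R)).card + 1 := Finset.card_insert_le _ _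
    have h2 := Finset.card_image_le (s := Finset.univ.erase i)
      (f := fun j => (⟨N.x j, N.x_mem j⟩ : N.R))
    rw [Finset.card_erase_of_mem (Finset.mem_univ i), Finset.card_univ, Fintype.card_fin] at h2
    have h3 : 0 < r := i.pos
    omega
  have h4 := IsRegularLocalRing.spanFinrank_maximalIdeal (R := N.R)
  rw [hdim] at h4
  have h5 : (IsLocalRing.maximalIdeal N.R).spanFinrank = r + 1 := by exact_mod_cast h4
  have h6 : (IsLocalRing.maximalIdeal N.R).spanFinrank ≤ S.card := by
    rw [heq]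
    have h7 := Submodule.spanFinrank_span_le_ncard_of_finite (R := N.R) (M := N.R)
      (S.finite_toSet)
    rwa [Set.ncard_coe_finset] at h7
  omega

theorem mn_of_pow (h : Ctx0 ϖ v r) (N : WN Λ v r) (hK : N.Kap) {g : Ω} (hq : Quo N.R g) {n : ℕ}
    (hn : 0 < n) (hg : Mn N (g ^ n)) : Mn N g := by
  classical
  have hN := N.isNoetherian
  have hL := N.isLocalRing
  have hreg := isRegular h N hK
  have hdim := N.dim h hK
  let X : Fin r → N.R := fun i => ⟨N.x i, N.x_mem i⟩
  have hprime : ∀ i, Prime (X i) := by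
    intro i
    have hm : X i ∈ IsLocalRing.maximalIdeal N.R := by
      rw [IsLocalRing.mem_maximalIdeal, mem_nonunits_iff, N.not_isUnit_iff]
      exact fun _ => N.x_pos i
    have hm2 : X i ∉ (IsLocalRing.maximalIdeal N.R) ^ 2 := fun hcon =>
      notMem_aux h N hK i (Ideal.mem_sup_right hcon)
    obtain ⟨hreg1, hdim1⟩ := Pool.Agent.BEH5.Reg.quot_regular hdim hm hm2
    have hdom := Pool.Agent.BEH5.Reg.isDomain_of_regular r (N.R ⧸ Ideal.span {X i}) hdim1
    have h1 : (Ideal.span {X i}).IsPrime := (Ideal.Quotient.isDomain_iff_prime _).1 hdom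
    have h2 : X i ≠ 0 := fun h0 => N.x_ne i (congrArg Subtype.val h0)
    exact (Ideal.span_singleton_prime h2).1 h1
  have hdvd : ∀ i j, i ≠ j → ¬ X i ∣ X j := by
    intro i j hij hcon
    refine notMem_aux h N hK j (Ideal.mem_sup_left ?_)
    obtain ⟨c, hc⟩ := hcon
    have h1 : X j ∈ Ideal.span ((insert (⟨N.y, N.y_mem⟩ : N.R)
        ((Finset.univ.erase j).image fun j => (⟨N.x j, N.x_mem j⟩ : N.R)) : Finset N.R)
          : Set N.R) := by
      rw [hc]
      refine Ideal.mul_mem_right _ _ (Ideal.subset_span ?_)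
      rw [Finset.mem_coe, Finset.mem_insert, Finset.mem_image]
      exact Or.inr ⟨i, Finset.mem_erase.2 ⟨hij, Finset.mem_univ i⟩, rfl⟩
    exact h1
  obtain ⟨k, w, hw, hw0, hwv, hgk⟩ := hg
  obtain ⟨a, ha, b, hb, hb0, hab⟩ := hq
  have hxne : ∀ i, N.x i ≠ 0 := N.x_ne
  set P : Ω := ∏ i, N.x i ^ (k i).natAbs with hP
  have hPR : P ∈ N.R := Subalgebra.prod_mem _ fun i _ => Subalgebra.pow_mem _ (N.x_mem i) _
  have hP0 : P ≠ 0 := Finset.prod_ne_zero_iff.2 fun i _ => pow_ne_zero _ (hxne i)
  have hpow : (g * P) ^ n = (∏ i, N.x i ^ (k i + n * (k i).natAbs).toNat) * w := by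
    rw [mul_pow, hgk, hP, ← Finset.prod_pow, mul_right_comm, ← Finset.prod_mul_distrib]
    congr 1
    refine Finset.prod_congr rfl fun i _ => ?_
    rw [← pow_mul, ← zpow_natCast, ← zpow_natCast, ← zpow_add₀ (hxne i)]
    congr 1
    rw [Int.toNat_of_nonneg]
    · push_cast
      ring
    · have h1 : (1 : ℤ) ≤ n := by exact_mod_cast hn
      have h2 : (0 : ℤ) ≤ ((k i).natAbs : ℤ) := Int.natCast_nonneg _
      have h3 : -((k i).natAbs : ℤ) ≤ k i := by
        rw [Int.natCast_natAbs]
        exact neg_abs_le _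
      nlinarith
  have hpowR : (g * P) ^ n ∈ N.R := by
    rw [hpow]
    exact N.R.mul_mem (Subalgebra.prod_mem _ fun i _ => Subalgebra.pow_mem _ (N.x_mem i) _) hw
  have hint : IsIntegral N.R (g * P) := by
    apply IsIntegral.of_pow hn
    exact isIntegral_algebraMap (R := N.R) (x := (⟨(g * P) ^ n, hpowR⟩ : N.R))
  have hgP : g * P ∈ N.R := normal h N hK hint ⟨a * P, N.R.mul_mem ha hPR, b, hb, hb0, by
    rw [hab]
    ring⟩
  have hwu : IsUnit (⟨w, hw⟩ : N.R) := (N.isUnit_iff _).2 ⟨hw0, hwv⟩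
  obtain ⟨l, w', hw', hl⟩ := pow_aux X hprime hdvd hn _
    (fun i => (k i + n * (k i).natAbs).toNat) rfl (⟨g * P, hgP⟩ : N.R) ⟨w, hw⟩ hwu (by
      apply Subtype.ext
      push_cast
      rw [hpow]
      congr 1
      refine Finset.prod_congr rfl fun i _ => ?_
      rw [Int.natCast_natAbs])
  obtain ⟨hw'0, hw'v⟩ := (N.isUnit_iff _).1 hw'
  refine ⟨fun i => (l i : ℤ) - (k i).natAbs, w', w'.2, hw'0, hw'v, ?_⟩
  have h1 : g * P = (∏ i, N.x i ^ l i) * (w' : Ω) := by
    have h2 := congrArg Subtype.val hl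
    push_cast at h2
    exact h2
  have h2 : ∏ i, N.x i ^ ((l i : ℤ) - (k i).natAbs) = (∏ i, N.x i ^ l i) / P := by
    rw [hP, ← Finset.prod_div_distrib]
    refine Finset.prod_congr rfl fun i _ => ?_
    rw [zpow_sub₀ (hxne i), zpow_natCast, zpow_natCast]
  rw [h2, div_mul_eq_mul_div, ← h1, mul_div_cancel_right₀ _ hP0]

end Pool.Agent.LUD
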