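import Pool.Agent.Lib.LUD.B1
import Pool.Agent.Lib.LU2_h15z.ZeroA

/-! # Row B3: an equation with a unit coefficient

Recipe. Word for word `horner_rel`, `horner_integral` and `BF.mem_of_eqn` in LU2_h15z/ZeroA.lean
(the lemmas there are stated over a base field; copy them with the base ring `Λ`), with `normal`
of row B1 in place of `BF.normal2` and `N.loc` (LUM/Q01.lean) for inverses of units.
-/

set_option autoImplicit false
set_option linter.unusedSectionVars false

open Polynomial

namespace Pool.Agent.LUD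

open Pool.Agent.LUM
open Pool.Agent.H15JM (RVal)
open Pool.Agent.LU1 (VPos val_add_vpos adj Ev)

universe u

variable {Λ Ω : Type u} [CommRing Λ] [IsDomain Λ] [IsDiscreteValuationRing Λ] [Field Ω]
  [Algebra Λ Ω] {ϖ : Λ} {v : RVal Ω} {r : ℕ}

/-- Horner partial sums of an algebraic equation. -/
private def hor (c : ℕ → Ω) (n : ℕ) (f : Ω) : ℕ → Ω
  | 0 => c n
  | m + 1 => hor c n f m * f + c (n - (m + 1))

private theorem hor_rel (c : ℕ → Ω) (n : ℕ) (f : Ω)
    (h0 : ∑ i ∈ Finset.range (n + 1), c i * f ^ i = 0) (m : ℕ) (hm : m ≤ n) :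
    hor c n f m * f ^ (n - m) + ∑ i ∈ Finset.range (n - m), c i * f ^ i = 0 := by
  induction m with
  | zero =>
    rw [Nat.sub_zero]
    rw [Finset.sum_range_succ, add_comm] at h0
    exact h0
  | succ m ih =>
    have h1 := ih (Nat.le_of_succ_le hm)
    obtain ⟨s, hs⟩ : ∃ s, n - m = s + 1 := ⟨n - m - 1, by omega⟩
    have hs' : n - (m + 1) = s := by omega
    rw [hs, Finset.sum_range_succ] at h1
    change (hor c n f m * f + c (n - (m + 1))) * f ^ (n - (m + 1)) + _ = 0
    rw [hs']
    rw [← h1]; ring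

/-- The elements `b f` are integral. -/
private theorem hor_integral (R : Subalgebra Λ Ω) (c : ℕ → Ω) (n : ℕ) (f : Ω)
    (hc : ∀ i, i ≤ n → c i ∈ R) (h0 : ∑ i ∈ Finset.range (n + 1), c i * f ^ i = 0) (m : ℕ)
    (hm : m < n) (hb : hor c n f m ∈ R) : IsIntegral R (hor c n f m * f) := by
  classical
  have hrel := hor_rel c n f h0 m hm.le
  set b := hor c n f m with hbdef
  obtain ⟨s, hs⟩ : ∃ s, n - m = s + 1 := ⟨n - m - 1, by omega⟩
  rw [hs] at hrel
  have hmem : ∀ i, i ∈ Finset.range (s + 1) → c i * b ^ (s - i) ∈ R := fun i hi =>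
    R.mul_mem (hc i (by have := Finset.mem_range.1 hi; omega)) (R.pow_mem hb _)
  let Q0 : R[X] := ∑ i : Finset.range (s + 1), C ⟨c i * b ^ (s - i), hmem i i.2⟩ * X ^ (i : ℕ)
  refine ⟨X ^ (s + 1) + Q0, monic_X_pow_add ?_, ?_⟩
  · rw [Polynomial.degree_lt_iff_coeff_zero]
    intro l hl
    rw [Polynomial.finsetSum_coeff]
    refine Finset.sum_eq_zero fun i _ => ?_
    rw [Polynomial.coeff_C_mul, Polynomial.coeff_X_pow, if_neg, mul_zero]
    have := Finset.mem_range.1 i.2
    intro h1
    exact absurd (h1 ▸ hl) (not_le.2 this)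
  · rw [← Polynomial.aeval_def, map_add, map_pow, aeval_X, map_sum]
    have h1 : ∀ i : Finset.range (s + 1),
        aeval (b * f) (C (⟨c i * b ^ (s - i), hmem i i.2⟩ : R) * X ^ (i : ℕ)) =
          c i * b ^ (s - i) * (b * f) ^ (i : ℕ) := by
      intro i
      rw [map_mul, aeval_C, map_pow, aeval_X]
      rfl
    rw [Finset.sum_congr rfl fun i _ => h1 i]
    rw [Finset.sum_coe_sort (Finset.range (s + 1)) fun i => c i * b ^ (s - i) * (b * f) ^ i]
    have h2 : ∀ i ∈ Finset.range (s + 1), c i * b ^ (s - i) * (b * f) ^ i =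
        b ^ s * (c i * f ^ i) := by
      intro i hi
      have h3 : s = (s - i) + i := by have := Finset.mem_range.1 hi; omega
      conv_rhs => rw [h3, pow_add]
      rw [mul_pow]; ring
    rw [Finset.sum_congr rfl h2, ← Finset.mul_sum]
    have h3 : (b * f) ^ (s + 1) = b ^ s * (b * f ^ (s + 1)) := by
      rw [mul_pow, pow_succ b]; ring
    rw [h3, ← mul_add, hrel, mul_zero]

theorem mem_of_eqn (h : Ctx0 ϖ v r) (N : WN Λ v r) (hK : N.Kap) {f : Ω} (hf : v.Ge 0 f)
    (hq : Quo N.R f) (c : ℕ → Ω) (n j : ℕ) (hc : ∀ i, i ≤ n → c i ∈ N.R) (hjn : j ≤ n)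
    (hj : c j ≠ 0) (hj0 : v (c j) = 0) (hpos : ∀ i, j < i → i ≤ n → VPos v (c i))
    (h0 : ∑ i ∈ Finset.range (n + 1), c i * f ^ i = 0) : f ∈ N.R := by
  obtain ⟨a, ha, b, hb, hb0, hfab⟩ := hq
  have hfrac : ∀ g ∈ N.R, Quo N.R (g * f) := fun g hg =>
    ⟨g * a, N.R.mul_mem hg ha, b, hb, hb0, by rw [hfab]; ring⟩
  -- the partial sums
  have hmem : ∀ m, m ≤ n → hor c n f m ∈ N.R := by
    intro m
    induction m with
    | zero => exact fun _ => hc n le_rfl
    | succ m ih =>
      intro hm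
      have h1 := ih (Nat.le_of_succ_le hm)
      have h2 := normal h N hK (hor_integral N.R c n f hc h0 m hm h1) (hfrac _ h1)
      exact N.R.add_mem h2 (hc _ (Nat.sub_le _ _))
  have hval : ∀ m, m < n - j → VPos v (hor c n f m) := by
    intro m
    induction m with
    | zero => exact fun hm => hpos n (by omega) le_rfl
    | succ m ih =>
      intro hm
      exact ((ih (by omega)).mul hf).add (hpos _ (by omega) (by omega))
  have hun : hor c n f (n - j) ≠ 0 ∧ v (hor c n f (n - j)) = 0 := by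
    rcases Nat.eq_zero_or_pos (n - j) with h1 | h1
    · rw [h1]
      have : n = j := by omega
      subst this
      exact ⟨hj, hj0⟩
    · obtain ⟨s, hs⟩ : ∃ s, n - j = s + 1 := ⟨n - j - 1, by omega⟩
      rw [hs]
      have h3 : n - (s + 1) = j := by omega
      change hor c n f s * f + c (n - (s + 1)) ≠ 0 ∧ v (hor c n f s * f + c (n - (s + 1))) = 0
      rw [h3]
      rw [add_comm]
      exact val_add_vpos hj hj0 ((hval s (by omega)).mul hf)
  have hj1 : 0 < j := by
    by_contra h1
    have h2 : j = 0 := by omega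
    subst h2
    rw [Nat.sub_zero] at hun
    have h3 := hor_rel c n f h0 n le_rfl
    rw [Nat.sub_self, pow_zero, mul_one, Finset.sum_range_zero, add_zero] at h3
    exact hun.1 h3
  have h1 := hmem (n - j) (by omega)
  have h2 := normal h N hK (hor_integral N.R c n f hc h0 (n - j) (by omega) h1) (hfrac _ h1)
  have h3 : f = (hor c n f (n - j))⁻¹ * (hor c n f (n - j) * f) := by
    rw [← mul_assoc, inv_mul_cancel₀ hun.1, one_mul]
  rw [h3]
  exact N.R.mul_mem (N.loc h1 hun.1 hun.2) h2

end Pool.Agent.LUD
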