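import Pool.Agent.Lib.LUD.A2

/-! # Row C1: polynomials in monomials are monomials after a toric transform
-/

set_option autoImplicit false

open Polynomial

namespace Pool.Agent.LUD

open Pool.Agent.LUM
open Pool.Agent.H15JM (RVal)
open Pool.Agent.LU1 (VPos val_add_vpos adj Ev)

universe u

variable {Λ Ω : Type u} [CommRing Λ] [IsDomain Λ] [IsDiscreteValuationRing Λ] [Field Ω]
  [Algebra Λ Ω] {ϖ : Λ} {v : RVal Ω} {r : ℕ}

/-- The coefficients. -/
private theorem c1_coeff (h : Ctx0 ϖ v r) (N : WN Λ v r) (hϖ : Mn N (algebraMap Λ Ω ϖ)) {c : Λ}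
    (hc : c ≠ 0) : Mn N (algebraMap Λ Ω c) ∧
      ∃ k : ℕ, v (algebraMap Λ Ω c) = (k : ℝ) * v (algebraMap Λ Ω ϖ) := by
  obtain ⟨k, u, rfl⟩ := IsDiscreteValuationRing.eq_unit_mul_pow_irreducible hc h.irr
  have h1 := h.triv u.isUnit
  have h2 : Mn N (algebraMap Λ Ω (u : Λ)) := Mn.of_unit (N.R.algebraMap_mem _) h1.1 h1.2
  rw [map_mul, map_pow]
  refine ⟨h2.mul (hϖ.pow k), k, ?_⟩
  rw [v.map_mul h1.1 (pow_ne_zero _ h.pi_ne), h1.2, v.map_pow h.pi_ne, zero_add]

theorem mn_aeval (h : Ctx0 ϖ v r) (N : WN Λ v r) (hK : N.Kap)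
    (hϖ : Mn N (algebraMap Λ Ω ϖ)) {m : ℕ} {x : Fin m → Ω} (hx : ∀ i, Mn N (x i))
    (hind : LinearIndependent ℚ (cv ϖ v x)) (P : MvPolynomial (Fin m) Λ) (hP : P ≠ 0) :
    ∃ N' : WN Λ v r, Tor N N' ∧ N'.Kap ∧ Mn N' (MvPolynomial.aeval x P) := by
  classical
  obtain ⟨T, hT⟩ : ∃ T : (Fin m →₀ ℕ) → Ω, ∀ e, T e =
      algebraMap Λ Ω (P.coeff e) * ∏ i, x i ^ e i := ⟨_, fun _ => rfl⟩
  have hmon : ∀ e : Fin m →₀ ℕ, Mn N (∏ i, x i ^ e i) := fun e =>
    Mn.prod _ _ fun i _ => (hx i).pow _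
  have hTm : ∀ e ∈ P.support, Mn N (T e) := fun e he => by
    rw [hT]
    exact (c1_coeff h N hϖ (MvPolynomial.mem_support_iff.1 he)).1.mul (hmon e)
  have hTv : ∀ e ∈ P.support, ∃ k : ℕ, v (T e) = (k : ℝ) * v (algebraMap Λ Ω ϖ) +
      ∑ i, (e i : ℝ) * v (x i) := by
    intro e he
    obtain ⟨h1, k, hk⟩ := c1_coeff h N hϖ (MvPolynomial.mem_support_iff.1 he)
    refine ⟨k, ?_⟩
    rw [hT, v.map_mul h1.ne (hmon e).ne, hk, v.map_prod _ _ fun i _ => pow_ne_zero _ (hx i).ne]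
    congr 1
    exact Finset.sum_congr rfl fun i _ => v.map_pow (hx i).ne _
  have hinj : ∀ e ∈ P.support, ∀ e' ∈ P.support, v (T e) = v (T e') → e = e' := by
    intro e he e' he' hee
    obtain ⟨k, hk⟩ := hTv e he
    obtain ⟨k', hk'⟩ := hTv e' he'
    rw [hk, hk'] at hee
    have h1 : ∑ j, ((Fin.cons ((k : ℚ) - k') fun i => ((e i : ℚ) - (e' i : ℚ))) :
        Fin (m + 1) → ℚ) j • cv ϖ v x j = 0 := by
      rw [Fin.sum_univ_succ]
      simp only [Fin.cons_zero, Fin.cons_succ, cv, Rat.smul_def]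
      push_cast
      have h2 : ∑ i, ((e i : ℝ) - (e' i : ℝ)) * v (x i) =
          ∑ i, (e i : ℝ) * v (x i) - ∑ i, (e' i : ℝ) * v (x i) := by
        rw [← Finset.sum_sub_distrib]
        exact Finset.sum_congr rfl fun i _ => by ring
      rw [h2]
      linarith
    have h2 := Fintype.linearIndependent_iff.1 hind _ h1
    ext i
    have h3 := h2 i.succ
    rw [Fin.cons_succ] at h3
    have h4 : (e i : ℚ) = e' i := by linarith
    exact_mod_cast h4
  obtain ⟨e0, he0, hmin⟩ := P.support.exists_min_image (fun e => v (T e))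
    (MvPolynomial.support_nonempty.2 hP)
  have hT0 : T e0 ≠ 0 := (hTm e0 he0).ne
  obtain ⟨N', htor, hK', hN'⟩ := exists_tor h.rpos N hK
    ((P.support.erase e0).image fun e => T e / T e0) (by
      intro f hf
      obtain ⟨e, he, rfl⟩ := Finset.mem_image.1 hf
      exact (hTm e (Finset.mem_of_mem_erase he)).div (hTm e0 he0))
  refine ⟨N', htor, hK', ?_⟩
  have hev : MvPolynomial.aeval x P = T e0 * (1 + ∑ e ∈ P.support.erase e0, T e / T e0) := by
    rw [MvPolynomial.aeval_def, MvPolynomial.eval₂_eq', mul_add, mul_one, Finset.mul_sum,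
      ← Finset.add_sum_erase _ _ he0]
    congr 1
    · exact (hT e0).symm
    · refine Finset.sum_congr rfl fun e _ => ?_
      rw [mul_div_cancel₀ _ hT0]
      exact (hT e).symm
  have hpos : ∀ e ∈ P.support.erase e0, 0 < v (T e / T e0) := by
    intro e he
    have h1 := Finset.mem_erase.1 he
    have h2 : v (T e0) < v (T e) :=
      lt_of_le_of_ne (hmin e h1.2) fun h5 => h1.1 (hinj _ h1.2 _ he0 h5.symm)
    rw [v.map_div (hTm e h1.2).ne hT0]
    linarith
  have key : ∀ s : Finset (Fin m →₀ ℕ), s ⊆ P.support.erase e0 →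
      (∑ e ∈ s, T e / T e0) ∈ N'.R ∧ VPos v (∑ e ∈ s, T e / T e0) := by
    intro s
    induction s using Finset.induction_on with
    | empty =>
      intro _
      rw [Finset.sum_empty]
      exact ⟨N'.R.zero_mem, VPos.zero⟩
    | insert e s he ih =>
      intro hs
      obtain ⟨h1, h2⟩ := ih ((Finset.subset_insert _ _).trans hs)
      have h3 := hs (Finset.mem_insert_self e s)
      have h4 := hpos e h3
      rw [Finset.sum_insert he]
      refine ⟨N'.R.add_mem ((hN' _ (Finset.mem_image_of_mem _ h3)).mem h4.le) h1, ?_⟩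
      exact VPos.add (fun _ => h4) h2
  obtain ⟨h1, h2⟩ := key _ subset_rfl
  rw [hev]
  have h3 := val_add_vpos (f := (1 : Ω)) one_ne_zero v.map_one h2
  exact ((hTm e0 he0).tor htor).mul
    (Mn.of_unit (N'.R.add_mem N'.R.one_mem h1) h3.1 h3.2)

end Pool.Agent.LUD
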