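import Pool.Agent.Lib.LUD.B2
import Pool.Agent.Lib.LUD.B3
import Pool.Agent.Lib.LUD.C1

/-! # Row C2: algebraic elements are monomials after a toric transform

Recipe. As `BF.mem_of_algebraic` (LU2_h15z/ZeroA.lean) and `BF.mono_of_alg` (LU2_h15z/ZeroC.lean).
By `hspan` there are `n > 0` and integers with `n v(g) = m_0 v(ϖ) + ∑ m_i v(x_i)` (clear
denominators as in `Ctx2.exists_int`, LU2_h15z/ZeroC.lean).  Put `M := ϖ ^ m_0 ∏ x_i ^ m_i` (`Mn N`)
and `u := g ^ n / M`: `v u = 0`, `u` is in the field of fractions of `N.R` (`Quo`) and algebraic over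
`Λ[x]`.  Let `P` be an equation of `u` over `Λ[x]`; its coefficients are `MvPolynomial.aeval x (Q_i)`.
Applying row C1 successively (finitely many coefficients, `Mn.tor`, `Tor.trans`) we get `N₁` with
all non-zero coefficients `Mn N₁`; by `exists_tor` for all quotients of two of them we get `N₂` with
these `MonoPos`, so that after division by the coefficient of least value all coefficients are in
`N₂.R`; take for `j` the largest index with value zero and apply `mem_of_eqn`: `u ∈ N₂.R`, a unit.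
So `g ^ n = M u` is `Mn N₂` and `mn_of_pow` gives `Mn N₂ g`.
-/

set_option autoImplicit false

open Polynomial

namespace Pool.Agent.LUD

open Pool.Agent.LUM
open Pool.Agent.H15JM (RVal)
open Pool.Agent.LU1 (VPos val_add_vpos adj Ev)

universe u

variable {Λ Ω : Type u} [CommRing Λ] [IsDomain Λ] [IsDiscreteValuationRing Λ] [Field Ω]
  [Algebra Λ Ω] {ϖ : Λ} {v : RVal Ω} {r : ℕ}

omit [IsDomain Λ] [IsDiscreteValuationRing Λ] in
/-- Values are rational combinations of the values of `ϖ` and the `x_i`. -/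
theorem exists_int {m : ℕ} {x : Fin m → Ω}
    (hspan : ∀ g : Ω, g ≠ 0 → v g ∈ Submodule.span ℚ (Set.range (cv ϖ v x))) {g : Ω}
    (hg : g ≠ 0) :
    ∃ n : ℕ, 0 < n ∧ ∃ (m0 : ℤ) (k : Fin m → ℤ),
      (n : ℝ) * v g = (m0 : ℝ) * v (algebraMap Λ Ω ϖ) + ∑ i, (k i : ℝ) * v (x i) := by
  classical
  obtain ⟨c, hc⟩ := (Submodule.mem_span_range_iff_exists_fun ℚ).1 (hspan g hg)
  have key : ((∏ i, (c i).den : ℕ) : ℝ) * v g =
      ∑ i, (((c i).num * ∏ j ∈ Finset.univ.erase i, ((c j).den : ℤ) : ℤ) : ℝ) * cv ϖ v x i := by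
    rw [← hc, Finset.mul_sum]
    refine Finset.sum_congr rfl fun i _ => ?_
    rw [Rat.smul_def, ← Finset.mul_prod_erase _ _ (Finset.mem_univ i), ← mul_assoc]
    congr 1
    have h1 : ((c i).num : ℝ) = (c i : ℝ) * (c i).den := by
      exact_mod_cast (Rat.mul_den_eq_num (c i)).symm
    push_cast
    rw [h1]
    ring
  refine ⟨∏ i, (c i).den, Finset.prod_pos fun i _ => (c i).pos,
    (c 0).num * ∏ j ∈ Finset.univ.erase 0, ((c j).den : ℤ),
    fun i => (c i.succ).num * ∏ j ∈ Finset.univ.erase i.succ, ((c j).den : ℤ), ?_⟩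
  rw [key, Fin.sum_univ_succ]
  rfl

/-- Row C1 for finitely many polynomials. -/
theorem mn_aevals (h : Ctx0 ϖ v r) (N : WN Λ v r) (hK : N.Kap)
    (hϖ : Mn N (algebraMap Λ Ω ϖ)) {m : ℕ} {x : Fin m → Ω} (hx : ∀ i, Mn N (x i))
    (hind : LinearIndependent ℚ (cv ϖ v x)) (s : Finset (MvPolynomial (Fin m) Λ)) :
    (∀ P ∈ s, P ≠ 0) →
    ∃ N' : WN Λ v r, Tor N N' ∧ N'.Kap ∧ ∀ P ∈ s, Mn N' (MvPolynomial.aeval x P) := by
  classical
  induction s using Finset.induction_on with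
  | empty => exact fun _ => ⟨N, Tor.refl N, hK, fun P hP => absurd hP (Finset.notMem_empty _)⟩
  | insert P s hPs ih =>
    intro hs
    obtain ⟨N₁, hT, hK₁, hs₁⟩ := ih fun Q hQ => hs Q (Finset.mem_insert_of_mem hQ)
    obtain ⟨N₂, hT₂, hK₂, hP₂⟩ := mn_aeval h N₁ hK₁ (hϖ.tor hT) (fun i => (hx i).tor hT) hind P
      (hs P (Finset.mem_insert_self _ _))
    refine ⟨N₂, hT.trans hT₂, hK₂, fun Q hQ => ?_⟩
    rcases Finset.mem_insert.1 hQ with rfl | hQ
    · exact hP₂
    · exact (hs₁ Q hQ).tor hT₂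

/-- Elements of value zero that are algebraic over the monomials are in the ring of a toric
transform. -/
theorem mem_alg (h : Ctx0 ϖ v r) (N : WN Λ v r) (hK : N.Kap)
    (hϖ : Mn N (algebraMap Λ Ω ϖ)) {m : ℕ} {x : Fin m → Ω} (hx : ∀ i, Mn N (x i))
    (hind : LinearIndependent ℚ (cv ϖ v x)) {u : Ω} (hu : v.Ge 0 u) (hq : Quo N.R u)
    (halg : IsAlgebraic (Algebra.adjoin Λ (Set.range x)) u) :
    ∃ N' : WN Λ v r, Tor N N' ∧ N'.Kap ∧ u ∈ N'.R := by
  classical
  obtain ⟨P, hP, hPf⟩ := halg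
  have hQ : ∀ i, ∃ Q : MvPolynomial (Fin m) Λ, MvPolynomial.aeval x Q = (P.coeff i : Ω) := by
    have h1 : ∀ z ∈ Algebra.adjoin Λ (Set.range x),
        ∃ Q : MvPolynomial (Fin m) Λ, MvPolynomial.aeval x Q = z := by
      intro z hz
      rw [Algebra.adjoin_range_eq_range_aeval] at hz
      exact hz
    exact fun i => h1 _ (P.coeff i).2
  choose Q hQ using hQ
  have hne : ∀ i, i ∈ P.support → (P.coeff i : Ω) ≠ 0 := fun i hi h0 =>
    (Polynomial.mem_support_iff.1 hi) (Subtype.ext h0)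
  obtain ⟨N₁, hT₁, hK₁, hmn⟩ := mn_aevals h N hK hϖ hx hind (P.support.image Q) (by
    intro R hR
    obtain ⟨i, hi, rfl⟩ := Finset.mem_image.1 hR
    intro h0
    refine hne i hi ?_
    rw [← hQ i, h0, map_zero])
  have hmn' : ∀ i ∈ P.support, Mn N₁ (P.coeff i : Ω) := fun i hi => by
    rw [← hQ i]; exact hmn _ (Finset.mem_image_of_mem _ hi)
  obtain ⟨N₂, hT₂, hK₂, hD⟩ := exists_tor h.rpos N₁ hK₁
    ((P.support ×ˢ P.support).image fun p => (P.coeff p.1 : Ω) / (P.coeff p.2 : Ω)) (by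
      intro f hf
      obtain ⟨p, hp, rfl⟩ := Finset.mem_image.1 hf
      obtain ⟨h1, h2⟩ := Finset.mem_product.1 hp
      exact (hmn' _ h1).div (hmn' _ h2))
  have hD' : ∀ i ∈ P.support, ∀ j ∈ P.support, N₂.MonoPos ((P.coeff i : Ω) / (P.coeff j : Ω)) :=
    fun i hi j hj => hD _ (Finset.mem_image.2 ⟨(i, j), Finset.mem_product.2 ⟨hi, hj⟩, rfl⟩)
  refine ⟨N₂, hT₁.trans hT₂, hK₂, ?_⟩
  obtain ⟨i0, hi0, hmin⟩ := P.support.exists_min_image
    (fun i => v (P.coeff i : Ω)) (Polynomial.support_nonempty.2 hP)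
  have hne0 : (P.coeff i0 : Ω) ≠ 0 := hne i0 hi0
  let c : ℕ → Ω := fun i => (P.coeff i : Ω) / (P.coeff i0 : Ω)
  have hc : ∀ i, c i ∈ N₂.R := by
    intro i
    by_cases hi : P.coeff i = 0
    · have : c i = 0 := by
        simp only [c, hi]
        rw [ZeroMemClass.coe_zero, zero_div]
      rw [this]; exact N₂.R.zero_mem
    · have hi' := Polynomial.mem_support_iff.2 hi
      refine (hD' i hi' i0 hi0).mem ?_
      rw [v.map_div (hne i hi') hne0]
      linarith [hmin i hi']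
  -- the largest index of a unit
  let U : Finset ℕ := P.support.filter fun i => v (c i) = 0
  have hU : U.Nonempty := ⟨i0, by
    rw [Finset.mem_filter]
    refine ⟨hi0, ?_⟩
    change v ((P.coeff i0 : Ω) / (P.coeff i0 : Ω)) = 0
    rw [div_self hne0, v.map_one]⟩
  obtain ⟨j, hj, hmax⟩ := U.exists_max_image id hU
  rw [Finset.mem_filter] at hj
  have hjn : j ≤ P.natDegree := Polynomial.le_natDegree_of_mem_supp _ hj.1
  have hcne : ∀ i, i ∈ P.support → c i ≠ 0 := fun i hi => div_ne_zero (hne i hi) hne0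
  refine mem_of_eqn h N₂ hK₂ hu (hq.mono (hT₁.trans hT₂).le) c P.natDegree j (fun i _ => hc i) hjn
    (hcne j hj.1) hj.2 ?_ ?_
  · intro i hji _ hci
    have h1 : i ∈ P.support := by
      rw [Polynomial.mem_support_iff]
      intro h0
      apply hci
      simp only [c, h0]
      rw [ZeroMemClass.coe_zero, zero_div]
    rcases (N₂.nonneg _ (hc i) hci).lt_or_eq with h2 | h2
    · exact h2
    · exfalso
      have h3 : i ∈ U := Finset.mem_filter.2 ⟨h1, h2.symm⟩
      exact absurd (hmax i h3) (not_le.2 hji)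
  · have h1 : ∀ i, c i * u ^ i = (P.coeff i0 : Ω)⁻¹ * ((P.coeff i : Ω) * u ^ i) := by
      intro i
      simp only [c]
      rw [div_eq_mul_inv]; ring
    rw [Finset.sum_congr rfl fun i _ => h1 i, ← Finset.mul_sum]
    rw [Polynomial.aeval_eq_sum_range] at hPf
    have h2 : ∑ i ∈ Finset.range (P.natDegree + 1), (P.coeff i : Ω) * u ^ i = 0 := by
      rw [← hPf]
      exact Finset.sum_congr rfl fun i _ => by rw [Algebra.smul_def]; rfl
    rw [h2, mul_zero]

theorem mn_alg (h : Ctx0 ϖ v r) (N : WN Λ v r) (hK : N.Kap)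
    (hϖ : Mn N (algebraMap Λ Ω ϖ)) {m : ℕ} {x : Fin m → Ω} (hx : ∀ i, Mn N (x i))
    (hind : LinearIndependent ℚ (cv ϖ v x))
    (hspan : ∀ g : Ω, g ≠ 0 → v g ∈ Submodule.span ℚ (Set.range (cv ϖ v x)))
    {g : Ω} (hg : g ≠ 0) (hq : Quo N.R g)
    (halg : IsAlgebraic (Algebra.adjoin Λ (Set.range x)) g) :
    ∃ N' : WN Λ v r, Tor N N' ∧ N'.Kap ∧ Mn N' g := by
  classical
  obtain ⟨n, hn, m0, k, hval⟩ := exists_int hspan hg
  obtain ⟨M, hM⟩ : ∃ M : Ω, M = algebraMap Λ Ω ϖ ^ m0 * ∏ i, x i ^ k i := ⟨_, rfl⟩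
  have hMm : Mn N M := by
    rw [hM]
    exact (hϖ.zpow m0).mul (Mn.prod _ _ fun i _ => (hx i).zpow _)
  have hM0 : M ≠ 0 := hMm.ne
  have hMv : v M = (n : ℝ) * v g := by
    rw [hM, v.map_mul (zpow_ne_zero _ hϖ.ne)
      (Finset.prod_ne_zero_iff.2 fun i _ => zpow_ne_zero _ (hx i).ne), v.map_zpow hϖ.ne,
      v.map_prod _ _ (fun i _ => zpow_ne_zero _ (hx i).ne), hval]
    congr 1
    exact Finset.sum_congr rfl fun i _ => v.map_zpow (hx i).ne _
  have hu0 : g ^ n / M ≠ 0 := div_ne_zero (pow_ne_zero _ hg) hM0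
  have huv : v (g ^ n / M) = 0 := by
    rw [v.map_div (pow_ne_zero _ hg) hM0, v.map_pow hg, hMv, sub_self]
  have hkey : ∀ z ∈ Algebra.adjoin Λ (Set.range x),
      IsAlgebraic (Algebra.adjoin Λ (Set.range x)) z := fun z hz =>
    isAlgebraic_algebraMap (⟨z, hz⟩ : Algebra.adjoin Λ (Set.range x))
  have hz : ∀ (z : Ω) (j : ℤ), IsAlgebraic (Algebra.adjoin Λ (Set.range x)) z →
      IsAlgebraic (Algebra.adjoin Λ (Set.range x)) (z ^ j) := by
    intro z j hz
    obtain ⟨l, rfl | rfl⟩ := j.eq_nat_or_neg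
    · rw [zpow_natCast]; exact hz.pow l
    · rw [zpow_neg, zpow_natCast]; exact (hz.pow l).inv
  have hMalg : IsAlgebraic (Algebra.adjoin Λ (Set.range x)) M := by
    rw [hM]
    refine (hz _ _ (hkey _ (Subalgebra.algebraMap_mem _ _))).mul ?_
    have : ∀ s : Finset (Fin m),
        IsAlgebraic (Algebra.adjoin Λ (Set.range x)) (∏ i ∈ s, x i ^ k i) := by
      intro s
      induction s using Finset.induction_on with
      | empty => rw [Finset.prod_empty]; exact hkey _ (Subalgebra.one_mem _)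
      | insert a s ha ih =>
        rw [Finset.prod_insert ha]
        exact (hz _ _ (hkey _ (Algebra.subset_adjoin ⟨a, rfl⟩))).mul ih
    exact this _
  obtain ⟨N', hT, hK', hmem⟩ := mem_alg h N hK hϖ hx hind (u := g ^ n / M)
    (fun _ => huv.ge) (by
      rw [div_eq_mul_inv]
      exact (hq.pow n).mul hMm.quo.inv) (by
      rw [div_eq_mul_inv]
      exact (halg.pow n).mul hMalg.inv)
  refine ⟨N', hT, hK', mn_of_pow h N' hK' (hq.mono hT.le) hn ?_⟩
  have h1 := (hMm.tor hT).mul (Mn.of_unit hmem hu0 huv)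
  rwa [mul_div_cancel₀ _ hM0] at h1

end Pool.Agent.LUD
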