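import Pool.Agent.Lib.LUD.C2

/-! # Row C3: finite sets (short)

Recipe. Induction on `D` with `mn_alg`, `Mn.tor`, `Tor.trans`, `Quo.mono`, `Tor.le` gives `N₁` with
all `f ∈ D` `Mn N₁`; then `exists_tor` (`h.rpos`).
-/

set_option autoImplicit false

open Polynomial

namespace Pool.Agent.LUD

open Pool.Agent.LUM
open Pool.Agent.H15JM (RVal)
open Pool.Agent.LU1 (VPos val_add_vpos adj Ev)

universe u

variable {Λ Ω : Type u} [CommRing Λ] [IsDomain Λ] [IsDiscreteValuationRing Λ] [Field Ω]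
  [Algebra Λ Ω] {ϖ : Λ} {v : RVal Ω} {r : ℕ}

theorem mn_finset (h : Ctx0 ϖ v r) (N : WN Λ v r) (hK : N.Kap)
    (hϖ : Mn N (algebraMap Λ Ω ϖ)) {m : ℕ} {x : Fin m → Ω} (hx : ∀ i, Mn N (x i))
    (hind : LinearIndependent ℚ (cv ϖ v x))
    (hspan : ∀ g : Ω, g ≠ 0 → v g ∈ Submodule.span ℚ (Set.range (cv ϖ v x)))
    (D : Finset Ω) (hD : ∀ f ∈ D, f ≠ 0 ∧ Quo N.R f ∧
      IsAlgebraic (Algebra.adjoin Λ (Set.range x)) f) :
    ∃ N' : WN Λ v r, Tor N N' ∧ N'.Kap ∧ ∀ f ∈ D, N'.MonoPos f := by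
  classical
  have key : ∃ N₁ : WN Λ v r, Tor N N₁ ∧ N₁.Kap ∧ ∀ f ∈ D, Mn N₁ f := by
    induction D using Finset.induction_on with
    | empty => exact ⟨N, Tor.refl N, hK, fun f hf => absurd hf (Finset.notMem_empty f)⟩
    | insert a s ha ih =>
      obtain ⟨N₁, ht, hK₁, hs⟩ := ih fun f hf => hD f (Finset.mem_insert_of_mem hf)
      obtain ⟨ha0, haq, haa⟩ := hD a (Finset.mem_insert_self a s)
      obtain ⟨N₂, ht₂, hK₂, h₂⟩ := mn_alg h N₁ hK₁ (hϖ.tor ht) (fun i => (hx i).tor ht) hind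
        hspan ha0 (haq.mono ht.le) haa
      refine ⟨N₂, ht.trans ht₂, hK₂, fun f hf => ?_⟩
      rcases Finset.mem_insert.1 hf with rfl | hf
      · exact h₂
      · exact (hs f hf).tor ht₂
  obtain ⟨N₁, ht, hK₁, hs⟩ := key
  obtain ⟨N', ht', hK', hm⟩ := exists_tor h.rpos N₁ hK₁ D hs
  exact ⟨N', ht.trans ht', hK', hm⟩

end Pool.Agent.LUD
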