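import Pool.Agent.Lib.LUD.A1

/-! # Row D1: evaluation near `t`

Recipe. `N.fgen` gives `F₀`; `F := F₀ ∪ {x_i} ∪ {y}` generates the same ring.  For `f ∈ F` we have
`f ∈ adj K t`, so `LU1.exists_ev` (LU2_h15z/ZeroB.lean; there `k` is any field, here `Q`) gives a
`δ` such that for all `c` with `v.Ge δ (t - c)` the value `b` of `f` at `t = c` exists (`Ev K t c f b`)
and `v.Ge N (f - b)`, with `N := 1 + |v f|`; take the largest `δ` and `c` by `hlim`, and choose
`e f := b`.  Then `f - e f` has positive value, and `v (e f) = v f`, `e f ≠ 0` for `f = x_i`, `y`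
(`RVal.add_of_lt`; the same computation is in the proof of `zero_struct` in LU2_h15z/ZeroB.lean).
-/

set_option autoImplicit false

open Polynomial

namespace Pool.Agent.LUD

open Pool.Agent.LUM
open Pool.Agent.H15JM (RVal)
open Pool.Agent.LU1 (VPos val_add_vpos adj Ev)

universe u

variable {Λ Q Ω : Type u} [CommRing Λ] [IsDomain Λ] [IsDiscreteValuationRing Λ] [Field Q]
  [Algebra Λ Q] [IsFractionRing Λ Q] [Field Ω] [Algebra Λ Ω] [Algebra Q Ω] [IsScalarTower Λ Q Ω]
  {ϖ : Λ} {v : RVal Ω} {r : ℕ}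

theorem exists_evD (N : WN Λ v r) (K : IntermediateField Q Ω) (t : Ω)
    (hF : ∀ f ∈ N.R, f ∈ adj K t) (hlim : ∀ δ : ℝ, ∃ c ∈ K, v.Ge δ (t - c)) :
    ∃ (c : Ω) (F : Finset Ω) (e : Ω → Ω), EvD N K t c F e := by
  classical
  obtain ⟨F0, hF0⟩ := N.fgen
  let F : Finset Ω := (F0 ∪ Finset.univ.image N.x) ∪ {N.y}
  have hmem : ∀ f ∈ F, f ∈ N.R := by
    intro f hf
    rcases Finset.mem_union.mp hf with hf | hf
    · rcases Finset.mem_union.mp hf with hf | hf
      · rw [hF0]
        exact le_locv _ (Algebra.subset_adjoin hf)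
      · obtain ⟨i, -, rfl⟩ := Finset.mem_image.mp hf
        exact N.x_mem i
    · rw [Finset.mem_singleton.mp hf]
      exact N.y_mem
  have hδ : ∀ f ∈ F, ∃ δ : ℝ, ∀ c : Ω, v.Ge δ (t - c) →
      ∃ b, Ev K t c f b ∧ v.Ge (1 + |v f|) (f - b) :=
    fun f hf => LU1.exists_ev K t (hF f (hmem f hf)) _
  choose! δ hδ using hδ
  obtain ⟨δ', hδ'⟩ : ∃ δ' : ℝ, ∀ f ∈ F, δ f ≤ δ' := by
    refine ⟨∑ f ∈ F, |δ f|, fun f hf => ?_⟩
    have h3 := Finset.single_le_sum (f := fun f => |δ f|) (fun _ _ => abs_nonneg _) hf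
    have := le_abs_self (δ f)
    linarith
  obtain ⟨c, hcK, hc⟩ := hlim δ'
  have h1 : ∀ f ∈ F, ∃ b, Ev K t c f b ∧ v.Ge (1 + |v f|) (f - b) := fun f hf =>
    hδ f hf c (hc.mono (hδ' f hf))
  choose! e he1 he2 using h1
  have key : ∀ f ∈ F, f ≠ 0 → e f ≠ 0 ∧ v (e f) = v f := by
    intro f hf h0
    by_cases h2 : f - e f = 0
    · rw [sub_eq_zero] at h2
      rw [← h2]
      exact ⟨h0, rfl⟩
    · have h3 := he2 f hf h2
      have h4 : v f < v (-(f - e f)) := by
        rw [v.map_neg _ h2]
        have := le_abs_self (v f)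
        linarith
      have h5 := v.add_of_lt h0 (neg_ne_zero.2 h2) h4
      have h6 : f + -(f - e f) = e f := by ring
      rw [h6] at h5
      exact h5
  have hx : ∀ i, N.x i ∈ F := fun i => Finset.mem_union_left _
    (Finset.mem_union_right _ (Finset.mem_image_of_mem _ (Finset.mem_univ i)))
  have hy : N.y ∈ F := Finset.mem_union_right _ (Finset.mem_singleton_self _)
  refine ⟨c, F, e, ?_⟩
  exact
    { cK := hcK
      R := by
        apply le_antisymm
        · conv_lhs => rw [hF0]
          apply locv_mono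
          apply Algebra.adjoin_mono
          intro f hf
          exact Finset.mem_union_left _ (Finset.mem_union_left _ hf)
        · apply locv_le
          · rw [Algebra.adjoin_le_iff]
            intro f hf
            exact hmem f hf
          · intro f hf h0 h2
            rw [hF0] at hf ⊢
            exact locv_inv hf h0 h2
      x_mem := hx
      y_mem := hy
      ev := he1
      near := by
        intro f hf h0
        have h2 := he2 f hf h0
        have := abs_nonneg (v f)
        linarith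
      x_ne := fun i => (key _ (hx i) (N.x_ne i)).1
      x_val := fun i => (key _ (hx i) (N.x_ne i)).2
      y_ne := (key _ hy N.y_ne).1
      y_val := (key _ hy N.y_ne).2 }

end Pool.Agent.LUD
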