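import Pool.Agent.Lib.LUD.A1

/-! # Row D2: the frame of the values at `t = c`

Recipe. Let `x'_i = N'.x i = ∏ x_j ^ n_ij` (`hT.up`) and `x''_i := ∏ e(x_j) ^ n_ij`; by `Ev.mul`,
`Ev.inv` (LU2_h15z/ZeroB.lean, with `htr`) `Ev K t c (x'_i) (x''_i)`, and `v (x''_i) = v (x'_i)`.
Put `R'' := locv (Λ[e(F), x''])` (all the elements are in `K` by `Ev.mem`).
(1) `N'.R = locv (Λ[F, x'])` (`hT.R`, `hE.R`), and for every `f ∈ N'.R` there is `b ∈ R''` with
`Ev K t c f b`, `VPos v (f - b)` (induction on `Algebra.adjoin`, then quotients: a denominator of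
value zero evaluates to an element of value zero), and conversely every `b ∈ R''` is such a value
of an `f ∈ N'.R`.  This is `key` in the proof of `zero_struct` in LU2_h15z/ZeroB.lean.
(2) For `f ∈ K`, `Ev K t c f f` (`Ev.const`) and `Ev.unique`: so `f ∈ K ∩ N'.R` implies `f ∈ R''`, and
if `f ∈ K` is `(∏ x'_i ^ n_i) w` with `w` a unit of `N'.R`, then `f = (∏ x''_i ^ n_i) w''` with the same
exponents, `w''` the value of `w`, a unit: so `N'.MonoPos f → M.MonoPos f`.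
(3) Let `f ∈ R''` be of positive value, `f` the value of `g ∈ N'.R`; `VPos v g`;
`g = ∑ x'_i a_i + y b` (`N'.gen`, `N'.y = N.y`); the values: `f = ∑ x''_i a''_i + e(y) b''`, and
`e(y) ∈ K` is `N'.MonoPos` of positive value, so by (2) `e(y) = ∏ x''_i ^ n_i * w''` with `n_i > 0`, a
multiple of `x''_0` in `R''` (`r > 0`: `h.rpos`).  So `f` is in the ideal generated by the `x''_i`.
The frame `M` : `x := x''`, `y := x''_0`, `R := R''` (`gen` with `b = 0`).
-/

set_option autoImplicit false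

open Polynomial

namespace Pool.Agent.LUD

open Pool.Agent.LUM
open Pool.Agent.H15JM (RVal)
open Pool.Agent.LU1 (VPos val_add_vpos adj Ev)

universe u

variable {Λ Q Ω : Type u} [CommRing Λ] [IsDomain Λ] [IsDiscreteValuationRing Λ] [Field Q]
  [Algebra Λ Q] [IsFractionRing Λ Q] [Field Ω] [Algebra Λ Ω] [Algebra Q Ω] [IsScalarTower Λ Q Ω]
  {ϖ : Λ} {v : RVal Ω} {r : ℕ}

private theorem ev_pow {K : IntermediateField Q Ω} {t c a b : Ω} (h : Ev K t c a b) (n : ℕ) :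
    Ev K t c (a ^ n) (b ^ n) := by
  induction n with
  | zero => rw [pow_zero, pow_zero]; exact Ev.const K.one_mem
  | succ n ih => rw [pow_succ, pow_succ]; exact ih.mul h

private theorem ev_zpow {K : IntermediateField Q Ω} {t c a b : Ω} (htr : Transcendental K t)
    (h : Ev K t c a b) (hb : b ≠ 0) (n : ℤ) : Ev K t c (a ^ n) (b ^ n) := by
  cases n with
  | ofNat n =>
    change Ev K t c (a ^ ((n : ℕ) : ℤ)) (b ^ ((n : ℕ) : ℤ))
    rw [zpow_natCast, zpow_natCast]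
    exact ev_pow h n
  | negSucc n =>
    rw [zpow_negSucc, zpow_negSucc]
    exact (ev_pow h _).inv htr (pow_ne_zero _ hb)

private theorem ev_prod {K : IntermediateField Q Ω} {t c : Ω} {ι : Type*} (s : Finset ι)
    (a b : ι → Ω) (h : ∀ i ∈ s, Ev K t c (a i) (b i)) :
    Ev K t c (∏ i ∈ s, a i) (∏ i ∈ s, b i) := by
  classical
  induction s using Finset.induction_on with
  | empty => rw [Finset.prod_empty, Finset.prod_empty]; exact Ev.const K.one_mem
  | insert i s hi ih =>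
    rw [Finset.prod_insert hi, Finset.prod_insert hi]
    exact (h i (Finset.mem_insert_self i s)).mul
      (ih fun j hj => h j (Finset.mem_insert_of_mem hj))

private theorem ev_sum {K : IntermediateField Q Ω} {t c : Ω} {ι : Type*} (s : Finset ι)
    (a b : ι → Ω) (h : ∀ i ∈ s, Ev K t c (a i) (b i)) :
    Ev K t c (∑ i ∈ s, a i) (∑ i ∈ s, b i) := by
  classical
  induction s using Finset.induction_on with
  | empty => rw [Finset.sum_empty, Finset.sum_empty]; exact Ev.const K.zero_mem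
  | insert i s hi ih =>
    rw [Finset.sum_insert hi, Finset.sum_insert hi]
    exact (h i (Finset.mem_insert_self i s)).add
      (ih fun j hj => h j (Finset.mem_insert_of_mem hj))

private theorem near_unit {b1 b2 : Ω} (h0 : b1 ≠ 0) (h1 : v b1 = 0) (h : VPos v (b1 - b2)) :
    b2 ≠ 0 ∧ v b2 = 0 := by
  have h3 := val_add_vpos h0 h1 h.neg
  have h4 : b1 + -(b1 - b2) = b2 := by ring
  rwa [h4] at h3

private theorem near_div {a1 a2 b1 b2 : Ω} (ha : VPos v (a1 - a2)) (hb : VPos v (b1 - b2))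
    (ha2 : v.Ge 0 a2) (h0 : b1 ≠ 0) (h1 : v b1 = 0) : VPos v (a1 / b1 - a2 / b2) := by
  obtain ⟨h2, h3⟩ := near_unit h0 h1 hb
  have e : a1 / b1 - a2 / b2 = ((a1 - a2) * b2 + a2 * -(b1 - b2)) * (b1 * b2)⁻¹ := by
    field_simp
    ring
  rw [e]
  have hb2 : v.Ge 0 b2 := fun _ => h3.ge
  refine ((ha.mul hb2).add (VPos.mul' ha2 hb.neg)).mul ?_
  intro _
  rw [v.map_inv (mul_ne_zero h0 h2), v.map_mul h0 h2, h1, h3]
  simp

theorem EvD.exists_frame (h : Ctx0 ϖ v r) {N : WN Λ v r} {K : IntermediateField Q Ω} {t c : Ω}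
    {F : Finset Ω} {e : Ω → Ω} (hE : EvD N K t c F e) (htr : Transcendental K t)
    {N' : WN Λ v r} (hT : Tor N N') (hy : N'.MonoPos (e N.y)) :
    ∃ M : WN Λ v r, Gen0 M ∧ (∀ f ∈ M.R, f ∈ K) ∧ (∀ f ∈ K, f ∈ N'.R → f ∈ M.R) ∧
      (∀ f ∈ K, N'.MonoPos f → M.MonoPos f) ∧
      (∀ i, ∃ n : Fin r → ℤ, M.x i = ∏ j, e (N.x j) ^ n j) ∧
      M.R = locv v (Algebra.adjoin Λ ((e '' (F : Set Ω)) ∪ Set.range M.x)) := by
  classical
  have hΛK : ∀ a : Λ, algebraMap Λ Ω a ∈ K := by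
    intro a
    rw [IsScalarTower.algebraMap_apply Λ Q Ω]
    exact K.algebraMap_mem _
  choose n hn using hT.up
  obtain ⟨x2, hx2⟩ : ∃ x2 : Fin r → Ω, ∀ i, x2 i = ∏ j, e (N.x j) ^ n i j := ⟨_, fun _ => rfl⟩
  have hxev : ∀ i, Ev K t c (N'.x i) (x2 i) := by
    intro i
    rw [hn i, hx2 i]
    exact ev_prod _ _ _ fun j _ => ev_zpow htr (hE.ev _ (hE.x_mem j)) (hE.x_ne j) _
  have hxne : ∀ i, x2 i ≠ 0 := by
    intro i
    rw [hx2 i]
    exact Finset.prod_ne_zero_iff.2 fun j _ => zpow_ne_zero _ (hE.x_ne j)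
  have hxval : ∀ i, v (x2 i) = v (N'.x i) := by
    intro i
    rw [hx2 i, hn i, v.map_prod _ _ fun j _ => zpow_ne_zero _ (hE.x_ne j),
      v.map_prod _ _ fun j _ => zpow_ne_zero _ (N.x_ne j)]
    refine Finset.sum_congr rfl fun j _ => ?_
    rw [v.map_zpow (hE.x_ne j), v.map_zpow (N.x_ne j), hE.x_val]
  have hFN : ∀ f ∈ F, f ∈ N.R := by
    intro f hf
    rw [hE.R]
    exact le_locv _ (Algebra.subset_adjoin (Finset.mem_coe.2 hf))
  have hNN : N.R ≤ N'.R := by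
    intro f hf
    rw [hT.R]
    exact le_locv _ (Algebra.subset_adjoin (Or.inl hf))
  obtain ⟨S1, hS1⟩ : ∃ S1 : Subalgebra Λ Ω,
    S1 = Algebra.adjoin Λ ((F : Set Ω) ∪ Set.range N'.x) := ⟨_, rfl⟩
  obtain ⟨S2, hS2⟩ : ∃ S2 : Subalgebra Λ Ω,
    S2 = Algebra.adjoin Λ ((e '' (F : Set Ω)) ∪ Set.range x2) := ⟨_, rfl⟩
  have hR1 : N'.R = locv v S1 := by
    apply le_antisymm
    · rw [hT.R]
      refine locv_le ?_ fun f hf h0 h1 => locv_inv hf h0 h1
      rw [Algebra.adjoin_le_iff]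
      rintro f (hf | ⟨i, rfl⟩)
      · have hf' : f ∈ locv v (Algebra.adjoin Λ (F : Set Ω)) := by rw [← hE.R]; exact hf
        refine locv_mono ?_ hf'
        rw [hS1]
        exact Algebra.adjoin_mono Set.subset_union_left
      · refine le_locv _ ?_
        rw [hS1]
        exact Algebra.subset_adjoin (Or.inr ⟨i, rfl⟩)
    · refine locv_le ?_ fun f hf h0 h1 => N'.loc hf h0 h1
      rw [hS1, Algebra.adjoin_le_iff]
      rintro f (hf | ⟨i, rfl⟩)
      · exact hNN (hFN f hf)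
      · exact N'.x_mem i
  have hxpos : ∀ i, VPos v (N'.x i) := fun i _ => N'.x_pos i
  have hx2pos : ∀ i, VPos v (x2 i) := fun i _ => by rw [hxval]; exact N'.x_pos i
  have key : ∀ a ∈ S1, ∃ b ∈ S2, Ev K t c a b ∧ VPos v (a - b) ∧ v.Ge 0 a := by
    intro a ha
    rw [hS1] at ha
    induction ha using Algebra.adjoin_induction with
    | mem x hx =>
      rcases hx with hx | ⟨i, rfl⟩
      · refine ⟨e x, ?_, hE.ev x hx, hE.near x hx, N.nonneg x (hFN x hx)⟩
        rw [hS2]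
        exact Algebra.subset_adjoin (Or.inl ⟨x, hx, rfl⟩)
      · refine ⟨x2 i, ?_, hxev i, (hxpos i).sub (hx2pos i), (hxpos i).ge⟩
        rw [hS2]
        exact Algebra.subset_adjoin (Or.inr ⟨i, rfl⟩)
    | algebraMap c' =>
      refine ⟨algebraMap Λ Ω c', Subalgebra.algebraMap_mem _ c', Ev.const (hΛK c'), ?_, h.ge c'⟩
      rw [sub_self]; exact VPos.zero
    | add x y _ _ hx hy =>
      obtain ⟨b, hb, hb1, hb2, hb3⟩ := hx
      obtain ⟨b', hb', hb1', hb2', hb3'⟩ := hy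
      refine ⟨b + b', add_mem hb hb', hb1.add hb1', ?_, hb3.add hb3'⟩
      have h3 : x + y - (b + b') = (x - b) + (y - b') := by ring
      rw [h3]
      exact hb2.add hb2'
    | mul x y _ _ hx hy =>
      obtain ⟨b, hb, hb1, hb2, hb3⟩ := hx
      obtain ⟨b', hb', hb1', hb2', hb3'⟩ := hy
      refine ⟨b * b', mul_mem hb hb', hb1.mul hb1', ?_, by simpa using hb3.mul hb3'⟩
      have h3 : x * y - b * b' = (x * (y - b') + (x - b) * y) - (x - b) * (y - b') := by ring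
      rw [h3]
      exact ((VPos.mul' hb3 hb2').add (hb2.mul hb3')).sub (hb2.mul hb2'.ge)
  have key2 : ∀ b ∈ S2, ∃ a ∈ S1, Ev K t c a b ∧ VPos v (a - b) ∧ v.Ge 0 a := by
    intro b hb
    rw [hS2] at hb
    induction hb using Algebra.adjoin_induction with
    | mem x hx =>
      rcases hx with ⟨x, hx, rfl⟩ | ⟨i, rfl⟩
      · refine ⟨x, ?_, hE.ev x hx, hE.near x hx, N.nonneg x (hFN x hx)⟩
        rw [hS1]
        exact Algebra.subset_adjoin (Or.inl hx)
      · refine ⟨N'.x i, ?_, hxev i, (hxpos i).sub (hx2pos i), (hxpos i).ge⟩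
        rw [hS1]
        exact Algebra.subset_adjoin (Or.inr ⟨i, rfl⟩)
    | algebraMap c' =>
      refine ⟨algebraMap Λ Ω c', Subalgebra.algebraMap_mem _ c', Ev.const (hΛK c'), ?_, h.ge c'⟩
      rw [sub_self]; exact VPos.zero
    | add x y _ _ hx hy =>
      obtain ⟨b, hb, hb1, hb2, hb3⟩ := hx
      obtain ⟨b', hb', hb1', hb2', hb3'⟩ := hy
      refine ⟨b + b', add_mem hb hb', hb1.add hb1', ?_, hb3.add hb3'⟩
      have h3 : b + b' - (x + y) = (b - x) + (b' - y) := by ring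
      rw [h3]
      exact hb2.add hb2'
    | mul x y _ _ hx hy =>
      obtain ⟨b, hb, hb1, hb2, hb3⟩ := hx
      obtain ⟨b', hb', hb1', hb2', hb3'⟩ := hy
      refine ⟨b * b', mul_mem hb hb', hb1.mul hb1', ?_, by simpa using hb3.mul hb3'⟩
      have h3 : b * b' - x * y = (b * (b' - y) + (b - x) * b') - (b - x) * (b' - y) := by ring
      rw [h3]
      exact ((VPos.mul' hb3 hb2').add (hb2.mul hb3')).sub (hb2.mul hb2'.ge)
  have hge2 : ∀ {a b : Ω}, v.Ge 0 a → VPos v (a - b) → v.Ge 0 b := by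
    intro a b h1 h2
    have h3 : b = a + -(a - b) := by ring
    rw [h3]
    exact h1.add h2.neg.ge
  have keyR : ∀ f ∈ N'.R, ∃ b ∈ locv v S2, Ev K t c f b ∧ VPos v (f - b) := by
    intro f hf
    rw [hR1] at hf
    obtain ⟨a1, ha1, b1, hb1, hb10, hvb1, rfl⟩ := hf
    obtain ⟨a2, ha2, hae, hap, haq⟩ := key a1 ha1
    obtain ⟨b2, hb2, hbe, hbp, -⟩ := key b1 hb1
    obtain ⟨h2, h3⟩ := near_unit hb10 hvb1 hbp
    refine ⟨a2 / b2, ⟨a2, ha2, b2, hb2, h2, h3, rfl⟩, ?_,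
      near_div hap hbp (hge2 haq hap) hb10 hvb1⟩
    rw [div_eq_mul_inv, div_eq_mul_inv]
    exact hae.mul (hbe.inv htr h2)
  have keyR2 : ∀ b ∈ locv v S2, ∃ f ∈ N'.R, Ev K t c f b ∧ VPos v (f - b) := by
    intro b hb
    obtain ⟨a1, ha1, b1, hb1, hb10, hvb1, rfl⟩ := hb
    obtain ⟨a2, ha2, hae, hap, haq⟩ := key2 a1 ha1
    obtain ⟨b2, hb2, hbe, hbp, -⟩ := key2 b1 hb1
    have hbp' : VPos v (b1 - b2) := by
      have := hbp.neg
      rwa [neg_sub] at this
    obtain ⟨h2, h3⟩ := near_unit hb10 hvb1 hbp'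
    refine ⟨a2 / b2, ?_, ?_, near_div hap hbp (hge2 haq hap) h2 h3⟩
    · rw [hR1]
      exact ⟨a2, ha2, b2, hb2, h2, h3, rfl⟩
    · rw [div_eq_mul_inv, div_eq_mul_inv]
      exact hae.mul (hbe.inv htr hb10)
  have hmono : ∀ f ∈ K, N'.MonoPos f → ∃ m : Fin r → ℤ, ∃ u : Ω, u ≠ 0 ∧ u ∈ locv v S2 ∧
      u⁻¹ ∈ locv v S2 ∧ f = (∏ i, x2 i ^ m i) * u ∧
      (0 < v f → ∀ i, 0 < m i) ∧ (v f < 0 → ∀ i, m i < 0) ∧ (v f = 0 → ∀ i, m i = 0) := by
    intro f hfK hf
    obtain ⟨m, u, hu, hu1, hu2, hfe, hs⟩ := hf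
    have hvu : v u = 0 := by
      have h1 := N'.nonneg u hu1 hu
      have h2 := N'.nonneg _ hu2 (inv_ne_zero hu)
      rw [v.map_inv hu] at h2
      linarith
    obtain ⟨w, hw, hwe, hwp⟩ := keyR u hu1
    obtain ⟨hw0, hw1⟩ := near_unit hu hvu hwp
    refine ⟨m, w, hw0, hw, locv_inv hw hw0 hw1, ?_, hs⟩
    have h3 : Ev K t c ((∏ i, N'.x i ^ m i) * u) ((∏ i, x2 i ^ m i) * w) :=
      (ev_prod _ _ _ fun j _ => ev_zpow htr (hxev j) (hxne j) _).mul hwe
    rw [← hfe] at h3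
    exact (Ev.const hfK).unique htr h3
  have hx2mem : ∀ i, x2 i ∈ locv v S2 := by
    intro i
    refine le_locv _ ?_
    rw [hS2]
    exact Algebra.subset_adjoin (Or.inr ⟨i, rfl⟩)
  have hgen : ∀ f ∈ locv v S2, VPos v f →
      ∃ a : Fin r → Ω, (∀ i, a i ∈ locv v S2) ∧ f = ∑ i, x2 i * a i := by
    intro f hf hfp
    obtain ⟨g, hg, hge, hgp⟩ := keyR2 f hf
    have hgv : VPos v g := by
      have h3 : g = (g - f) + f := by ring
      rw [h3]
      exact hgp.add hfp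
    obtain ⟨a, ha, b, hb, hgab⟩ := N'.gen g hg hgv
    have hA : ∀ i, ∃ a2 ∈ locv v S2, Ev K t c (a i) a2 := by
      intro i
      obtain ⟨a2, h1, h2, -⟩ := keyR (a i) (ha i)
      exact ⟨a2, h1, h2⟩
    choose a2 ha2 hae using hA
    obtain ⟨b2, hb2, hbe, -⟩ := keyR b hb
    have hyK : e N.y ∈ K := (hE.ev _ hE.y_mem).mem hE.cK
    obtain ⟨m, u, hu0, hu1, -, hye, hp, -, -⟩ := hmono _ hyK hy
    have hm := hp (by rw [hE.y_val]; exact N.y_pos)
    have hf1 : f = (∑ i, x2 i * a2 i) + e N.y * b2 := by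
      refine hge.unique htr ?_
      rw [hgab, hT.y]
      exact (ev_sum _ _ _ fun i _ => (hxev i).mul (hae i)).add
        ((hE.ev _ hE.y_mem).mul hbe)
    have hr : 0 < r := h.rpos
    have hyd : ∃ d ∈ locv v S2, e N.y = x2 ⟨0, hr⟩ * d := by
      refine ⟨x2 ⟨0, hr⟩ ^ (m ⟨0, hr⟩ - 1).toNat *
        (∏ i ∈ Finset.univ.erase (⟨0, hr⟩ : Fin r), x2 i ^ (m i).toNat) * u, ?_, ?_⟩
      · exact mul_mem (mul_mem (pow_mem (hx2mem _) _)
          (Subalgebra.prod_mem _ fun i _ => pow_mem (hx2mem _) _)) hu1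
      · conv_lhs => rw [hye]
        rw [← Finset.mul_prod_erase _ _ (Finset.mem_univ (⟨0, hr⟩ : Fin r))]
        have e1 : x2 ⟨0, hr⟩ ^ m ⟨0, hr⟩ = x2 ⟨0, hr⟩ * x2 ⟨0, hr⟩ ^ (m ⟨0, hr⟩ - 1).toNat := by
          have h1 := hm ⟨0, hr⟩
          rw [← pow_succ', ← zpow_natCast]
          congr 1
          omega
        have e2 : ∏ i ∈ Finset.univ.erase (⟨0, hr⟩ : Fin r), x2 i ^ m i =
            ∏ i ∈ Finset.univ.erase (⟨0, hr⟩ : Fin r), x2 i ^ (m i).toNat := by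
          refine Finset.prod_congr rfl fun i _ => ?_
          have h1 := hm i
          rw [← zpow_natCast]
          congr 1
          omega
        rw [e1, e2]
        ring
    obtain ⟨d, hd, hyd⟩ := hyd
    refine ⟨fun i => if i = ⟨0, hr⟩ then a2 i + d * b2 else a2 i, fun i => ?_, ?_⟩
    · dsimp only
      split_ifs
      · exact add_mem (ha2 i) (mul_mem hd hb2)
      · exact ha2 i
    · rw [hf1, hyd]
      rw [← Finset.add_sum_erase _ _ (Finset.mem_univ (⟨0, hr⟩ : Fin r)),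
        ← Finset.add_sum_erase _ _ (Finset.mem_univ (⟨0, hr⟩ : Fin r))]
      dsimp only
      rw [if_pos rfl]
      have e3 : ∑ i ∈ Finset.univ.erase (⟨0, hr⟩ : Fin r),
            x2 i * (if i = ⟨0, hr⟩ then a2 i + d * b2 else a2 i) =
          ∑ i ∈ Finset.univ.erase (⟨0, hr⟩ : Fin r), x2 i * a2 i := by
        refine Finset.sum_congr rfl fun i hi => ?_
        rw [if_neg (Finset.ne_of_mem_erase hi)]
      rw [e3]
      ring
  have hr : 0 < r := h.rpos
  refine ⟨{ x := x2, x_ne := hxne, x_pos := fun i => by rw [hxval]; exact N'.x_pos i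
            x_ind := by
              have : (fun i => v (x2 i)) = fun i => v (N'.x i) := funext hxval
              rw [this]; exact N'.x_ind
            y := x2 ⟨0, hr⟩, y_ne := hxne _, y_pos := by rw [hxval]; exact N'.x_pos _
            R := locv v S2
            nonneg := ?_, x_mem := hx2mem, y_mem := hx2mem _, fgen := ?_, gen := ?_ },
    hgen, ?_, ?_, hmono, fun i => ⟨n i, hx2 i⟩, ?_⟩
  · intro f hf
    obtain ⟨g, hg, -, hgp⟩ := keyR2 f hf
    exact hge2 (N'.nonneg g hg) hgp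
  · refine ⟨F.image e ∪ Finset.univ.image x2, ?_⟩
    rw [hS2]
    congr 2
    rw [Finset.coe_union, Finset.coe_image, Finset.coe_image, Finset.coe_univ, Set.image_univ]
  · intro f hf hfp
    obtain ⟨a, ha, hfa⟩ := hgen f hf hfp
    exact ⟨a, ha, 0, Subalgebra.zero_mem _, by rw [mul_zero, add_zero]; exact hfa⟩
  · intro f hf
    obtain ⟨g, -, hge, -⟩ := keyR2 f hf
    exact hge.mem hE.cK
  · intro f hfK hf
    obtain ⟨b, hb, hbe, -⟩ := keyR f hf
    rw [(Ev.const hfK).unique htr hbe]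
    exact hb
  · exact congrArg (locv v) hS2

end Pool.Agent.LUD
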