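import Pool.Agent.Lib.LUD.C3
import Pool.Agent.Lib.LUD.D1
import Pool.Agent.Lib.LUD.D2
import Pool.Agent.Lib.LUM.Q01

/-! # Row D3: frames of `K` from frames of `K(t)` -/

set_option autoImplicit false

open Polynomial

namespace Pool.Agent.LUD

open Pool.Agent.LUM
open Pool.Agent.H15JM (RVal)
open Pool.Agent.LU1 (VPos val_add_vpos adj Ev)

universe u

section Quo

variable {Λ Ω : Type u} [CommRing Λ] [Field Ω] [Algebra Λ Ω]

/-- The field of quotients of the elements of a subalgebra. -/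
private def quoS (R : Subalgebra Λ Ω) : Subfield Ω where
  carrier := {f | ∃ a ∈ R, ∃ b ∈ R, b ≠ 0 ∧ f = a / b}
  mul_mem' := by
    rintro f g ⟨a, ha, b, hb, hb0, rfl⟩ ⟨c, hc, d, hd, hd0, rfl⟩
    exact ⟨a * c, R.mul_mem ha hc, b * d, R.mul_mem hb hd, mul_ne_zero hb0 hd0, by
      rw [div_mul_div_comm]⟩
  one_mem' := ⟨1, R.one_mem, 1, R.one_mem, one_ne_zero, by rw [div_one]⟩
  add_mem' := by
    rintro f g ⟨a, ha, b, hb, hb0, rfl⟩ ⟨c, hc, d, hd, hd0, rfl⟩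
    exact ⟨a * d + b * c, R.add_mem (R.mul_mem ha hd) (R.mul_mem hb hc), b * d,
      R.mul_mem hb hd, mul_ne_zero hb0 hd0, by rw [div_add_div _ _ hb0 hd0]⟩
  zero_mem' := ⟨0, R.zero_mem, 1, R.one_mem, one_ne_zero, by rw [div_one]⟩
  neg_mem' := by
    rintro f ⟨a, ha, b, hb, hb0, rfl⟩
    exact ⟨-a, R.neg_mem ha, b, hb, hb0, by rw [neg_div]⟩
  inv_mem' := by
    rintro f ⟨a, ha, b, hb, hb0, rfl⟩
    by_cases h0 : a = 0
    · exact ⟨0, R.zero_mem, 1, R.one_mem, one_ne_zero, by rw [h0]; simp⟩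
    · exact ⟨b, hb, a, ha, h0, by rw [inv_div]⟩

private theorem mem_quoS {R : Subalgebra Λ Ω} {f : Ω} :
    f ∈ quoS R ↔ ∃ a ∈ R, ∃ b ∈ R, b ≠ 0 ∧ f = a / b := Iff.rfl

private theorem le_quoS (R : Subalgebra Λ Ω) {f : Ω} (hf : f ∈ R) : f ∈ quoS R :=
  ⟨f, hf, 1, R.one_mem, one_ne_zero, by rw [div_one]⟩

end Quo

variable {Λ Q Ω : Type u} [CommRing Λ] [IsDomain Λ] [IsDiscreteValuationRing Λ] [Field Q]
  [Algebra Λ Q] [IsFractionRing Λ Q] [Field Ω] [Algebra Λ Ω] [Algebra Q Ω] [IsScalarTower Λ Q Ω]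
  {ϖ : Λ} {v : RVal Ω} {r : ℕ}

omit [IsDomain Λ] [IsDiscreteValuationRing Λ] [IsFractionRing Λ Q] in
private theorem adjoin_le_adj (L : IntermediateField Q Ω) (S : Set Ω) (hS : ∀ f ∈ S, f ∈ L) :
    ∀ f ∈ Algebra.adjoin Λ S, f ∈ L := by
  intro f hf
  have h1 : Algebra.adjoin Λ S ≤ L.toSubalgebra.restrictScalars Λ := by
    rw [Algebra.adjoin_le_iff]
    intro x hx
    exact hS x hx
  exact h1 hf

omit [IsDomain Λ] [IsDiscreteValuationRing Λ] [IsFractionRing Λ Q] in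
/-- The field of fractions of `Λ[A, t]`. -/
private theorem quoIs_adj (K : IntermediateField Q Ω) (t : Ω) (A : Finset Ω)
    (hQ : QuoIs (Algebra.adjoin Λ (A : Set Ω)) {f | f ∈ K}) (A' : Finset Ω)
    (hA' : (A : Set Ω) ⊆ A') (hA2 : ∀ f ∈ A', f ∈ adj K t)
    (ht : t ∈ quoS (Algebra.adjoin Λ (A' : Set Ω))) :
    QuoIs (Algebra.adjoin Λ (A' : Set Ω)) {f | f ∈ adj K t} := by
  refine ⟨fun f hf => adjoin_le_adj (adj K t) _ (fun x hx => hA2 x hx) f hf, fun g hg => ?_⟩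
  have hle : Algebra.adjoin Λ (A : Set Ω) ≤ Algebra.adjoin Λ (A' : Set Ω) :=
    Algebra.adjoin_mono hA'
  have hK : ∀ f ∈ K, f ∈ quoS (Algebra.adjoin Λ (A' : Set Ω)) := by
    intro f hf
    obtain ⟨a, ha, b, hb, hb0, rfl⟩ := hQ.2 f hf
    exact ⟨a, hle ha, b, hle hb, hb0, rfl⟩
  have hpol : ∀ P : K[X], aeval t P ∈ quoS (Algebra.adjoin Λ (A' : Set Ω)) := by
    intro P
    rw [Polynomial.aeval_eq_sum_range]
    refine sum_mem fun i _ => ?_
    rw [Algebra.smul_def]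
    exact mul_mem (hK _ (P.coeff i).2) (pow_mem ht i)
  obtain ⟨P, R, hR, hPR⟩ := Pool.Agent.LU1.exists_rat_of_mem_adj K t hg
  have h1 : g = aeval t P / aeval t R := by rw [← hPR, mul_div_cancel_right₀ _ hR]
  have h2 : g ∈ quoS (Algebra.adjoin Λ (A' : Set Ω)) := by
    rw [h1]
    exact div_mem (hpol P) (hpol R)
  exact h2

omit [IsDomain Λ] [IsDiscreteValuationRing Λ] in
private theorem zpow_mem_of {R : Subalgebra Λ Ω} {f : Ω} (h1 : f ∈ R) (h2 : f⁻¹ ∈ R) (n : ℤ) :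
    f ^ n ∈ R := by
  obtain ⟨m, rfl | rfl⟩ := n.eq_nat_or_neg
  · rw [zpow_natCast]
    exact R.pow_mem h1 m
  · rw [zpow_neg, zpow_natCast, ← inv_pow]
    exact R.pow_mem h2 m

theorem luf0 (h : Ctx0 ϖ v r) (K : IntermediateField Q Ω) (t : Ω) (htr : Transcendental K t)
    (hlim : ∀ δ : ℝ, ∃ c ∈ K, v.Ge δ (t - c))
    (hL : LUF Λ v r {f | f ∈ adj K t}) {m : ℕ} {x : Fin m → Ω} (hxK : ∀ i, x i ∈ K)
    (hx0 : ∀ i, x i ≠ 0)
    (hind : LinearIndependent ℚ (cv ϖ v x))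
    (hspan : ∀ g : Ω, g ≠ 0 → v g ∈ Submodule.span ℚ (Set.range (cv ϖ v x)))
    (halg : ∀ g ∈ K, IsAlgebraic (Algebra.adjoin Λ (Set.range x)) g) :
    LUF0 Λ v r {f | f ∈ K} := by
  classical
  intro A hA hQ T hT
  have ht0 : t ≠ 0 := by
    rintro rfl
    exact htr (isAlgebraic_zero)
  -- the element `t'`
  obtain ⟨t', ht'1, ht'2, ht'3⟩ : ∃ t' : Ω, v.Ge 0 t' ∧ t' ∈ adj K t ∧ (t = t' ∨ t = t'⁻¹) := by
    rcases le_total 0 (v t) with h0 | h0
    · exact ⟨t, fun _ => h0, Pool.Agent.LU1.mem_adj K t, Or.inl rfl⟩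
    · refine ⟨t⁻¹, fun _ => ?_, (adj K t).inv_mem (Pool.Agent.LU1.mem_adj K t),
        Or.inr (inv_inv t).symm⟩
      rw [v.map_inv ht0]
      linarith
  have hA'mem : ∀ f ∈ insert t' A, f ∈ adj K t := by
    intro f hf
    rcases Finset.mem_insert.1 hf with rfl | hf
    · exact ht'2
    · exact Pool.Agent.LU1.le_adj K t (hA f hf).1
  have hQ' : QuoIs (Algebra.adjoin Λ ((insert t' A : Finset Ω) : Set Ω)) {f | f ∈ adj K t} := by
    refine quoIs_adj K t A hQ (insert t' A) (fun x hx => Finset.mem_coe.2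
      (Finset.mem_insert_of_mem (Finset.mem_coe.1 hx))) hA'mem ?_
    have h1 : t' ∈ quoS (Algebra.adjoin Λ ((insert t' A : Finset Ω) : Set Ω)) :=
      le_quoS _ (Algebra.subset_adjoin (Finset.mem_coe.2 (Finset.mem_insert_self _ _)))
    rcases ht'3 with h2 | h2
    · rw [h2]; exact h1
    · rw [h2]; exact inv_mem h1
  have hϖ0 : algebraMap Λ Ω ϖ ≠ 0 := by
    intro h0
    exact h.irr.ne_zero (h.inj (by rw [h0, map_zero]))
  obtain ⟨N, hKap, hNL, g0, hg0, -, -, G0, -, hNR, hmono⟩ := hL (insert t' A) (fun a ha => by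
      refine ⟨hA'mem a ha, ?_⟩
      rcases Finset.mem_insert.1 ha with rfl | ha
      · exact ht'1
      · exact (hA a ha).2) hQ' (insert (algebraMap Λ Ω ϖ) (Finset.univ.image x)) (fun f hf => by
      rcases Finset.mem_insert.1 hf with rfl | hf
      · refine ⟨?_, hϖ0⟩
        show algebraMap Λ Ω ϖ ∈ adj K t
        rw [IsScalarTower.algebraMap_apply Λ Q Ω]
        exact (adj K t).algebraMap_mem _
      · obtain ⟨i, -, rfl⟩ := Finset.mem_image.1 hf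
        exact ⟨Pool.Agent.LU1.le_adj K t (hxK i), hx0 i⟩)
  have hAN : Algebra.adjoin Λ (A : Set Ω) ≤ N.R := by
    rw [hNR]
    refine (Algebra.adjoin_mono ?_).trans (le_locv _)
    intro f hf
    exact Or.inl (Finset.mem_coe.2 (Finset.mem_insert_of_mem (Finset.mem_coe.1 hf)))
  have hKQ : ∀ f ∈ K, Quo N.R f := by
    intro f hf
    obtain ⟨a, ha, b, hb, hb0, h1⟩ := hQ.2 f hf
    exact ⟨a, hAN ha, b, hAN hb, hb0, h1⟩
  -- the evaluation
  obtain ⟨c, F, e, hE⟩ := exists_evD N K t (fun f hf => hNL f hf) hlim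
  have heK : ∀ f ∈ F, e f ∈ K := fun f hf => (hE.ev f hf).mem hE.cK
  have hnd : ∀ f : Ω, ∃ a b : Ω, f ∈ F → e f ≠ 0 → (a ∈ Algebra.adjoin Λ (A : Set Ω) ∧
      b ∈ Algebra.adjoin Λ (A : Set Ω) ∧ a ≠ 0 ∧ b ≠ 0 ∧ e f = a / b) := by
    intro f
    by_cases hf : f ∈ F ∧ e f ≠ 0
    · obtain ⟨a, ha, b, hb, hb0, h1⟩ := hQ.2 (e f) (heK f hf.1)
      refine ⟨a, b, fun _ _ => ⟨ha, hb, ?_, hb0, h1⟩⟩
      rintro rfl
      apply hf.2
      rw [h1, zero_div]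
    · exact ⟨0, 0, fun h1 h2 => absurd ⟨h1, h2⟩ hf⟩
  choose nu de hnd using hnd
  have hAK : ∀ f ∈ Algebra.adjoin Λ (A : Set Ω), f ∈ K := fun f hf => hQ.1 f hf
  obtain ⟨D, hDdef⟩ : ∃ D : Finset Ω, D = (insert (e N.y) T ∪
      (F.filter fun f => e f ≠ 0).image nu) ∪ (F.filter fun f => e f ≠ 0).image de := ⟨_, rfl⟩
  have hDK : ∀ f ∈ D, f ∈ K ∧ f ≠ 0 := by
    intro f hf
    rw [hDdef, Finset.mem_union, Finset.mem_union, Finset.mem_insert] at hf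
    rcases hf with ((rfl | hf) | hf) | hf
    · exact ⟨heK _ hE.y_mem, hE.y_ne⟩
    · exact hT f hf
    · obtain ⟨f', hf', rfl⟩ := Finset.mem_image.1 hf
      rw [Finset.mem_filter] at hf'
      have h1 := hnd f' hf'.1 hf'.2
      exact ⟨hAK _ h1.1, h1.2.2.1⟩
    · obtain ⟨f', hf', rfl⟩ := Finset.mem_image.1 hf
      rw [Finset.mem_filter] at hf'
      have h1 := hnd f' hf'.1 hf'.2
      exact ⟨hAK _ h1.2.1, h1.2.2.2.1⟩
  obtain ⟨N', hTor, -, hD⟩ := mn_finset h N hKap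
    (Mn.of_monoPos (hmono _ (Finset.mem_insert_self _ _)))
    (fun i => Mn.of_monoPos (hmono _ (Finset.mem_insert_of_mem
      (Finset.mem_image_of_mem x (Finset.mem_univ i))))) hind hspan D
    (fun f hf => ⟨(hDK f hf).2, hKQ f (hDK f hf).1, halg f (hDK f hf).1⟩)
  have hDy : e N.y ∈ D := by
    rw [hDdef, Finset.mem_union, Finset.mem_union, Finset.mem_insert]
    exact Or.inl (Or.inl (Or.inl rfl))
  have hDT : ∀ f ∈ T, f ∈ D := by
    intro f hf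
    rw [hDdef, Finset.mem_union, Finset.mem_union, Finset.mem_insert]
    exact Or.inl (Or.inl (Or.inr hf))
  have hDnu : ∀ f ∈ F, e f ≠ 0 → nu f ∈ D := by
    intro f hf h0
    rw [hDdef, Finset.mem_union, Finset.mem_union]
    exact Or.inl (Or.inr (Finset.mem_image_of_mem nu (Finset.mem_filter.2 ⟨hf, h0⟩)))
  have hDde : ∀ f ∈ F, e f ≠ 0 → de f ∈ D := by
    intro f hf h0
    rw [hDdef, Finset.mem_union]
    exact Or.inr (Finset.mem_image_of_mem de (Finset.mem_filter.2 ⟨hf, h0⟩))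
  obtain ⟨M, hM0, hMK, hNM, hMm, hMx, hMR⟩ := hE.exists_frame h htr hTor (hD _ hDy)
  have hMD : ∀ f ∈ D, M.MonoPos f := fun f hf => hMm f (hDK f hf).1 (hD f hf)
  have hAM : ∀ a ∈ A, a ∈ M.R := fun a ha =>
    hNM a (hA a ha).1 (hTor.le (hAN (Algebra.subset_adjoin (Finset.mem_coe.2 ha))))
  have hAM' : Algebra.adjoin Λ (A : Set Ω) ≤ M.R := by
    rw [Algebra.adjoin_le_iff]
    exact fun a ha => hAM a ha
  have hA0 : ∀ a ∈ Algebra.adjoin Λ (A : Set Ω), v.Ge 0 a := fun a ha => M.nonneg a (hAM' ha)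
  -- the quotients
  have hqe : ∀ f ∈ F, e f ≠ 0 → e f ∈ M.QM (Algebra.adjoin Λ (A : Set Ω)) hA0 ∧
      (e f)⁻¹ ∈ M.QM (Algebra.adjoin Λ (A : Set Ω)) hA0 := by
    intro f hf h0
    obtain ⟨h1, h2, h3, h4, h5⟩ := hnd f hf h0
    refine ⟨⟨nu f, h1, de f, h2, hMD _ (hDde f hf h0), h5⟩,
      ⟨de f, h2, nu f, h1, hMD _ (hDnu f hf h0), ?_⟩⟩
    rw [h5, inv_div]
  obtain ⟨g, hg, hg0, hgm, G, hG, hGR⟩ := M.chart_of A hA0 hAM (F.image e ∪ Finset.univ.image M.x)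
    (by
      rw [Finset.coe_union, Finset.coe_image, Finset.coe_image, Finset.coe_univ, Set.image_univ]
      exact hMR) (by
      intro f hf
      rcases Finset.mem_union.1 hf with hf | hf
      · obtain ⟨f', hf', rfl⟩ := Finset.mem_image.1 hf
        by_cases h0 : e f' = 0
        · rw [h0]
          exact Subalgebra.zero_mem _
        · exact (hqe f' hf' h0).1
      · obtain ⟨i, -, rfl⟩ := Finset.mem_image.1 hf
        obtain ⟨n, hn⟩ := hMx i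
        rw [hn]
        refine Subalgebra.prod_mem _ fun j _ => ?_
        have h1 := hqe (N.x j) (hE.x_mem j) (hE.x_ne j)
        exact zpow_mem_of h1.1 h1.2 (n j))
  exact ⟨M, hM0, hMK, g, hg, hg0, hgm, G, hG, hGR, fun f hf => hMD f (hDT f hf)⟩

end Pool.Agent.LUD
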