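import Pool.Agent.Lib.LUD.Defs
import Pool.Agent.Lib.LUC.M03r
import Pool.Agent.Lib.LUM.C01
import Pool.Agent.Lib.LUM.C02

/-! # Row D4: from frames to the valuation ring

Word for word `LUrV.of_LUF` in LUC/M03r.lean, with the parameters `z := N.x` (no `y`, so no
`Fin.cons`) and `J := univ`; the dimension of `N.R` is `r`: at most `r` since the maximal ideal is
generated by the `r` elements `x_i` (`Gen0`; see `WN.dim` in LUM/C02.lean), at least `r` by `height_ge`
of LUM/C01.lean applied to the maximal ideal, `κ := v` and the `x_i` (`N.x_ind`).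
-/

set_option autoImplicit false

open Polynomial

namespace Pool.Agent.LUD

open Pool.Agent.LUM
open Pool.Agent.H15JM (RVal)
open Pool.Agent.LU1 (VPos val_add_vpos adj Ev)

universe u

private theorem d4_dim {Λ Ω : Type u} [CommRing Λ] [IsDomain Λ] [IsDiscreteValuationRing Λ]
    [Field Ω] [Algebra Λ Ω] {v : RVal Ω} {r : ℕ} (N : WN Λ v r) (hG : Gen0 N) :
    ringKrullDim N.R = ((r : ℕ) : WithBot ℕ∞) := by
  have hN := N.isNoetherian
  have hL := N.isLocalRing
  rw [← IsLocalRing.maximalIdeal_height_eq_ringKrullDim]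
  have hmem : ∀ z : N.R, z ∈ IsLocalRing.maximalIdeal N.R ↔ VPos v (z : Ω) := by
    intro z
    rw [IsLocalRing.mem_maximalIdeal, mem_nonunits_iff, N.not_isUnit_iff]
  let X : Fin r → N.R := fun i => ⟨N.x i, N.x_mem i⟩
  have hle : (IsLocalRing.maximalIdeal N.R).height ≤ ((r : ℕ) : ℕ∞) := by
    classical
    have hsp : IsLocalRing.maximalIdeal N.R =
        Ideal.span ((Finset.univ.image X : Finset N.R) : Set N.R) := by
      apply le_antisymm
      · intro z hz
        obtain ⟨a, ha, hab⟩ := hG z z.2 ((hmem z).1 hz)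
        have h5 : z = ∑ i, X i * ⟨a i, ha i⟩ := by
          apply Subtype.ext
          rw [AddSubmonoidClass.coe_finsetSum]
          exact hab
        rw [h5]
        exact Ideal.sum_mem _ fun i _ =>
          Ideal.mul_mem_right _ _ (Ideal.subset_span (by simp))
      · rw [Ideal.span_le]
        intro z hz
        rw [Finset.mem_coe, Finset.mem_image] at hz
        rw [SetLike.mem_coe, hmem]
        obtain ⟨i, -, rfl⟩ := hz
        exact fun _ => N.x_pos i
    have h5 := Ideal.height_le_spanRank_toENat_of_mem_minimalPrimes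
      (IsLocalRing.maximalIdeal N.R) (IsLocalRing.maximalIdeal N.R)
      (by rw [Ideal.minimalPrimes_eq_subsingleton_self]; rfl)
    refine h5.trans ?_
    have h6 : (IsLocalRing.maximalIdeal N.R).spanRank ≤ ((r : ℕ) : Cardinal) := by
      rw [hsp]
      refine (Submodule.spanRank_span_le_card _).trans ?_
      have h7 : (Finset.univ.image X : Finset N.R).card ≤ r :=
        (Finset.card_image_le).trans (by simp)
      have h8 : Cardinal.mk ((Finset.univ.image X : Finset N.R) : Set N.R) =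
          (((Finset.univ.image X : Finset N.R).card : ℕ) : Cardinal) :=
        Cardinal.mk_coe_finset
      rw [h8]
      exact_mod_cast h7
    have h7 := Cardinal.toENat.monotone' h6
    simpa using h7
  have hge : ((r : ℕ) : ℕ∞) ≤ (IsLocalRing.maximalIdeal N.R).height := by
    refine height_ge (IsLocalRing.maximalIdeal N.R) (fun z => v (z : Ω)) ?_ ?_ ?_ ?_ X ?_ ?_
      N.x_ind
    · intro a b ha hb hab
      rw [Subalgebra.coe_add]
      refine v.map_add (by simpa using ha) (by simpa using hb) fun h0 => hab ?_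
      exact Subtype.ext h0
    · intro a b ha hb
      rw [Subalgebra.coe_mul]
      exact v.map_mul (by simpa using ha) (by simpa using hb)
    · intro a ha
      exact N.nonneg a a.2 (by simpa using ha)
    · intro a ha
      have ha' : (a : Ω) ≠ 0 := by simpa using ha
      rw [hmem]
      exact ⟨fun h => h ha', fun h _ => h⟩
    · intro i h0
      exact N.x_ne i (congrArg Subtype.val h0)
    · intro i
      rw [hmem]
      exact fun _ => N.x_pos i
  have := le_antisymm hle hge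
  rw [this]
  rfl

theorem LUF0.lurV {Λ K Ω : Type u} [CommRing Λ] [IsDomain Λ] [IsDiscreteValuationRing Λ]
    [Field K] [Algebra Λ K] [Field Ω] [Algebra Λ Ω] [Algebra K Ω] [IsScalarTower Λ K Ω]
    {v : RVal Ω} {r : ℕ} (hr : 0 < r) (V : ValuationSubring K)
    (hV : ∀ x : K, x ∈ V ↔ v.Ge 0 (algebraMap K Ω x))
    (hL : LUF0 Λ v r (Set.range (algebraMap K Ω))) : LUC.LUrV Λ V := by
  classical
  obtain ⟨ι, hιdef⟩ : ∃ ι : K →ₐ[Λ] Ω, ∀ x, ι x = algebraMap K Ω x :=
    ⟨IsScalarTower.toAlgHom Λ K Ω, fun _ => rfl⟩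
  have hι : Function.Injective ι := ι.toRingHom.injective
  have hrel : RelV V ι.toRingHom v := fun x => by
    rw [hV x]
    show v.Ge 0 _ ↔ v.Ge 0 (ι x)
    rw [hιdef]
  have hrng : ∀ f, f ∈ Set.range (algebraMap K Ω) ↔ ∃ x, ι x = f := by
    intro f
    simp only [hιdef, Set.mem_range]
  have hne' : ∀ s : K, ι s ≠ 0 → s ≠ 0 := by
    rintro s h rfl
    exact h (map_zero ι)
  intro A hA hAV hfrac T hT
  obtain ⟨A₀, hA₀⟩ := hA
  have hmap : Algebra.adjoin Λ ((A₀.image ι : Finset Ω) : Set Ω) = A.map ι := by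
    rw [Finset.coe_image, ← AlgHom.map_adjoin, hA₀]
  obtain ⟨N, hGen, hNL, g', hg'A, hg'0, hg'M, G', hG', hR, hTM⟩ := hL (A₀.image ι) (by
      intro a ha
      obtain ⟨a', ha', rfl⟩ := Finset.mem_image.1 ha
      refine ⟨(hrng _).2 ⟨a', rfl⟩, ?_⟩
      have h1 : a' ∈ A := by
        rw [← hA₀]
        exact Algebra.subset_adjoin ha'
      exact (hrel a').1 (hAV a' h1)) (by
      rw [hmap]
      refine ⟨?_, ?_⟩
      · rintro _ ⟨f, -, rfl⟩
        exact (hrng _).2 ⟨f, rfl⟩
      · intro f hf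
        obtain ⟨x, rfl⟩ := (hrng f).1 hf
        obtain ⟨a, ha, b, hb, hb0, rfl⟩ := hfrac x
        exact ⟨ι a, ⟨a, ha, rfl⟩, ι b, ⟨b, hb, rfl⟩, (map_ne_zero ι).2 hb0, map_div₀ ι a b⟩)
    (T.image ι) (by
      intro t ht
      obtain ⟨t', ht', rfl⟩ := Finset.mem_image.1 ht
      exact ⟨(hrng _).2 ⟨t', rfl⟩, (map_ne_zero ι).2 (hT t' ht')⟩)
  rw [hmap] at hg'A hG'
  obtain ⟨g, hgA, hgg⟩ := hg'A
  have hgg' : ι g = g' := hgg
  subst hgg'
  have hg0 : g ≠ 0 := hne' g hg'0
  obtain ⟨G, hGdef⟩ : ∃ G : Finset K, G = G'.preimage ι hι.injOn := ⟨_, rfl⟩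
  have hGmem : ∀ x, x ∈ G ↔ ι x ∈ G' := fun x => by rw [hGdef, Finset.mem_preimage]
  have hGA : ∀ x ∈ G, x ∈ A := by
    intro x hx
    obtain ⟨⟨x', hx', hxe⟩, -⟩ := hG' _ ((hGmem x).1 hx)
    have hxx : x' = x := hι hxe
    rwa [hxx] at hx'
  obtain ⟨A', hA'⟩ : ∃ A' : Subalgebra Λ K, A' =
      Algebra.adjoin Λ ((A : Set K) ∪ (fun x => x / g) '' (G : Set K)) := ⟨_, rfl⟩
  have hch : IsChart V A A' g := by
    refine ⟨hgA, hg0, G, fun x hx => ⟨hGA x hx, ?_⟩, hA'⟩
    by_cases hx0 : x = 0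
    · rw [hx0, map_zero]
      exact zero_le
    · rw [hrel.le_iff hx0 hg0]
      exact (hG' _ ((hGmem x).1 hx)).2 ((map_ne_zero ι).2 hx0)
  have hR' : N.R = locv v (A'.map ι) := by
    rw [hR, hA', AlgHom.map_adjoin]
    congr 1
    have h1 : ι '' ((A : Set K) ∪ (fun x => x / g) '' (G : Set K)) =
        ((A.map ι : Subalgebra Λ Ω) : Set Ω) ∪ (fun x => x / ι g) '' (G' : Set Ω) := by
      rw [Set.image_union]
      congr 1
      ext z
      constructor
      · rintro ⟨_, ⟨x, hx, rfl⟩, rfl⟩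
        exact ⟨ι x, (hGmem x).1 hx, (map_div₀ ι x g).symm⟩
      · rintro ⟨x, hx, rfl⟩
        obtain ⟨⟨x', hx', hxe⟩, -⟩ := hG' _ hx
        have hxe' : ι x' = x := hxe
        subst hxe'
        exact ⟨x' / g, ⟨x', (hGmem x').2 hx, rfl⟩, map_div₀ ι x' g⟩
    rw [h1, ← hmap, adjoin_union_adjoin]
  have hmemL : ∀ s : K, s ∈ locV V A' ↔ ι s ∈ N.R := by
    intro s
    rw [hR']
    constructor
    · rintro ⟨a, ha, b, hb, hvb, rfl⟩
      have hb0 : b ≠ 0 := by
        rintro rfl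
        simp at hvb
      exact ⟨ι a, ⟨a, ha, rfl⟩, ι b, ⟨b, hb, rfl⟩, (map_ne_zero ι).2 hb0,
        (hrel.eq_one_iff hb0).1 hvb, map_div₀ ι a b⟩
    · rintro ⟨_, ⟨a, ha, rfl⟩, _, ⟨b, hb, rfl⟩, hb0, hvb, hs⟩
      have hb0' : b ≠ 0 := hne' b hb0
      refine ⟨a, ha, b, hb, (hrel.eq_one_iff hb0').2 hvb, hι ?_⟩
      rw [hs]
      exact (map_div₀ ι a b).symm
  have hex : ∀ f ∈ N.R, ∃ s, s ∈ locV V A' ∧ ι s = f := by
    intro f hf
    obtain ⟨s, rfl⟩ := (hrng f).1 (hNL f hf)
    exact ⟨s, (hmemL s).2 hf, rfl⟩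
  -- the parameters
  choose z hzm hz using fun i => hex _ (N.x_mem i)
  have hz0 : ∀ i, z i ≠ 0 := fun i => hne' _ (by rw [hz]; exact N.x_ne i)
  -- the ring isomorphism
  let φ : locV V A' →+* N.R :=
    { toFun := fun s => ⟨ι s, (hmemL s).1 s.2⟩
      map_one' := Subtype.ext (map_one ι)
      map_mul' := fun a b => Subtype.ext (map_mul ι _ _)
      map_zero' := Subtype.ext (map_zero ι)
      map_add' := fun a b => Subtype.ext (map_add ι _ _) }
  have hφ : Function.Bijective φ := by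
    constructor
    · intro a b hab
      have h1 : ι a = ι b := congrArg Subtype.val hab
      exact Subtype.ext (hι h1)
    · rintro ⟨f, hf⟩
      obtain ⟨s, hs, rfl⟩ := hex f hf
      exact ⟨⟨s, hs⟩, rfl⟩
  have hdim' : ringKrullDim (locV V A') = ((r : ℕ) : WithBot ℕ∞) := by
    rw [ringKrullDim_eq_of_ringEquiv (RingEquiv.ofBijective φ hφ), d4_dim N hGen]
  have hpar : IsPar V (locV V A') z := by
    refine ⟨hzm, hz0, fun i => ?_, fun f hf hfv => ?_, hdim'⟩
    · rw [hrel.lt_one_iff (hz0 i)]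
      show 0 < v (ι (z i))
      rw [hz]
      exact N.x_pos i
    · have h1 : VPos v (ι f) := fun h0 => (hrel.lt_one_iff (hne' f h0)).1 hfv
      obtain ⟨a, ha, hfe⟩ := hGen _ ((hmemL f).1 hf) h1
      choose c hcm hc using fun i => hex _ (ha i)
      refine ⟨c, hcm, hι ?_⟩
      rw [map_sum, hfe]
      refine Finset.sum_congr rfl fun i _ => ?_
      rw [map_mul, hz, hc, mul_comm]
  -- the monomials
  have hMono : ∀ t : K, N.MonoPos (ι t) → LUC.SMonoV V (locV V A') z Finset.univ t := by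
    rintro t ⟨n, w, hw0, hw1, hw2, hf, h1, h2, h3⟩
    obtain ⟨w', hw'm, rfl⟩ := hex w hw1
    have hw'0 : w' ≠ 0 := hne' _ hw0
    have hvw : v (ι w') = 0 := by
      have h4 : 0 ≤ v (ι w') := N.nonneg _ hw1 hw0
      have h5 : 0 ≤ v (ι w')⁻¹ := N.nonneg _ hw2 (inv_ne_zero hw0)
      rw [v.map_inv hw0] at h5
      linarith
    have ht0 : t ≠ 0 := by
      refine hne' _ ?_
      rw [hf]
      exact mul_ne_zero (Finset.prod_ne_zero_iff.2 fun i _ => zpow_ne_zero _ (N.x_ne i)) hw0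
    refine ⟨n, w', hw'm, (hrel.eq_one_iff hw'0).2 hvw, hι ?_, ?_, ?_, ?_, ?_⟩
    · rw [map_mul, map_prod, hf]
      congr 1
      exact Finset.prod_congr rfl fun i _ => by rw [map_zpow₀, hz]
    · intro i hi
      exact absurd (Finset.mem_univ i) hi
    · intro ht i _
      exact h1 ((hrel.lt_one_iff ht0).1 ht) i
    · intro ht i _
      refine h2 ?_ i
      have h4 : ¬ (0 : ℝ) ≤ v (ι t) := fun h5 => absurd ((hrel.le_one_iff ht0).2 h5) (not_le.2 ht)
      exact not_le.1 h4
    · intro ht i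
      exact h3 ((hrel.eq_one_iff ht0).1 ht) i
  exact ⟨A', g, hch, r, z, Finset.univ, hpar, hMono g hg'M,
    fun t ht => hMono t (hTM _ (Finset.mem_image_of_mem _ ht))⟩

end Pool.Agent.LUD
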