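import Pool.Agent.Lib.LUM.M03
import Pool.Agent.Lib.LUC.LRDefs
import Pool.Agent.Lib.LU2_h15z.ZeroB

/-! # LUD: defect zero in mixed characteristic: definitions

`Λ` is a discrete valuation ring, `Ω` a big field with a real valuation `v`, `WN Λ v r` the weak
noetherian frames of `LUM/WDefs.lean` (`R = N.R` is the local ring of a finitely generated
subalgebra at the centre of `v`, its maximal ideal is generated by `x_1, .., x_r, y`, the values of
the `x_i` are rationally independent); `N.Kap` : there is a second valuation `κ ≥ 0` on `N.R` with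
`κ y = 0`, `κ (x_i) = v (x_i)`; then `N.R` is regular of dimension `r + 1` (`WN.dim`).
-/

set_option autoImplicit false

open Polynomial

namespace Pool.Agent.LUD

open Pool.Agent.LUM
open Pool.Agent.H15JM (RVal)
open Pool.Agent.LU1 (VPos)

universe u

section

variable {Λ Ω : Type u} [CommRing Λ] [IsDomain Λ] [IsDiscreteValuationRing Λ] [Field Ω]
  [Algebra Λ Ω] {v : RVal Ω} {r : ℕ}

/-- `f` is a Laurent monomial in the `x_i` times a unit of the ring of the frame. -/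
def Mn (N : WN Λ v r) (f : Ω) : Prop :=
  ∃ n : Fin r → ℤ, ∃ w : Ω, w ∈ N.R ∧ w ≠ 0 ∧ v w = 0 ∧ f = (∏ i, N.x i ^ n i) * w

/-- `N'` is a toric transform of `N`. -/
structure Tor (N N' : WN Λ v r) : Prop where
  y : N'.y = N.y
  up : ∀ i, ∃ n : Fin r → ℤ, N'.x i = ∏ j, N.x j ^ n j
  dn : ∀ i, ∃ n : Fin r → ℕ, N.x i = ∏ j, N'.x j ^ n j
  R : N'.R = locv v (Algebra.adjoin Λ ((N.R : Set Ω) ∪ Set.range N'.x))

/-- The maximal ideal of the ring of the frame is generated by the `x_i`. -/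
def Gen0 (N : WN Λ v r) : Prop :=
  ∀ f ∈ N.R, VPos v f → ∃ a : Fin r → Ω, (∀ i, a i ∈ N.R) ∧ f = ∑ i, N.x i * a i

variable (Λ) in
/-- As `LUF`, with frames whose maximal ideal is generated by the `x_i`. -/
def LUF0 (v : RVal Ω) (r : ℕ) (L : Set Ω) : Prop :=
  ∀ A : Finset Ω, (∀ a ∈ A, a ∈ L ∧ v.Ge 0 a) → QuoIs (Algebra.adjoin Λ (A : Set Ω)) L →
    ∀ T : Finset Ω, (∀ t ∈ T, t ∈ L ∧ t ≠ 0) →
      ∃ N : WN Λ v r, Gen0 N ∧ (∀ f ∈ N.R, f ∈ L) ∧ ∃ g ∈ Algebra.adjoin Λ (A : Set Ω), g ≠ 0 ∧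
        N.MonoPos g ∧ ∃ G : Finset Ω,
          (∀ x ∈ G, x ∈ Algebra.adjoin Λ (A : Set Ω) ∧ v.Ge (v g) x) ∧
          N.R = locv v (Algebra.adjoin Λ ((A : Set Ω) ∪ (fun x => x / g) '' (G : Set Ω))) ∧
          ∀ t ∈ T, N.MonoPos t

/-- The values of `ϖ` and of the `x_i`. -/
noncomputable def cv (ϖ : Λ) (v : RVal Ω) {m : ℕ} (x : Fin m → Ω) : Fin (m + 1) → ℝ :=
  Fin.cons (v (algebraMap Λ Ω ϖ)) fun i => v (x i)

/-- `f` is a quotient of elements of `R`. -/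
def Quo (R : Subalgebra Λ Ω) (f : Ω) : Prop := ∃ a ∈ R, ∃ b ∈ R, b ≠ 0 ∧ f = a / b

end

section Eval

variable {Λ Q Ω : Type u} [CommRing Λ] [IsDomain Λ] [IsDiscreteValuationRing Λ] [Field Q]
  [Field Ω] [Algebra Λ Ω] [Algebra Q Ω] {v : RVal Ω} {r : ℕ}

open Pool.Agent.LU1 (Ev)

/-- The data of an evaluation at `t = c` of the ring of the frame `N`: `F` generates the ring,
`e f` is the value of `f ∈ F` at `t = c`. -/
structure EvD (N : WN Λ v r) (K : IntermediateField Q Ω) (t c : Ω) (F : Finset Ω) (e : Ω → Ω) :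
    Prop where
  cK : c ∈ K
  R : N.R = locv v (Algebra.adjoin Λ (F : Set Ω))
  x_mem : ∀ i, N.x i ∈ F
  y_mem : N.y ∈ F
  ev : ∀ f ∈ F, Ev K t c f (e f)
  near : ∀ f ∈ F, VPos v (f - e f)
  x_ne : ∀ i, e (N.x i) ≠ 0
  x_val : ∀ i, v (e (N.x i)) = v (N.x i)
  y_ne : e N.y ≠ 0
  y_val : v (e N.y) = v N.y

end Eval

end Pool.Agent.LUD
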