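import Pool.Agent.Lib.LUD.Defs

/-! # Row E1: independent values

Recipe. `algInd_of_val`: for a non-zero `P : MvPolynomial (Fin n) R` the terms of `P(x)` have values
in the distinct cosets `∑ m_i w(x_i) + W`, so they are distinct, and the value of the sum is the
least one; in particular `P(x) ≠ 0`.
`exchange` (Steinitz): if for every `i` the family without `Y_i` together with `a` were dependent,
`a` would be in the span of every `n` of the independent `Y_i`, so `a = 0`.
`rank_le`: if `n ≥ r + 2`, `exchange` for `r + 2` of the `Y_i` and `a := v(ϖ) ≠ 0` gives `r + 1` of them which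
are independent together with `v(ϖ)`; by `algInd_of_val` with `R := Λ`, `W := ℚ v(ϖ)` (a non-zero
element of `Λ` is a unit times `ϖ ^ k`, units have value zero) they are algebraically
independent over `Λ`, so `r + 1 ≤ trdeg = r`.
-/

set_option autoImplicit false

open Polynomial

namespace Pool.Agent.LUD

open Pool.Agent.LUM
open Pool.Agent.H15JM (RVal)
open Pool.Agent.LU1 (VPos val_add_vpos adj Ev)

universe u

private theorem sum_val {L : Type u} [Field L] (w : RVal L) {ι : Type*} (s : Finset ι)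
    (hs : s.Nonempty) (f : ι → L) (hf : ∀ i ∈ s, f i ≠ 0)
    (hinj : ∀ i ∈ s, ∀ j ∈ s, w (f i) = w (f j) → i = j) :
    ∃ i ∈ s, ∑ j ∈ s, f j ≠ 0 ∧ w (∑ j ∈ s, f j) = w (f i) := by
  classical
  induction hs using Finset.Nonempty.cons_induction with
  | singleton a =>
    refine ⟨a, Finset.mem_singleton_self a, ?_, ?_⟩
    · rw [Finset.sum_singleton]
      exact hf a (Finset.mem_singleton_self a)
    · rw [Finset.sum_singleton]
  | cons a s ha hs ih =>
    obtain ⟨i, hi, h1, h2⟩ := ih (fun i hi => hf i (Finset.mem_cons_of_mem hi))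
      (fun i hi j hj => hinj i (Finset.mem_cons_of_mem hi) j (Finset.mem_cons_of_mem hj))
    have hfa := hf a (Finset.mem_cons_self a s)
    have hne : w (f a) ≠ w (f i) := by
      intro h
      have := hinj a (Finset.mem_cons_self a s) i (Finset.mem_cons_of_mem hi) h
      subst this
      exact ha hi
    rw [Finset.sum_cons]
    rcases lt_or_gt_of_ne hne with h | h
    · have h3 := w.add_of_lt hfa h1 (by rw [h2]; exact h)
      exact ⟨a, Finset.mem_cons_self a s, h3.1, h3.2⟩
    · have h3 := w.add_of_lt h1 hfa (by rw [h2]; exact h)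
      rw [add_comm]
      exact ⟨i, Finset.mem_cons_of_mem hi, h3.1, h3.2.trans h2⟩

theorem algInd_of_val {R L : Type u} [CommRing R] [Field L] [Algebra R L]
    (hinj : Function.Injective (algebraMap R L)) (w : RVal L) (W : Submodule ℚ ℝ)
    (hW : ∀ c : R, c ≠ 0 → w (algebraMap R L c) ∈ W) {n : ℕ} (x : Fin n → L)
    (hx0 : ∀ i, x i ≠ 0) (hind : ∀ m : Fin n → ℤ, ∑ i, (m i : ℝ) * w (x i) ∈ W → m = 0) :
    AlgebraicIndependent R x := by
  classical
  rw [algebraicIndependent_iff]
  intro p hp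
  by_contra hp0
  have hs : p.support.Nonempty := MvPolynomial.support_nonempty.2 hp0
  have hc : ∀ m ∈ p.support, algebraMap R L (p.coeff m) ≠ 0 := by
    intro m hm h
    exact MvPolynomial.mem_support_iff.1 hm (hinj (by rw [h, map_zero]))
  have hx : ∀ m : Fin n →₀ ℕ, ∏ i, x i ^ m i ≠ 0 := fun m =>
    Finset.prod_ne_zero_iff.2 fun i _ => pow_ne_zero _ (hx0 i)
  have hval : ∀ m ∈ p.support, w (algebraMap R L (p.coeff m) * ∏ i, x i ^ m i) =
      w (algebraMap R L (p.coeff m)) + ∑ i, (m i : ℝ) * w (x i) := by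
    intro m hm
    rw [w.map_mul (hc m hm) (hx m), w.map_prod _ _ (fun i _ => pow_ne_zero _ (hx0 i))]
    congr 1
    exact Finset.sum_congr rfl fun i _ => w.map_pow (hx0 i) _
  obtain ⟨m, -, h1, -⟩ := sum_val w p.support hs
    (fun m => algebraMap R L (p.coeff m) * ∏ i, x i ^ m i)
    (fun m hm => mul_ne_zero (hc m hm) (hx m)) (by
      intro m hm m' hm' h
      rw [hval m hm, hval m' hm'] at h
      have h2 : ∑ i, (((m i : ℤ) - (m' i : ℤ) : ℤ) : ℝ) * w (x i) ∈ W := by
        have h3 : ∑ i, (((m i : ℤ) - (m' i : ℤ) : ℤ) : ℝ) * w (x i) =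
            w (algebraMap R L (p.coeff m')) - w (algebraMap R L (p.coeff m)) := by
          have h4 : ∑ i, (((m i : ℤ) - (m' i : ℤ) : ℤ) : ℝ) * w (x i) =
              ∑ i, (m i : ℝ) * w (x i) - ∑ i, (m' i : ℝ) * w (x i) := by
            rw [← Finset.sum_sub_distrib]
            refine Finset.sum_congr rfl fun i _ => ?_
            push_cast
            ring
          rw [h4]
          linarith
        rw [h3]
        exact W.sub_mem (hW _ (MvPolynomial.mem_support_iff.1 hm'))
          (hW _ (MvPolynomial.mem_support_iff.1 hm))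
      have h5 := hind _ h2
      ext i
      have h6 := congrFun h5 i
      simp only [Pi.zero_apply] at h6
      omega)
  apply h1
  rw [MvPolynomial.aeval_def, MvPolynomial.eval₂_eq'] at hp
  exact hp

theorem exchange {n : ℕ} (Y : Fin (n + 1) → ℝ) (hY : LinearIndependent ℚ Y) {a : ℝ}
    (ha : a ≠ 0) : ∃ i : Fin (n + 1), LinearIndependent ℚ
      (Fin.cons a (fun j => Y (i.succAbove j)) : Fin (n + 1) → ℝ) := by
  by_contra hcon
  push Not at hcon
  have h1 : ∀ i : Fin (n + 1), ∃ c : Fin (n + 1) → ℚ, c i = 0 ∧ ∑ k, c k • Y k = a := by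
    intro i
    have h2 := hcon i
    rw [linearIndependent_finCons] at h2
    have h3 : a ∈ Submodule.span ℚ (Set.range fun j => Y (i.succAbove j)) := by
      by_contra h4
      exact h2 ⟨hY.comp _ Fin.succAbove_right_injective, h4⟩
    obtain ⟨c, hc⟩ := (Submodule.mem_span_range_iff_exists_fun ℚ).1 h3
    refine ⟨i.insertNth 0 c, Fin.insertNth_apply_same _ _ _, ?_⟩
    rw [Fin.sum_univ_succAbove _ i]
    simp only [Fin.insertNth_apply_same, Fin.insertNth_apply_succAbove, zero_smul, zero_add]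
    exact hc
  choose c hc0 hc using h1
  have h2 : ∀ i k, c i k = c 0 k := by
    intro i k
    have h3 := Fintype.linearIndependent_iff.1 hY (fun k => c i k - c 0 k) (by
      simp only [sub_smul, Finset.sum_sub_distrib]
      rw [hc, hc, sub_self]) k
    exact sub_eq_zero.1 h3
  apply ha
  rw [← hc 0]
  refine Finset.sum_eq_zero fun k _ => ?_
  rw [← h2 k k, hc0, zero_smul]

/-- The standing assumptions on `K`. -/
structure Real0 {Λ : Type u} [CommRing Λ] [IsDomain Λ] [IsDiscreteValuationRing Λ] (ϖ : Λ)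
    {K : Type u} [Field K] [Algebra Λ K] (v : RVal K) : Prop where
  irr : Irreducible ϖ
  inj : Function.Injective (algebraMap Λ K)
  ge : ∀ c : Λ, v.Ge 0 (algebraMap Λ K c)
  pos : 0 < v (algebraMap Λ K ϖ)

private theorem val_const {Λ K : Type u} [CommRing Λ] [IsDomain Λ] [IsDiscreteValuationRing Λ]
    [Field K] [Algebra Λ K] {ϖ : Λ} {v : RVal K} (h : Real0 ϖ v) (c : Λ) (hc : c ≠ 0) :
    v (algebraMap Λ K c) ∈ Submodule.span ℚ {v (algebraMap Λ K ϖ)} := by
  obtain ⟨k, u, hu⟩ := IsDiscreteValuationRing.associated_pow_irreducible hc h.irr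
  have hmap : ∀ z : Λ, z ≠ 0 → algebraMap Λ K z ≠ 0 := fun z hz h0 =>
    hz (h.inj (by rw [h0, map_zero]))
  have hu0 : (u : Λ) ≠ 0 := u.ne_zero
  have hu1 : ((u⁻¹ : Λˣ) : Λ) ≠ 0 := (u⁻¹).ne_zero
  have h1 : 0 ≤ v (algebraMap Λ K (u : Λ)) := h.ge _ (hmap _ hu0)
  have h2 : 0 ≤ v (algebraMap Λ K ((u⁻¹ : Λˣ) : Λ)) := h.ge _ (hmap _ hu1)
  have h3 : v (algebraMap Λ K (u : Λ)) + v (algebraMap Λ K ((u⁻¹ : Λˣ) : Λ)) = 0 := by
    rw [← v.map_mul (hmap _ hu0) (hmap _ hu1), ← map_mul, Units.mul_inv, map_one, v.map_one]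
  have h4 : v (algebraMap Λ K (u : Λ)) = 0 := by linarith
  have h5 : v (algebraMap Λ K c) = (k : ℝ) * v (algebraMap Λ K ϖ) := by
    have h6 : v (algebraMap Λ K (c * u)) = v (algebraMap Λ K (ϖ ^ k)) := by rw [hu]
    rw [map_mul, v.map_mul (hmap _ hc) (hmap _ hu0), h4, add_zero, map_pow,
      v.map_pow (hmap _ h.irr.ne_zero)] at h6
    exact h6
  rw [h5]
  have h7 : (k : ℝ) * v (algebraMap Λ K ϖ) = (k : ℚ) • v (algebraMap Λ K ϖ) := by
    rw [Rat.smul_def]
    push_cast
    rfl
  rw [h7]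
  exact Submodule.smul_mem _ _ (Submodule.mem_span_singleton_self _)

private theorem algInd_cv {Λ K : Type u} [CommRing Λ] [IsDomain Λ] [IsDiscreteValuationRing Λ]
    [Field K] [Algebra Λ K] {ϖ : Λ} {v : RVal K} (h : Real0 ϖ v) {m : ℕ} (x : Fin m → K)
    (hx0 : ∀ i, x i ≠ 0)
    (hx : LinearIndependent ℚ (Fin.cons (v (algebraMap Λ K ϖ)) (fun j => v (x j)) :
      Fin (m + 1) → ℝ)) : AlgebraicIndependent Λ x := by
  refine algInd_of_val h.inj v (Submodule.span ℚ {v (algebraMap Λ K ϖ)}) (val_const h) x hx0 ?_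
  intro m' hm'
  obtain ⟨q, hq⟩ := Submodule.mem_span_singleton.1 hm'
  have h1 := Fintype.linearIndependent_iff.1 hx (Fin.cons (-q) (fun i => (m' i : ℚ))) (by
    rw [Fin.sum_univ_succ]
    simp only [Fin.cons_zero, Fin.cons_succ]
    rw [neg_smul, hq, neg_add_eq_zero]
    refine Finset.sum_congr rfl fun i _ => ?_
    rw [Rat.smul_def]
    push_cast
    rfl)
  funext i
  have h2 := h1 i.succ
  simp only [Fin.cons_succ] at h2
  exact_mod_cast h2

theorem rank_le {Λ K : Type u} [CommRing Λ] [IsDomain Λ] [IsDiscreteValuationRing Λ] [Field K]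
    [Algebra Λ K] {ϖ : Λ} {v : RVal K} (h : Real0 ϖ v) {r : ℕ}
    (htr : Algebra.trdeg Λ K = r) {n : ℕ} (Y : Fin n → K) (hY0 : ∀ i, Y i ≠ 0)
    (hY : LinearIndependent ℚ fun i => v (Y i)) : n ≤ r + 1 := by
  by_contra hcon
  push Not at hcon
  have hn : r + 1 + 1 ≤ n := hcon
  obtain ⟨i, hi⟩ := exchange (fun j : Fin (r + 1 + 1) => v (Y (Fin.castLE hn j)))
    (hY.comp _ (Fin.castLE_injective hn)) h.pos.ne'
  have h1 := algInd_cv h (fun j => Y (Fin.castLE hn (i.succAbove j))) (fun j => hY0 _) hi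
  have h2 := h1.lift_cardinalMk_le_trdeg
  rw [htr] at h2
  simp only [Cardinal.mk_fin, Cardinal.lift_natCast] at h2
  have h3 : r + 1 ≤ r := by exact_mod_cast h2
  omega

/-- `r` elements whose values are independent together with the value of `ϖ`; they are a
transcendence basis. -/
theorem exists_basis {Λ K : Type u} [CommRing Λ] [IsDomain Λ] [IsDiscreteValuationRing Λ] [Field K]
    [Algebra Λ K] {ϖ : Λ} {v : RVal K} (h : Real0 ϖ v) {r : ℕ}
    (htr : Algebra.trdeg Λ K = r) (Y : Fin (r + 1) → K) (hY0 : ∀ i, Y i ≠ 0)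
    (hY : LinearIndependent ℚ fun i => v (Y i)) :
    ∃ x : Fin r → K, (∀ i, x i ≠ 0) ∧ (∀ i, 0 < v (x i)) ∧ LinearIndependent ℚ (cv ϖ v x) ∧
      AlgebraicIndependent Λ x ∧ ∀ g : K, IsAlgebraic (Algebra.adjoin Λ (Set.range x)) g := by
  classical
  obtain ⟨i, hi⟩ := exchange (fun j => v (Y j)) hY h.pos.ne'
  have hne : ∀ j, v (Y (i.succAbove j)) ≠ 0 := by
    intro j h0
    have h1 := hi.ne_zero j.succ
    rw [Fin.cons_succ] at h1
    exact h1 h0
  let x : Fin r → K := fun j => if 0 < v (Y (i.succAbove j)) then Y (i.succAbove j)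
    else (Y (i.succAbove j))⁻¹
  have hx0 : ∀ j, x j ≠ 0 := by
    intro j
    simp only [x]
    split_ifs
    · exact hY0 _
    · exact inv_ne_zero (hY0 _)
  have hxv : ∀ j, v (x j) = (if 0 < v (Y (i.succAbove j)) then (1 : ℚˣ) else -1) •
      v (Y (i.succAbove j)) := by
    intro j
    simp only [x]
    split_ifs
    · rw [one_smul]
    · rw [v.map_inv (hY0 _), Units.neg_smul, one_smul]
  have hpos : ∀ j, 0 < v (x j) := by
    intro j
    rw [hxv j]
    split_ifs with h0
    · rw [one_smul]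
      exact h0
    · rw [Units.neg_smul, one_smul]
      have h1 := hne j
      have h2 : v (Y (i.succAbove j)) < 0 := lt_of_le_of_ne (not_lt.1 h0) h1
      linarith
  have hli : LinearIndependent ℚ (cv ϖ v x) := by
    have h1 := hi.units_smul (Fin.cons 1 (fun j =>
      if 0 < v (Y (i.succAbove j)) then (1 : ℚˣ) else -1) : Fin (r + 1) → ℚˣ)
    have h2 : cv ϖ v x = (Fin.cons 1 (fun j =>
      if 0 < v (Y (i.succAbove j)) then (1 : ℚˣ) else -1) : Fin (r + 1) → ℚˣ) •
        (Fin.cons (v (algebraMap Λ K ϖ)) (fun j => v (Y (i.succAbove j))) :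
          Fin (r + 1) → ℝ) := by
      funext k
      refine Fin.cases ?_ (fun j => ?_) k
      · simp only [cv, Pi.smul_apply', Fin.cons_zero, one_smul]
      · simp only [cv, Pi.smul_apply', Fin.cons_succ]
        exact hxv j
    rw [h2]
    exact h1
  have hai := algInd_cv h x hx0 hli
  refine ⟨x, hx0, hpos, hli, hai, ?_⟩
  have htb : IsTranscendenceBasis Λ x := by
    refine hai.isTranscendenceBasis_of_lift_trdeg_le_of_finite ?_
    rw [htr]
    simp
  have := htb.isAlgebraic
  intro g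
  exact Algebra.IsAlgebraic.isAlgebraic g

end Pool.Agent.LUD
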