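import Pool.Agent.Lib.LUD.E1
import Pool.Agent.Lib.LU2_h15z.ValB

/-! # Row E2: the lacunary series is transcendental over `Λ[x]`

Recipe. As `lac_transcendental` in LU2_h15z/ValB.lean, but `v` is not trivial on `Λ`.  Let
`x, ϖ` have independent values (`hind`), `w x > 0`.  Then for `R = ∑ c_i X^i ∈ Λ[X]` non-zero
`w (R(x)) = min_i (w(c_i) + i w(x)) ≤ w(c_i) + i w(x)` for every `i` with `c_i ≠ 0` (the values of the terms are
distinct).  Suppose `P(t) = 0`, `P = ∑_{i ≤ D} p_i T^i`, `p_i ∈ Λ[X]`, `p_D ≠ 0`.  For large `N`,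
`P(lac X N) ∈ Λ[X]` has the leading term `lc(p_D) X ^ (deg p_D + D N!)` (`lac X N` is monic of degree
`N!` for `N ≥ 2`, see `natDegree_lac`; assume `N! > M := max deg p_i`), so it is non-zero and
`w (P(lac x N)) ≤ w(lc p_D) + (M + D N!) w(x)`.  On the other hand `P(lac x N) = P(lac x N) - P(t)` has
value at least `(N + 1)! w(x)` (`ge_eval_sub`: all the coefficients and `t`, `lac x N` have value `≥ 0`).
For large `N` this is a contradiction.
-/

set_option autoImplicit false

open Polynomial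

namespace Pool.Agent.LUD

open Pool.Agent.LUM
open Pool.Agent.H15JM (RVal)
open Pool.Agent.LU1 (VPos val_add_vpos adj Ev)

universe u

/-- a non-empty sum of elements with distinct values -/
private theorem sum_distinct {L : Type*} [Field L] (w : RVal L) {ι : Type*} (f : ι → L)
    (s : Finset ι) (hs : s.Nonempty) (hf : ∀ i ∈ s, f i ≠ 0)
    (hinj : ∀ i ∈ s, ∀ j ∈ s, w (f i) = w (f j) → i = j) :
    ∑ i ∈ s, f i ≠ 0 ∧ (∃ i ∈ s, w (∑ i ∈ s, f i) = w (f i)) ∧
      ∀ j ∈ s, w (∑ i ∈ s, f i) ≤ w (f j) := by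
  classical
  induction s using Finset.induction_on with
  | empty => exact absurd hs (by simp)
  | insert a s ha ih =>
    by_cases h0 : s.Nonempty
    · obtain ⟨h1, ⟨i, hi, h2⟩, hmin⟩ := ih h0 (fun i hi => hf i (Finset.mem_insert_of_mem hi))
        (fun i hi j hj => hinj i (Finset.mem_insert_of_mem hi) j (Finset.mem_insert_of_mem hj))
      have ha0 : f a ≠ 0 := hf a (Finset.mem_insert_self a s)
      have hne : w (f a) ≠ w (f i) := by
        intro h3
        have := hinj a (Finset.mem_insert_self a s) i (Finset.mem_insert_of_mem hi) h3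
        exact ha (this ▸ hi)
      rw [Finset.sum_insert ha]
      rcases lt_or_gt_of_ne hne with h3 | h3
      · obtain ⟨h4, h5⟩ := w.add_of_lt ha0 h1 (by rw [h2]; exact h3)
        refine ⟨h4, ⟨a, Finset.mem_insert_self a s, h5⟩, fun j hj => ?_⟩
        rw [h5]
        rcases Finset.mem_insert.1 hj with rfl | hj
        · exact le_rfl
        · exact h3.le.trans (h2 ▸ hmin j hj)
      · obtain ⟨h4, h5⟩ := w.add_of_lt h1 ha0 (by rw [h2]; exact h3)
        rw [add_comm]
        refine ⟨h4, ⟨i, Finset.mem_insert_of_mem hi, h5.trans h2⟩, fun j hj => ?_⟩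
        rw [h5]
        rcases Finset.mem_insert.1 hj with rfl | hj
        · rw [h2]; exact h3.le
        · exact hmin j hj
    · rw [Finset.not_nonempty_iff_eq_empty] at h0
      subst h0
      rw [Finset.sum_insert ha, Finset.sum_empty, add_zero]
      refine ⟨hf a (Finset.mem_insert_self a _), ⟨a, Finset.mem_insert_self a _, rfl⟩, ?_⟩
      intro j hj
      rcases Finset.mem_insert.1 hj with rfl | hj
      · exact le_rfl
      · simp at hj

/-- the value of a non-zero constant -/
private theorem val_const {Λ K : Type u} [CommRing Λ] [IsDomain Λ] [IsDiscreteValuationRing Λ]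
    [Field K] [Algebra Λ K] {ϖ : Λ} {v : RVal K} (h : Real0 ϖ v) {c : Λ} (hc : c ≠ 0) :
    ∃ n : ℕ, v (algebraMap Λ K c) = n * v (algebraMap Λ K ϖ) := by
  obtain ⟨n, u, hu⟩ := IsDiscreteValuationRing.eq_unit_mul_pow_irreducible hc h.irr
  have hne : ∀ a : Λ, a ≠ 0 → algebraMap Λ K a ≠ 0 := fun a ha h0 =>
    ha (h.inj (by rw [h0, map_zero]))
  have hu0 : v (algebraMap Λ K (u : Λ)) = 0 := by
    have h1 : 0 ≤ v (algebraMap Λ K (u : Λ)) := h.ge _ (hne _ u.ne_zero)
    have h2 : 0 ≤ v (algebraMap Λ K ((u⁻¹ : Λˣ) : Λ)) := h.ge _ (hne _ (u⁻¹).ne_zero)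
    have h3 : v (algebraMap Λ K (u : Λ) * algebraMap Λ K ((u⁻¹ : Λˣ) : Λ)) = 0 := by
      rw [← map_mul, Units.mul_inv, map_one, v.map_one]
    rw [v.map_mul (hne _ u.ne_zero) (hne _ (u⁻¹).ne_zero)] at h3
    linarith
  refine ⟨n, ?_⟩
  rw [hu, map_mul, map_pow, v.map_mul (hne _ u.ne_zero) (pow_ne_zero _ (hne _ h.irr.ne_zero)),
    v.map_pow (hne _ h.irr.ne_zero), hu0, zero_add]

/-- The value of a non-zero polynomial in `x` is at most that of each term. -/
private theorem val_poly {Λ L : Type u} [CommRing Λ] [IsDomain Λ] [IsDiscreteValuationRing Λ]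
    [Field L] [Algebra Λ L] {ϖ : Λ} {w : RVal L} (h : Real0 ϖ w) {x : L} (hx0 : x ≠ 0)
    (hind : ∀ a b : ℤ, (a : ℝ) * w (algebraMap Λ L ϖ) + b * w x = 0 → a = 0 ∧ b = 0)
    (P : Λ[X]) {e : ℕ} (he : P.coeff e ≠ 0) :
    aeval x P ≠ 0 ∧ w (aeval x P) ≤ w (algebraMap Λ L (P.coeff e)) + e * w x := by
  classical
  have hne : ∀ a : Λ, a ≠ 0 → algebraMap Λ L a ≠ 0 := fun a ha h0 =>
    ha (h.inj (by rw [h0, map_zero]))
  have hval : ∀ i ∈ P.support, ∃ a : ℕ,
      w (algebraMap Λ L (P.coeff i) * x ^ i) = a * w (algebraMap Λ L ϖ) + i * w x := by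
    intro i hi
    obtain ⟨a, ha⟩ := val_const h (Polynomial.mem_support_iff.1 hi)
    refine ⟨a, ?_⟩
    rw [w.map_mul (hne _ (Polynomial.mem_support_iff.1 hi)) (pow_ne_zero _ hx0), ha,
      w.map_pow hx0]
  have hsum : aeval x P = ∑ i ∈ P.support, algebraMap Λ L (P.coeff i) * x ^ i := by
    rw [Polynomial.aeval_def, Polynomial.eval₂_eq_sum, Polynomial.sum_def]
  have hes : e ∈ P.support := Polynomial.mem_support_iff.2 he
  obtain ⟨h1, -, h2⟩ := sum_distinct w (fun i => algebraMap Λ L (P.coeff i) * x ^ i) P.support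
    ⟨e, hes⟩
    (fun i hi => mul_ne_zero (hne _ (Polynomial.mem_support_iff.1 hi)) (pow_ne_zero _ hx0))
    (by
      intro i hi j hj hij
      obtain ⟨a, ha⟩ := hval i hi
      obtain ⟨b, hb⟩ := hval j hj
      rw [ha, hb] at hij
      have := (hind (a - b) (i - j) (by push_cast; linarith)).2
      omega)
  rw [hsum]
  refine ⟨h1, (h2 e hes).trans ?_⟩
  rw [w.map_mul (hne _ he) (pow_ne_zero _ hx0), w.map_pow hx0]

private theorem natDegree_lac_le' {A : Type*} [CommRing A] [Nontrivial A] (n : ℕ) :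
    (LU2.lac (X : A[X]) n).natDegree ≤ n.factorial := by
  refine Polynomial.natDegree_sum_le_of_forall_le _ _ fun j hj => ?_
  rw [natDegree_X_pow]
  exact Nat.factorial_le (Finset.mem_range.1 hj)

private theorem lac_monic {A : Type*} [CommRing A] [Nontrivial A] (n : ℕ) :
    (LU2.lac (X : A[X]) (n + 2)).natDegree = (n + 2).factorial ∧
      (LU2.lac (X : A[X]) (n + 2)).Monic := by
  have h1 : (LU2.lac (X : A[X]) (n + 1)).natDegree <
      ((X : A[X]) ^ (n + 2).factorial).natDegree := by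
    rw [natDegree_X_pow]
    exact (natDegree_lac_le' (n + 1)).trans_lt ((Nat.factorial_lt (by omega)).2 (by omega))
  rw [LU2.lac_succ]
  constructor
  · rw [natDegree_add_eq_right_of_natDegree_lt h1, natDegree_X_pow]
  · rw [Monic, leadingCoeff_add_of_degree_lt (degree_lt_degree h1), leadingCoeff_X_pow]

theorem lac_transc0 {Λ L : Type u} [CommRing Λ] [IsDomain Λ] [IsDiscreteValuationRing Λ] [Field L]
    [Algebra Λ L] {ϖ : Λ} {w : RVal L} (h : Real0 ϖ w) {x : L} (hx0 : x ≠ 0) (hx : 0 < w x)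
    (hind : ∀ a b : ℤ, (a : ℝ) * w (algebraMap Λ L ϖ) + b * w x = 0 → a = 0 ∧ b = 0) {t : L}
    (ht : ∀ n, w.Ge (((n + 1).factorial : ℝ) * w x) (t - LU2.lac x n)) :
    Transcendental (Algebra.adjoin Λ {x}) t := by
  classical
  rintro ⟨Q, hQ0, hQ⟩
  -- lift the coefficients
  have hex : ∀ i, ∃ R : Λ[X], aeval x R = (Q.coeff i : L) := by
    intro i
    have h1 : ∀ z ∈ Algebra.adjoin Λ {x}, ∃ R : Λ[X], aeval x R = z := by
      intro z hz
      rw [Algebra.adjoin_singleton_eq_range_aeval] at hz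
      exact hz
    exact h1 _ (Q.coeff i).2
  choose p hp using hex
  set D := Q.natDegree with hD
  let M := (Finset.range (D + 1)).sup fun i => (p i).natDegree
  have hpD : p D ≠ 0 := by
    intro h1
    have h2 := hp D
    rw [h1, map_zero] at h2
    have h3 : Q.leadingCoeff = 0 := Subtype.ext h2.symm
    exact hQ0 (Polynomial.leadingCoeff_eq_zero.1 h3)
  have hQe : ∀ l : L, aeval l Q = ∑ i ∈ Finset.range (D + 1), aeval x (p i) * l ^ i := by
    intro l
    rw [Polynomial.aeval_eq_sum_range]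
    refine Finset.sum_congr rfl fun i _ => ?_
    rw [hp, Algebra.smul_def]
    rfl
  -- values
  have hxn : ∀ i : ℕ, w.Ge 0 (x ^ i) := fun i _ => by rw [w.map_pow hx0]; positivity
  have hnn : ∀ R : Λ[X], w.Ge 0 (aeval x R) := by
    intro R
    rw [Polynomial.aeval_eq_sum_range]
    refine RVal.Ge.sum _ _ fun i _ => ?_
    rw [Algebra.smul_def]
    simpa using (h.ge _).mul (hxn i)
  have hcn : ∀ n, w.Ge 0 (LU2.lac x n) := fun n => RVal.Ge.sum _ _ fun i _ => hxn _
  have htn : w.Ge 0 t := by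
    have h1 := ht 0
    have h2 : LU2.lac x 0 = 0 := by simp [LU2.lac]
    rw [h2, sub_zero] at h1
    exact h1.mono (by positivity)
  -- a large index
  set c : Λ := (p D).leadingCoeff with hc
  have hc0 : c ≠ 0 := Polynomial.leadingCoeff_ne_zero.2 hpD
  obtain ⟨k, hk⟩ := exists_nat_gt (w (algebraMap Λ L c) / w x)
  rw [div_lt_iff₀ hx] at hk
  obtain ⟨n, hn⟩ : ∃ n, n = k + M + D := ⟨_, rfl⟩
  obtain ⟨hdeg, hmon⟩ := lac_monic (A := Λ) n
  set N := n + 2 with hN
  set R : Λ[X] := ∑ i ∈ Finset.range (D + 1), p i * LU2.lac X N ^ i with hR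
  have hNf : N ≤ N.factorial := Nat.self_le_factorial N
  have hcoeff : R.coeff ((p D).natDegree + D * N.factorial) = c := by
    rw [hR, Polynomial.finsetSum_coeff, Finset.sum_range_succ]
    have h1 : (p D * LU2.lac X N ^ D).coeff ((p D).natDegree + D * N.factorial) = c := by
      have h2 : (LU2.lac (X : Λ[X]) N ^ D).natDegree = D * N.factorial := by
        rw [hmon.natDegree_pow, hdeg]
      rw [← h2, Polynomial.coeff_mul_degree_add_degree, (hmon.pow D).leadingCoeff, mul_one]
    rw [h1, Finset.sum_eq_zero, zero_add]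
    intro i hi
    have hi' : i < D := Finset.mem_range.1 hi
    refine Polynomial.coeff_eq_zero_of_natDegree_lt ?_
    have h2 : (p i * LU2.lac (X : Λ[X]) N ^ i).natDegree ≤ M + i * N.factorial := by
      refine Polynomial.natDegree_mul_le.trans (add_le_add ?_ ?_)
      · exact Finset.le_sup (f := fun i => (p i).natDegree)
          (Finset.mem_range.2 (by omega : i < D + 1))
      · exact Polynomial.natDegree_pow_le.trans (Nat.mul_le_mul le_rfl hdeg.le)
    refine h2.trans_lt ?_
    have h3 : (i + 1) * N.factorial ≤ D * N.factorial := Nat.mul_le_mul_right _ hi'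
    have h4 : (i + 1) * N.factorial = i * N.factorial + N.factorial := by ring
    omega
  obtain ⟨h1, h2⟩ := val_poly h hx0 hind R (e := (p D).natDegree + D * N.factorial)
    (by rw [hcoeff]; exact hc0)
  rw [hcoeff] at h2
  have h3 : aeval x R = ∑ i ∈ Finset.range (D + 1), aeval x (p i) * LU2.lac x N ^ i := by
    rw [hR, map_sum]
    refine Finset.sum_congr rfl fun i _ => ?_
    have h5 : aeval x (LU2.lac X N : Λ[X]) = LU2.lac x N := by
      rw [LU2.lac, LU2.lac, map_sum]
      exact Finset.sum_congr rfl fun j _ => by rw [map_pow, aeval_X]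
    rw [map_mul, map_pow, h5]
  have h4 := LU2.ge_eval_sub w (Finset.range (D + 1)) (fun i => aeval x (p i)) (fun i => i)
    (fun i _ => hnn _) htn (hcn N) (ht N)
  rw [← hQe, hQ, ← h3, zero_sub] at h4
  have h5 := h4 (neg_ne_zero.2 h1)
  rw [w.map_neg _ h1] at h5
  have h6 : ((N + 1).factorial : ℝ) * w x <
      ((k + ((p D).natDegree + D * N.factorial) : ℕ) : ℝ) * w x := by
    push_cast at h2 ⊢
    linarith
  have h7 : ((N + 1).factorial : ℝ) < ((k + ((p D).natDegree + D * N.factorial) : ℕ) : ℝ) :=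
    lt_of_mul_lt_mul_right h6 hx.le
  have h8 : (N + 1).factorial < k + ((p D).natDegree + D * N.factorial) := by exact_mod_cast h7
  have hM : (p D).natDegree ≤ M := Finset.le_sup (f := fun i => (p i).natDegree)
    (Finset.mem_range.2 (by omega : D < D + 1))
  rw [Nat.factorial_succ] at h8
  have h10 : (k + M + D) * N.factorial ≤ (N + 1) * N.factorial :=
    Nat.mul_le_mul_right _ (by omega)
  have h11 : k + M ≤ (k + M) * N.factorial := Nat.le_mul_of_pos_right _ (Nat.factorial_pos N)
  have h12 : (k + M + D) * N.factorial = (k + M) * N.factorial + D * N.factorial := by ring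
  omega

end Pool.Agent.LUD
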