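import Pool.Agent.Lib.LUD.E2
import Pool.Agent.Lib.LU2_h15z.ZeroB

/-! # Row E3: the lacunary series is transcendental over `K`

Recipe. Suppose `t` is algebraic over `K`; `M := K(t) ⊆ L` has transcendence degree `r + 1` over `Λ`
(`Algebra.trdeg`, algebraic extension).  Let `x_0' := x_0`, `S := Λ[x_0, t]`.  By row E2 (for
the images in `L`) and `x_0` transcendental over `Λ` (`algInd_of_val`, `n = 1`) the pair `(x_0, t)` is
algebraically independent over `Λ` (`AlgebraicIndependent.option_iff_transcendental` or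
`algebraicIndependent_...`, see `transc_over` in LU2_h15z/ValC.lean).  Every non-zero `s ∈ S` has its value in
`W := ℚ v(ϖ) + ℚ v(x_0)`: `s = P(x_0, t)` and `P(x_0, lac n)` is near to `s` for large `n` (a polynomial is
continuous: `NearF.aeval`, or `ge_eval_sub`), non-zero of the same value, and it is a polynomial in `x_0`
over `Λ`, whose value is that of one of its terms.  The values of `x_1, .., x_r` are
independent modulo `W` (`hind`), so `x_1, .., x_r` are algebraically independent over `S` (`algInd_of_val`), and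
`x_0, t, x_1, .., x_r` over `Λ` (`AlgebraicIndependent.sumElim` or similar): `r + 2` elements of `M`, a
contradiction with `trdeg = r + 1`.  (For `r = 0` the last step is not needed.)
-/

set_option autoImplicit false

open Polynomial

namespace Pool.Agent.LUD

open Pool.Agent.LUM
open Pool.Agent.H15JM (RVal)
open Pool.Agent.LU1 (VPos val_add_vpos adj Ev)

universe u

/-- a non-empty sum of elements with distinct values -/
private theorem sum_distinct {L : Type*} [Field L] (w : RVal L) {ι : Type*} (f : ι → L)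
    (s : Finset ι) (hs : s.Nonempty) (hf : ∀ i ∈ s, f i ≠ 0)
    (hinj : ∀ i ∈ s, ∀ j ∈ s, w (f i) = w (f j) → i = j) :
    ∑ i ∈ s, f i ≠ 0 ∧ ∃ i ∈ s, w (∑ i ∈ s, f i) = w (f i) := by
  classical
  induction s using Finset.induction_on with
  | empty => exact absurd hs (by simp)
  | insert a s ha ih =>
    by_cases h0 : s.Nonempty
    · obtain ⟨h1, i, hi, h2⟩ := ih h0 (fun i hi => hf i (Finset.mem_insert_of_mem hi))
        (fun i hi j hj => hinj i (Finset.mem_insert_of_mem hi) j (Finset.mem_insert_of_mem hj))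
      have ha0 : f a ≠ 0 := hf a (Finset.mem_insert_self a s)
      have hne : w (f a) ≠ w (f i) := by
        intro h3
        have := hinj a (Finset.mem_insert_self a s) i (Finset.mem_insert_of_mem hi) h3
        exact ha (this ▸ hi)
      rw [Finset.sum_insert ha]
      rcases lt_or_gt_of_ne hne with h3 | h3
      · obtain ⟨h4, h5⟩ := w.add_of_lt ha0 h1 (by rw [h2]; exact h3)
        exact ⟨h4, a, Finset.mem_insert_self a s, h5⟩
      · obtain ⟨h4, h5⟩ := w.add_of_lt h1 ha0 (by rw [h2]; exact h3)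
        rw [add_comm]
        exact ⟨h4, i, Finset.mem_insert_of_mem hi, h5.trans h2⟩
    · rw [Finset.not_nonempty_iff_eq_empty] at h0
      subst h0
      rw [Finset.sum_insert ha, Finset.sum_empty, add_zero]
      exact ⟨hf a (Finset.mem_insert_self a _), a, Finset.mem_insert_self a _, rfl⟩

/-- the value of a non-zero constant -/
private theorem val_const {Λ K : Type u} [CommRing Λ] [IsDomain Λ] [IsDiscreteValuationRing Λ]
    [Field K] [Algebra Λ K] {ϖ : Λ} {v : RVal K} (h : Real0 ϖ v) {c : Λ} (hc : c ≠ 0) :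
    ∃ n : ℕ, v (algebraMap Λ K c) = n * v (algebraMap Λ K ϖ) := by
  obtain ⟨n, u, hu⟩ := IsDiscreteValuationRing.eq_unit_mul_pow_irreducible hc h.irr
  have hne : ∀ a : Λ, a ≠ 0 → algebraMap Λ K a ≠ 0 := fun a ha h0 =>
    ha (h.inj (by rw [h0, map_zero]))
  have hu0 : v (algebraMap Λ K (u : Λ)) = 0 := by
    have h1 : 0 ≤ v (algebraMap Λ K (u : Λ)) := h.ge _ (hne _ u.ne_zero)
    have h2 : 0 ≤ v (algebraMap Λ K ((u⁻¹ : Λˣ) : Λ)) := h.ge _ (hne _ (u⁻¹).ne_zero)
    have h3 : v (algebraMap Λ K (u : Λ) * algebraMap Λ K ((u⁻¹ : Λˣ) : Λ)) = 0 := by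
      rw [← map_mul, Units.mul_inv, map_one, v.map_one]
    rw [v.map_mul (hne _ u.ne_zero) (hne _ (u⁻¹).ne_zero)] at h3
    linarith
  refine ⟨n, ?_⟩
  rw [hu, map_mul, map_pow, v.map_mul (hne _ u.ne_zero) (pow_ne_zero _ (hne _ h.irr.ne_zero)),
    v.map_pow (hne _ h.irr.ne_zero), hu0, zero_add]

/-- The value of a non-zero polynomial in `x`. -/
private theorem val_poly {Λ L : Type u} [CommRing Λ] [IsDomain Λ] [IsDiscreteValuationRing Λ]
    [Field L] [Algebra Λ L] {ϖ : Λ} {w : RVal L} (h : Real0 ϖ w) {x : L} (hx0 : x ≠ 0)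
    (hind : ∀ a b : ℤ, (a : ℝ) * w (algebraMap Λ L ϖ) + b * w x = 0 → a = 0 ∧ b = 0)
    (P : Λ[X]) (hP : P ≠ 0) :
    aeval x P ≠ 0 ∧ ∃ a b : ℕ, w (aeval x P) = a * w (algebraMap Λ L ϖ) + b * w x := by
  classical
  have hne : ∀ a : Λ, a ≠ 0 → algebraMap Λ L a ≠ 0 := fun a ha h0 =>
    ha (h.inj (by rw [h0, map_zero]))
  have hval : ∀ i ∈ P.support, ∃ a : ℕ,
      w (algebraMap Λ L (P.coeff i) * x ^ i) = a * w (algebraMap Λ L ϖ) + i * w x := by
    intro i hi
    obtain ⟨a, ha⟩ := val_const h (Polynomial.mem_support_iff.1 hi)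
    refine ⟨a, ?_⟩
    rw [w.map_mul (hne _ (Polynomial.mem_support_iff.1 hi)) (pow_ne_zero _ hx0), ha,
      w.map_pow hx0]
  have hsum : aeval x P = ∑ i ∈ P.support, algebraMap Λ L (P.coeff i) * x ^ i := by
    rw [Polynomial.aeval_def, Polynomial.eval₂_eq_sum, Polynomial.sum_def]
  obtain ⟨h1, i, hi, h2⟩ := sum_distinct w (fun i => algebraMap Λ L (P.coeff i) * x ^ i) P.support
    (Polynomial.support_nonempty.2 hP)
    (fun i hi => mul_ne_zero (hne _ (Polynomial.mem_support_iff.1 hi)) (pow_ne_zero _ hx0))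
    (by
      intro i hi j hj hij
      obtain ⟨a, ha⟩ := hval i hi
      obtain ⟨b, hb⟩ := hval j hj
      rw [ha, hb] at hij
      have := (hind (a - b) (i - j) (by push_cast; linarith)).2
      omega)
  rw [hsum]
  obtain ⟨a, ha⟩ := hval i hi
  exact ⟨h1, a, i, h2.trans ha⟩

theorem lac_transc {Λ K L : Type u} [CommRing Λ] [IsDomain Λ] [IsDiscreteValuationRing Λ]
    [Field K] [Field L] [Algebra Λ K] [Algebra Λ L] [Algebra K L] [IsScalarTower Λ K L] {ϖ : Λ}
    {v : RVal K} (h : Real0 ϖ v) (w : RVal L)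
    (hw : ∀ f : K, f ≠ 0 → w (algebraMap K L f) = v f) {r : ℕ}
    (htr : Algebra.trdeg Λ K = ((r + 1 : ℕ) : Cardinal)) (x : Fin (r + 1) → K)
    (hx0 : ∀ i, x i ≠ 0) (hx : 0 < v (x 0)) (hind : LinearIndependent ℚ (cv ϖ v x)) {t : L}
    (ht : ∀ n, w.Ge (((n + 1).factorial : ℝ) * v (x 0))
      (t - LU2.lac (algebraMap K L (x 0)) n)) : Transcendental K t := by
  classical
  intro halg
  have hKL : Function.Injective (algebraMap K L) := (algebraMap K L).injective
  have hΛL : ∀ c : Λ, algebraMap Λ L c = algebraMap K L (algebraMap Λ K c) :=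
    fun c => IsScalarTower.algebraMap_apply Λ K L c
  have hneK : ∀ a : Λ, a ≠ 0 → algebraMap Λ K a ≠ 0 := fun a ha h0 =>
    ha (h.inj (by rw [h0, map_zero]))
  have hϖ : w (algebraMap Λ L ϖ) = v (algebraMap Λ K ϖ) := by
    rw [hΛL, hw _ (hneK _ h.irr.ne_zero)]
  have hL : Real0 ϖ w := by
    refine ⟨h.irr, ?_, ?_, ?_⟩
    · intro a b hab
      rw [hΛL, hΛL] at hab
      exact h.inj (hKL hab)
    · intro c h0
      rw [hΛL] at h0 ⊢
      have h1 : algebraMap Λ K c ≠ 0 := by
        intro h2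
        rw [h2, map_zero] at h0
        exact h0 rfl
      rw [hw _ h1]
      exact h.ge c h1
    · rw [hϖ]; exact h.pos
  set XL : L := algebraMap K L (x 0) with hXL
  have hXL0 : XL ≠ 0 := by rw [hXL]; exact (_root_.map_ne_zero _).2 (hx0 0)
  have hXLv : w XL = v (x 0) := hw _ (hx0 0)
  have hXLp : 0 < w XL := by rw [hXLv]; exact hx
  -- integer relations
  have hrel : ∀ (a b : ℚ) (m : Fin r → ℤ),
      (a : ℝ) * w (algebraMap Λ L ϖ) + (b : ℝ) * w XL = ∑ i, (m i : ℝ) * v (x i.succ) →
        a = 0 ∧ b = 0 ∧ m = 0 := by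
    intro a b m hm
    rw [Fintype.linearIndependent_iff] at hind
    have h1 := hind (Fin.cons a (Fin.cons b fun i => -(m i : ℚ))) (by
      rw [Fin.sum_univ_succ, Fin.sum_univ_succ]
      simp only [cv, Fin.cons_zero, Fin.cons_succ, Rat.smul_def]
      rw [hϖ, hXLv] at hm
      push_cast
      rw [← add_assoc, hm]
      rw [← Finset.sum_add_distrib]
      refine Finset.sum_eq_zero fun i _ => ?_
      ring)
    refine ⟨by simpa using h1 0, by simpa using h1 1, ?_⟩
    funext i
    have h2 := h1 i.succ.succ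
    simp only [Fin.cons_succ, neg_eq_zero, Int.cast_eq_zero] at h2
    exact h2
  have hind0 : ∀ a b : ℤ, (a : ℝ) * w (algebraMap Λ L ϖ) + b * w XL = 0 → a = 0 ∧ b = 0 := by
    intro a b hab
    obtain ⟨h1, h2, -⟩ := hrel a b 0 (by simpa using hab)
    exact ⟨by exact_mod_cast h1, by exact_mod_cast h2⟩
  have ht' : ∀ n, w.Ge (((n + 1).factorial : ℝ) * w XL) (t - LU2.lac XL n) := by
    intro n; rw [hXLv]; exact ht n
  have htransc : Transcendental (Algebra.adjoin Λ {XL}) t := lac_transc0 hL hXL0 hXLp hind0 ht'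
  have hXtr : Transcendental Λ XL := by
    rintro ⟨P, hP, hP0⟩
    exact (val_poly hL hXL0 hind0 P hP).1 hP0
  have hXind : AlgebraicIndependent Λ (fun _ : Fin 1 => XL) := by
    rw [algebraicIndependent_unique_type_iff]
    exact hXtr
  have hind2 : AlgebraicIndependent Λ
      (fun o : Option (Fin 1) => o.elim t (fun _ : Fin 1 => XL)) := by
    rw [hXind.option_iff_transcendental]
    rw [Set.range_const]
    exact htransc
  -- elements of `Λ[X]` have non-negative value
  have hxn : ∀ i : ℕ, w.Ge 0 (XL ^ i) := fun i _ => by rw [w.map_pow hXL0]; positivity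
  have hnn : ∀ R : Λ[X], w.Ge 0 (aeval XL R) := by
    intro R
    rw [Polynomial.aeval_eq_sum_range]
    refine RVal.Ge.sum _ _ fun i _ => ?_
    rw [Algebra.smul_def]
    simpa using (hL.ge _).mul (hxn i)
  have hcn : ∀ n, w.Ge 0 (LU2.lac XL n) := fun n => RVal.Ge.sum _ _ fun i _ => hxn _
  have htn : w.Ge 0 t := by
    have h1 := ht' 0
    have h2 : LU2.lac XL 0 = 0 := by simp [LU2.lac]
    rw [h2, sub_zero] at h1
    exact h1.mono (by positivity)
  -- the values of the elements of `Λ[X, t]`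
  let W : Submodule ℚ ℝ := Submodule.span ℚ {w (algebraMap Λ L ϖ), w XL}
  have hW1 : ∀ a b : ℕ, (a : ℝ) * w (algebraMap Λ L ϖ) + b * w XL ∈ W := by
    intro a b
    refine W.add_mem ?_ ?_
    · have := W.smul_mem (a : ℚ) (Submodule.subset_span (Set.mem_insert (w (algebraMap Λ L ϖ)) {w XL}))
      rw [Rat.smul_def] at this
      exact_mod_cast this
    · have := W.smul_mem (b : ℚ) (Submodule.subset_span
        (Set.mem_insert_of_mem (w (algebraMap Λ L ϖ)) (Set.mem_singleton (w XL))))
      rw [Rat.smul_def] at this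
      exact_mod_cast this
  have hlac : ∀ n, ∃ R : Λ[X], aeval XL R = LU2.lac XL n := by
    intro n
    refine ⟨LU2.lac X n, ?_⟩
    rw [LU2.lac, LU2.lac, map_sum]
    exact Finset.sum_congr rfl fun j _ => by rw [map_pow, aeval_X]
  set S : Subalgebra Λ L := Algebra.adjoin Λ
    (Set.range fun o : Option (Fin 1) => o.elim t (fun _ : Fin 1 => XL)) with hS
  have hSval : ∀ s : S, s ≠ 0 → w (algebraMap S L s) ∈ W := by
    rintro ⟨s, hs⟩ hs0
    have hs0' : s ≠ 0 := fun h0 => hs0 (Subtype.ext h0)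
    change w s ∈ W
    -- the elements of `S`
    have hrep : ∃ (D : ℕ) (p : ℕ → Λ[X]), s = ∑ i ∈ Finset.range D, aeval XL (p i) * t ^ i := by
      have h0 : ∀ z ∈ Algebra.adjoin Λ (Set.range fun o : Option (Fin 1) =>
          o.elim t (fun _ : Fin 1 => XL)), ∃ P : Λ[X][X],
            z = P.eval₂ ((aeval XL : Λ[X] →ₐ[Λ] L) : Λ[X] →+* L) t := by
        intro z hz
        induction hz using Algebra.adjoin_induction with
        | mem z hz =>
          obtain ⟨o, rfl⟩ := hz
          cases o with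
          | none => exact ⟨X, by rw [eval₂_X]; rfl⟩
          | some i => exact ⟨C X, by rw [eval₂_C]; simp⟩
        | algebraMap c => exact ⟨C (C c), by rw [eval₂_C]; simp⟩
        | add a b _ _ ha hb =>
          obtain ⟨P, rfl⟩ := ha
          obtain ⟨Q, rfl⟩ := hb
          exact ⟨P + Q, by rw [eval₂_add]⟩
        | mul a b _ _ ha hb =>
          obtain ⟨P, rfl⟩ := ha
          obtain ⟨Q, rfl⟩ := hb
          exact ⟨P * Q, by rw [eval₂_mul]⟩
      obtain ⟨P, rfl⟩ := h0 s hs
      exact ⟨P.natDegree + 1, P.coeff, by rw [eval₂_eq_sum_range]; rfl⟩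
    obtain ⟨D, p, hp⟩ := hrep
    obtain ⟨n, hn⟩ := exists_nat_gt (w s / w XL)
    have h1 : w s < ((n + 1).factorial : ℝ) * w XL := by
      rw [div_lt_iff₀ hXLp] at hn
      have h2 : (n : ℝ) ≤ ((n + 1).factorial : ℝ) := by
        exact_mod_cast (Nat.le_succ n).trans (Nat.self_le_factorial _)
      nlinarith
    have h2 := LU2.ge_eval_sub w (Finset.range D) (fun i => aeval XL (p i)) (fun i => i)
      (fun i _ => hnn _) htn (hcn n) (ht' n)
    rw [← hp] at h2
    obtain ⟨R, hR⟩ := hlac n
    have h3 : ∑ i ∈ Finset.range D, aeval XL (p i) * LU2.lac XL n ^ i =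
        aeval XL (∑ i ∈ Finset.range D, p i * R ^ i) := by
      rw [map_sum]
      exact Finset.sum_congr rfl fun i _ => by rw [map_mul, map_pow, hR]
    rw [h3] at h2
    set Q : Λ[X] := ∑ i ∈ Finset.range D, p i * R ^ i with hQ
    have h4 : aeval XL Q ≠ 0 ∧ w (aeval XL Q) = w s := by
      by_cases h5 : s - aeval XL Q = 0
      · rw [sub_eq_zero] at h5
        rw [← h5]
        exact ⟨hs0', rfl⟩
      · have h6 := h2 h5
        have h7 := w.add_of_lt hs0' (neg_ne_zero.2 h5) (by rw [w.map_neg _ h5]; linarith)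
        have h8 : s + -(s - aeval XL Q) = aeval XL Q := by ring
        rwa [h8] at h7
    have hQ0 : Q ≠ 0 := by
      intro h0
      rw [h0, map_zero] at h4
      exact h4.1 rfl
    obtain ⟨-, a, b, hab⟩ := val_poly hL hXL0 hind0 Q hQ0
    rw [← h4.2, hab]
    exact hW1 a b
  have hy : AlgebraicIndependent S (fun i : Fin r => algebraMap K L (x i.succ)) := by
    refine algInd_of_val Subtype.val_injective w W hSval _
      (fun i => (_root_.map_ne_zero _).2 (hx0 _)) ?_
    intro m hm
    rw [Submodule.mem_span_pair] at hm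
    obtain ⟨a, b, hab⟩ := hm
    refine (hrel a b m ?_).2.2
    rw [Rat.smul_def, Rat.smul_def] at hab
    rw [hab]
    exact Finset.sum_congr rfl fun i _ => by rw [hw _ (hx0 _)]
  have hall := hind2.sumElim hy
  -- the field `M = K(t)`
  let M : IntermediateField K L := IntermediateField.adjoin K {t}
  have hMalg : Algebra.IsAlgebraic K M :=
    IntermediateField.isAlgebraic_adjoin_simple halg.isIntegral
  let ψ : M →ₐ[Λ] L := (IntermediateField.val M).restrictScalars Λ
  have htM : t ∈ M := IntermediateField.mem_adjoin_simple_self K t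
  let tM : M := ⟨t, htM⟩
  have hallM : AlgebraicIndependent Λ (Sum.elim (fun i : Fin r => algebraMap K M (x i.succ))
      (fun o : Option (Fin 1) => o.elim tM (fun _ : Fin 1 => algebraMap K M (x 0)))) := by
    refine AlgebraicIndependent.of_comp ψ ?_
    have h2 : ((ψ : M → L) ∘ Sum.elim (fun i : Fin r => algebraMap K M (x i.succ))
      (fun o : Option (Fin 1) => o.elim tM (fun _ : Fin 1 => algebraMap K M (x 0)))) =
        Sum.elim (fun i : Fin r => algebraMap K L (x i.succ))
          (fun o : Option (Fin 1) => o.elim t (fun _ : Fin 1 => XL)) := by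
      funext o
      rcases o with i | o
      · rfl
      · cases o <;> rfl
    rw [h2]
    exact hall
  have h3 := hallM.lift_cardinalMk_le_trdeg
  have h4 : Algebra.trdeg Λ K + Algebra.trdeg K M = Algebra.trdeg Λ M := by
    have : FaithfulSMul Λ K := (faithfulSMul_iff_algebraMap_injective Λ K).2 h.inj
    exact trdeg_add_eq Λ K
  have h5 : Algebra.trdeg K M = 0 := by
    have := hMalg
    exact trdeg_eq_zero
  rw [h5, add_zero, htr] at h4
  rw [← h4] at h3
  rw [Cardinal.mk_fintype] at h3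
  simp only [Cardinal.lift_natCast, Nat.cast_le, Fintype.card_sum, Fintype.card_option,
    Fintype.card_fin] at h3
  omega

end Pool.Agent.LUD
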