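import Pool.Agent.Lib.LUD.E3
import Pool.Agent.Lib.LU2_h15z.ZeroD

/-! # Row E4: the field `K(t)`
-/

set_option autoImplicit false

open Polynomial

namespace Pool.Agent.LUD

open Pool.Agent.LUM
open Pool.Agent.H15JM (RVal)
open Pool.Agent.LU1 (VPos val_add_vpos adj Ev)
open Pool.Agent.LU2 (lac map_lac exists_lac)

universe u

private theorem e4_trdeg {K L : Type u} [Field K] [Field L] [Algebra K L] {t : L}
    (ht : Transcendental K t) (htop : IntermediateField.adjoin K {t} = ⊤) :
    Algebra.trdeg K L = 1 := by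
  have halg : Algebra.IsAlgebraic (Algebra.adjoin K ({t} : Set L)) L := by
    refine ⟨fun g => ?_⟩
    have hg : g ∈ IntermediateField.adjoin K ({t} : Set L) := by
      rw [htop]
      exact IntermediateField.mem_top
    rw [IntermediateField.mem_adjoin_iff_div] at hg
    obtain ⟨a, ha, b, hb, rfl⟩ := hg
    have h1 : IsAlgebraic (Algebra.adjoin K ({t} : Set L)) a :=
      isAlgebraic_algebraMap (⟨a, ha⟩ : Algebra.adjoin K ({t} : Set L))
    have h2 : IsAlgebraic (Algebra.adjoin K ({t} : Set L)) b :=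
      isAlgebraic_algebraMap (⟨b, hb⟩ : Algebra.adjoin K ({t} : Set L))
    rw [div_eq_mul_inv]
    exact h1.mul h2.inv
  refine le_antisymm ?_ ?_
  · have h1 := Algebra.IsAlgebraic.trdeg_le_cardinalMk K ({t} : Set L)
    rwa [Cardinal.mk_singleton] at h1
  · have h1 : AlgebraicIndependent K (fun _ : Unit => t) :=
      (algebraicIndependent_unique_type_iff (ι := Unit)).2 ht
    have h2 := h1.lift_cardinalMk_le_trdeg
    simpa using h2

theorem exists_L {Λ K : Type u} [CommRing Λ] [IsDomain Λ] [IsDiscreteValuationRing Λ]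
    [Field K] [Algebra Λ K] [Algebra.EssFiniteType Λ K] {ϖ : Λ} {v : RVal K} (h : Real0 ϖ v)
    {r : ℕ} (htr : Algebra.trdeg Λ K = ((r + 1 : ℕ) : Cardinal)) (x : Fin (r + 1) → K)
    (hx0 : ∀ i, x i ≠ 0) (hx : 0 < v (x 0)) (hind : LinearIndependent ℚ (cv ϖ v x)) :
    ∃ (L : Type u) (_ : Field L) (_ : Algebra Λ L) (_ : Algebra K L) (_ : IsScalarTower Λ K L)
      (u : RVal L) (t : L), (∀ f : K, f ≠ 0 → u (algebraMap K L f) = v f) ∧
      Transcendental K t ∧ (∀ N : ℝ, ∃ c : K, u.Ge N (t - algebraMap K L c)) ∧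
      (∀ (g : L) (N : ℝ), ∃ f : K, u.Ge N (g - algebraMap K L f)) ∧
      IntermediateField.adjoin K {t} = ⊤ ∧ Algebra.EssFiniteType Λ L ∧
      Algebra.trdeg Λ L = ((r + 2 : ℕ) : Cardinal) := by
  classical
  obtain ⟨X, hXe⟩ : ∃ X, X = x 0 := ⟨_, rfl⟩
  have hX0 : X ≠ 0 := hXe ▸ hx0 0
  have hX : 0 < v X := hXe ▸ hx
  obtain ⟨L₁, i1, ι, w, t, hw, ht⟩ := exists_lac v hX0 hX
  let _ : Algebra K L₁ := ι.toAlgebra
  let _ : Algebra Λ L₁ := (ι.comp (algebraMap Λ K)).toAlgebra
  have i2 : IsScalarTower Λ K L₁ := IsScalarTower.of_algebraMap_eq fun _ => rfl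
  have htr1 : Transcendental K t := by
    refine lac_transc h w hw htr x hx0 hx hind ?_
    intro n
    rw [← hXe]
    have h1 : lac (algebraMap K L₁ X) n = ι (lac X n) := (map_lac ι X n).symm
    rw [h1]
    exact ht n
  let L : IntermediateField K L₁ := IntermediateField.adjoin K {t}
  have htL : t ∈ L := IntermediateField.mem_adjoin_simple_self K t
  let t₀ : L := ⟨t, htL⟩
  let u : RVal L := Pool.Agent.LU2.rcomap w (algebraMap L L₁)
  have hu : ∀ f : K, f ≠ 0 → u (algebraMap K L f) = v f := fun f hf => hw f hf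
  have htr0 : Transcendental K t₀ := by
    intro h1
    exact htr1 (h1.algebraMap (A := L₁))
  have happ : ∀ N : ℝ, ∃ c : K, u.Ge N (t₀ - algebraMap K L c) := by
    intro N
    obtain ⟨n, hn⟩ := exists_nat_gt (N / v X)
    refine ⟨lac X n, ?_⟩
    have h1 : w.Ge N (t - ι (lac X n)) := by
      refine (ht n).mono ?_
      rw [div_lt_iff₀ hX] at hn
      have h2 : (n : ℝ) ≤ ((n + 1).factorial : ℝ) := by
        exact_mod_cast (Nat.le_succ n).trans (Nat.self_le_factorial _)
      nlinarith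
    intro h0
    exact h1 (fun h2 => h0 (Subtype.ext h2))
  have htop : IntermediateField.adjoin K {t₀} = ⊤ := by
    rw [eq_top_iff]
    rintro ⟨g, hg⟩ -
    have h1 : IntermediateField.adjoin K {t} ≤
        IntermediateField.lift (IntermediateField.adjoin K {t₀}) := by
      rw [IntermediateField.adjoin_le_iff, Set.singleton_subset_iff]
      exact (IntermediateField.mem_lift (F := L) t₀).2
        (IntermediateField.mem_adjoin_simple_self K t₀)
    exact (IntermediateField.mem_lift (F := L) ⟨g, hg⟩).1 (h1 hg)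
  -- density
  have hdense : ∀ (g : L) (N : ℝ), ∃ f : K, u.Ge N (g - algebraMap K L f) := by
    intro g N
    have hg : g ∈ adj (⊥ : IntermediateField K L) t₀ := by
      have h1 : IntermediateField.adjoin K {t₀} ≤ adj (⊥ : IntermediateField K L) t₀ :=
        le_sup_right
      apply h1
      rw [htop]
      exact IntermediateField.mem_top
    obtain ⟨δ, hδ⟩ := LU1.exists_ev (v := u) (⊥ : IntermediateField K L) t₀ hg N
    obtain ⟨c, hc⟩ := happ δ
    obtain ⟨b, hb, hbN⟩ := hδ _ hc
    have hb' := hb.mem ((⊥ : IntermediateField K L).algebraMap_mem c)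
    obtain ⟨f, rfl⟩ := IntermediateField.mem_bot.1 hb'
    exact ⟨f, hbN⟩
  have e2 : Algebra.EssFiniteType K L := IntermediateField.fg_top_iff.1
    ⟨{t₀}, by rw [Finset.coe_singleton]; exact htop⟩
  have e3 : Algebra.EssFiniteType Λ L := Algebra.EssFiniteType.comp Λ K L
  have hfaith : FaithfulSMul Λ K := (faithfulSMul_iff_algebraMap_injective Λ K).2 h.inj
  refine ⟨L, inferInstance, inferInstance, inferInstance, inferInstance, u, t₀, hu, htr0, happ,
    hdense, htop, e3, ?_⟩
  have h1 := _root_.trdeg_add_eq Λ K (A := L)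
  rw [htr, e4_trdeg htr0 htop] at h1
  rw [← h1]
  push_cast
  ring

end Pool.Agent.LUD
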