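import Pool.Agent.Lib.LUD.E1
import Pool.Agent.Lib.LUM.C06

/-! # LUD: a real valuation of the algebraic closure (variant of LUM/C06 with a given real
valuation) -/

set_option autoImplicit false

namespace Pool.Agent.LUD

open Pool.Agent.LUM
open Pool.Agent.H15JM (RVal)
open Pool.Agent.LU1 (VPos)
open Polynomial

universe u


namespace C06aux

/-- the valuation ring of a real valuation -/
private def OW {Ω : Type u} [Field Ω] (w : RVal Ω) : ValuationSubring Ω where
  carrier := {x | w.Ge 0 x}
  mul_mem' := by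
    intro a b ha hb
    have := RVal.Ge.mul ha hb
    rw [add_zero] at this
    exact this
  one_mem' := fun _ => w.map_one.ge
  add_mem' := by
    intro a b ha hb
    exact RVal.Ge.add ha hb
  zero_mem' := RVal.Ge.zero
  neg_mem' := by
    intro a ha
    exact RVal.Ge.neg ha
  mem_or_inv_mem' := by
    intro x
    by_cases hx : x = 0
    · left
      intro h
      exact absurd hx h
    · rcases le_total 0 (w x) with h | h
      · exact Or.inl fun _ => h
      · right
        intro _
        rw [w.map_inv hx]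
        linarith

private theorem residue_eq_zero {Ω : Type u} [Field Ω] {w : RVal Ω} (a : OW w) :
    IsLocalRing.residue (OW w) a = 0 ↔ VPos w (a : Ω) := by
  rw [IsLocalRing.residue_eq_zero_iff, IsLocalRing.mem_maximalIdeal, mem_nonunits_iff]
  constructor
  · intro h h0
    have h1 : 0 ≤ w (a : Ω) := a.2 h0
    rcases lt_or_eq_of_le h1 with h2 | h2
    · exact h2
    · exfalso
      apply h
      have h3 : ((a : Ω)⁻¹) ∈ OW w := by
        intro _
        rw [w.map_inv h0, ← h2, neg_zero]
      exact IsUnit.of_mul_eq_one ⟨(a : Ω)⁻¹, h3⟩ (Subtype.ext (mul_inv_cancel₀ h0))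
  · intro h hu
    obtain ⟨b, hb⟩ := hu.exists_right_inv
    have h1 : (a : Ω) * (b : Ω) = 1 := congrArg Subtype.val hb
    have ha : (a : Ω) ≠ 0 := left_ne_zero_of_mul (by rw [h1]; exact one_ne_zero)
    have hb0 : (b : Ω) ≠ 0 := right_ne_zero_of_mul (by rw [h1]; exact one_ne_zero)
    have h2 := w.map_mul ha hb0
    rw [h1, w.map_one] at h2
    have h3 : 0 ≤ w (b : Ω) := b.2 hb0
    have h4 := h ha
    linarith

/-- residues of an algebraic extension are algebraic over the small base -/
private theorem resAlg {Λ K Ω : Type u} [CommRing Λ] [IsDomain Λ] [IsDiscreteValuationRing Λ]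
    [Field K] [Field Ω] [Algebra Λ K] [Algebra K Ω] [Algebra Λ Ω] [IsScalarTower Λ K Ω]
    [Algebra.IsAlgebraic K Ω] (v : RVal K) (w : RVal Ω)
    (hw : ∀ g : K, g ≠ 0 → w (algebraMap K Ω g) = v g) {ϖ : Λ} (hϖ : Irreducible ϖ)
    (hge : ∀ c : Λ, w.Ge 0 (algebraMap Λ Ω c)) (hpos : VPos w (algebraMap Λ Ω ϖ))
    (hres : ∀ x : K, v.Ge 0 x → ∃ P : Polynomial Λ, P.Monic ∧ VPos v (aeval x P)) (x : Ω)
    (hx : w.Ge 0 x) : ∃ P : Polynomial Λ, P.Monic ∧ VPos w (aeval x P) := by
  classical
  have hwge : ∀ g : K, v.Ge 0 g → w.Ge 0 (algebraMap K Ω g) := by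
    intro g hg h0
    have h1 : g ≠ 0 := by
      rintro rfl
      exact h0 (map_zero _)
    rw [hw g h1]
    exact hg h1
  have hwpos : ∀ g : K, VPos v g → VPos w (algebraMap K Ω g) := by
    intro g hg h0
    have h1 : g ≠ 0 := by
      rintro rfl
      exact h0 (map_zero _)
    rw [hw g h1]
    exact hg h1
  -- the map to the residue field
  let j : Λ →+* OW w :=
    { toFun := fun c => ⟨algebraMap Λ Ω c, hge c⟩
      map_one' := Subtype.ext (map_one _)
      map_mul' := fun _ _ => Subtype.ext (map_mul _ _ _)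
      map_zero' := Subtype.ext (map_zero _)
      map_add' := fun _ _ => Subtype.ext (map_add _ _ _) }
  let φ : Λ →+* IsLocalRing.ResidueField (OW w) := (IsLocalRing.residue (OW w)).comp j
  have hφϖ : φ ϖ = 0 := (residue_eq_zero (j ϖ)).2 hpos
  have hφ : IsLocalHom φ := by
    constructor
    intro c hc
    by_contra hcu
    have h1 : c ∈ IsLocalRing.maximalIdeal Λ := (IsLocalRing.mem_maximalIdeal c).2 hcu
    rw [hϖ.maximalIdeal_eq, Ideal.mem_span_singleton] at h1
    obtain ⟨d, rfl⟩ := h1
    rw [map_mul, hφϖ, zero_mul] at hc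
    exact not_isUnit_zero hc
  let ψ : IsLocalRing.ResidueField Λ →+* IsLocalRing.ResidueField (OW w) :=
    IsLocalRing.ResidueField.lift φ
  let : Algebra (IsLocalRing.ResidueField Λ) (IsLocalRing.ResidueField (OW w)) := ψ.toAlgebra
  have hψ : ψ.comp (IsLocalRing.residue Λ) = φ := IsLocalRing.ResidueField.lift_comp_residue φ
  -- evaluation
  have hev : ∀ (a : OW w) (P : Polynomial Λ), ((eval₂ j a P : OW w) : Ω) = aeval (a : Ω) P := by
    intro a P
    have h1 := Polynomial.hom_eval₂ P j (OW w).subtype a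
    rw [aeval_def]
    exact h1
  have hev2 : ∀ (a : OW w) (P : Polynomial Λ),
      aeval (IsLocalRing.residue (OW w) a) (P.map (IsLocalRing.residue Λ)) =
        IsLocalRing.residue (OW w) (eval₂ j a P) := by
    intro a P
    rw [aeval_def, Polynomial.eval₂_map, Polynomial.hom_eval₂]
    exact congrArg (fun f => eval₂ f (IsLocalRing.residue (OW w) a) P) hψ
  have hint : ∀ (a : OW w) (P : Polynomial Λ), P.Monic → VPos w (aeval (a : Ω) P) →
      IsIntegral (IsLocalRing.ResidueField Λ) (IsLocalRing.residue (OW w) a) := by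
    intro a P hP hv
    refine ⟨P.map (IsLocalRing.residue Λ), hP.map _, ?_⟩
    have h1 := hev2 a P
    rw [aeval_def] at h1
    rw [h1, residue_eq_zero, hev]
    exact hv
  -- the polynomial of `x`
  obtain ⟨P, hP, hPx⟩ := Algebra.IsAlgebraic.isAlgebraic (R := K) x
  have hsne := (Polynomial.nonempty_support_iff).mpr hP
  obtain ⟨i₀, hi₀, hmin⟩ := Finset.exists_min_image P.support (fun i => v (P.coeff i)) hsne
  have ha₀ : P.coeff i₀ ≠ 0 := mem_support_iff.mp hi₀
  obtain ⟨d, hd⟩ : ∃ d : ℕ → K, d = fun i => (P.coeff i₀)⁻¹ * P.coeff i := ⟨_, rfl⟩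
  have hdge : ∀ i, v.Ge 0 (d i) := by
    intro i h0
    rw [hd] at h0 ⊢
    have h1 : P.coeff i ≠ 0 := right_ne_zero_of_mul h0
    rw [v.map_mul (inv_ne_zero ha₀) h1, v.map_inv ha₀]
    have := hmin i (mem_support_iff.mpr h1)
    linarith
  have hd0 : d i₀ = 1 := by rw [hd]; exact inv_mul_cancel₀ ha₀
  have hsum : ∑ i ∈ P.support, algebraMap K Ω (d i) * x ^ i = 0 := by
    rw [aeval_def, eval₂_eq_sum, sum_def] at hPx
    have : ∀ i ∈ P.support, algebraMap K Ω (d i) * x ^ i =
        algebraMap K Ω ((P.coeff i₀)⁻¹) * (algebraMap K Ω (P.coeff i) * x ^ i) := by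
      intro i _
      rw [hd, map_mul]; ring
    rw [Finset.sum_congr rfl this, ← Finset.mul_sum, hPx, mul_zero]
  -- in the residue field
  let e : ℕ → OW w := fun i => ⟨algebraMap K Ω (d i), hwge _ (hdge i)⟩
  let xx : OW w := ⟨x, hx⟩
  have hsum2 : ∑ i ∈ P.support, IsLocalRing.residue (OW w) (e i) * IsLocalRing.residue (OW w) xx ^ i = 0 := by
    have h1 : ∑ i ∈ P.support, e i * xx ^ i = 0 := by
      apply Subtype.ext
      have h2 : ((∑ i ∈ P.support, e i * xx ^ i : OW w) : Ω) = ∑ i ∈ P.support, algebraMap K Ω (d i) * x ^ i := by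
        rw [← (OW w).subtype_apply, map_sum]
        rfl
      rw [h2, hsum]
      rfl
    have h2 := congrArg (IsLocalRing.residue (OW w)) h1
    rw [map_sum, map_zero] at h2
    rw [← h2]
    refine Finset.sum_congr rfl fun i _ => ?_
    rw [map_mul, map_pow]
  have hmemA : ∀ i, IsLocalRing.residue (OW w) (e i) ∈
      algebraicClosure (IsLocalRing.ResidueField Λ) (IsLocalRing.ResidueField (OW w)) := by
    intro i
    rw [mem_algebraicClosure_iff']
    obtain ⟨P', hP', h1⟩ := hres (d i) (hdge i)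
    refine hint (e i) P' hP' ?_
    have h2 := hwpos _ h1
    have h3 : algebraMap K Ω (aeval (d i) P') = aeval (algebraMap K Ω (d i)) P' :=
      (Polynomial.aeval_algebraMap_apply Ω (d i) P').symm
    rw [h3] at h2
    exact h2
  let q : Polynomial (algebraicClosure (IsLocalRing.ResidueField Λ) (IsLocalRing.ResidueField (OW w))) :=
    ∑ i ∈ P.support, C ⟨IsLocalRing.residue (OW w) (e i), hmemA i⟩ * X ^ i
  have hq0 : q ≠ 0 := by
    intro h0
    have h1 : q.coeff i₀ = 1 := by
      change (∑ i ∈ P.support, C (⟨IsLocalRing.residue (OW w) (e i), hmemA i⟩ :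
        algebraicClosure (IsLocalRing.ResidueField Λ) (IsLocalRing.ResidueField (OW w))) * X ^ i).coeff i₀ = 1
      rw [finsetSum_coeff, Finset.sum_eq_single i₀]
      · rw [coeff_C_mul_X_pow, if_pos rfl]
        apply Subtype.ext
        have h2 : e i₀ = 1 := Subtype.ext (by
          change algebraMap K Ω (d i₀) = 1
          rw [hd0, map_one])
        change IsLocalRing.residue (OW w) (e i₀) = 1
        rw [h2, map_one]
      · intro k _ hk
        rw [coeff_C_mul_X_pow, if_neg (Ne.symm hk)]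
      · intro h
        exact absurd hi₀ h
    rw [h0, coeff_zero] at h1
    exact zero_ne_one h1
  have hqx : aeval (IsLocalRing.residue (OW w) xx) q = 0 := by
    rw [← hsum2]
    change aeval _ (∑ i ∈ P.support, C (⟨IsLocalRing.residue (OW w) (e i), hmemA i⟩ :
        algebraicClosure (IsLocalRing.ResidueField Λ) (IsLocalRing.ResidueField (OW w))) * X ^ i) = _
    rw [map_sum]
    refine Finset.sum_congr rfl fun i _ => ?_
    rw [map_mul, aeval_C, map_pow, aeval_X]
    rfl
  have halgx : IsAlgebraic (IsLocalRing.ResidueField Λ) (IsLocalRing.residue (OW w) xx) := by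
    have h1 : IsAlgebraic (algebraicClosure (IsLocalRing.ResidueField Λ)
        (IsLocalRing.ResidueField (OW w))) (IsLocalRing.residue (OW w) xx) := ⟨q, hq0, hqx⟩
    exact h1.restrictScalars (IsLocalRing.ResidueField Λ)
  -- lift the equation
  obtain ⟨p, hpm, hpx⟩ := halgx.isIntegral
  obtain ⟨P', hP', -, hP'm⟩ := Polynomial.lifts_and_natDegree_eq_and_monic
    (f := IsLocalRing.residue Λ) (p := p) (by
      rw [Polynomial.lifts_iff_coeff_lifts]
      intro i
      exact IsLocalRing.residue_surjective _) hpm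
  refine ⟨P', hP'm, ?_⟩
  have h1 := hev2 xx P'
  rw [hP', aeval_def, hpx] at h1
  have h2 := (residue_eq_zero _).1 h1.symm
  rw [hev] at h2
  exact h2

end C06aux

theorem exists_entry_real {Λ K : Type u} [CommRing Λ] [IsDomain Λ] [IsDiscreteValuationRing Λ]
    [Field K] [Algebra Λ K] {ϖ : Λ} {v : RVal K} (h : Real0 ϖ v) {r : ℕ}
    (hr : 0 < r) (htr : Algebra.trdeg Λ K = r) (X : Fin r → K) (hX0 : ∀ i, X i ≠ 0)
    (hX : LinearIndependent ℚ fun i => v (X i))
    (hspan : ∀ g : K, g ≠ 0 → v g ∈ Submodule.span ℚ (Set.range fun i => v (X i)))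
    (hres : ∀ x : K, v.Ge 0 x → ∃ P : Polynomial Λ, P.Monic ∧ VPos v (aeval x P)) :
    ∃ (Ω : Type u) (_ : Field Ω) (_ : IsAlgClosed Ω) (_ : Algebra Λ Ω) (_ : Algebra K Ω)
      (_ : IsScalarTower Λ K Ω) (w : RVal Ω),
      (∀ x : K, x ≠ 0 → w (algebraMap K Ω x) = v x) ∧ (∀ g : Ω, IsAlgebraic K g) ∧
      Ctx0 ϖ w r ∧ ResAlg Λ w := by
  classical
  obtain ⟨w, hw⟩ := LU1.exists_extVal K (AlgebraicClosure K) v
  have hι : Function.Injective (algebraMap K (AlgebraicClosure K)) :=
    (algebraMap K (AlgebraicClosure K)).injective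
  have hne : ∀ g : K, g ≠ 0 → algebraMap K (AlgebraicClosure K) g ≠ 0 := fun g hg h0 =>
    hg (hι (by rw [h0, map_zero]))
  have htow : ∀ c : Λ, algebraMap Λ (AlgebraicClosure K) c =
      algebraMap K (AlgebraicClosure K) (algebraMap Λ K c) :=
    fun c => IsScalarTower.algebraMap_apply Λ K (AlgebraicClosure K) c
  have hge : ∀ c : Λ, w.Ge 0 (algebraMap Λ (AlgebraicClosure K) c) := by
    intro c h0
    have h1 : algebraMap Λ K c ≠ 0 := by
      intro h2
      rw [htow, h2, map_zero] at h0
      exact h0 rfl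
    rw [htow, hw _ h1]
    exact h.ge c h1
  have hϖ0 : algebraMap Λ K ϖ ≠ 0 := by
    intro h0
    exact h.irr.ne_zero (h.inj (by rw [h0, map_zero]))
  have hwϖ : 0 < w (algebraMap Λ (AlgebraicClosure K) ϖ) := by
    rw [htow, hw _ hϖ0]
    exact h.pos
  refine ⟨AlgebraicClosure K, inferInstance, inferInstance, inferInstance, inferInstance,
    inferInstance, w, hw, fun g => Algebra.IsAlgebraic.isAlgebraic g, ?_, ?_⟩
  · refine ⟨h.irr, ?_, hge, hwϖ, hr, ?_, ?_⟩
    · intro c c' h1
      rw [htow, htow] at h1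
      exact h.inj (hι h1)
    · have : FaithfulSMul Λ K := (faithfulSMul_iff_algebraMap_injective Λ K).2 h.inj
      have h1 := _root_.trdeg_add_eq Λ K (A := AlgebraicClosure K)
      rw [_root_.trdeg_eq_zero (R := K) (A := AlgebraicClosure K), add_zero] at h1
      rw [← h1]
      exact htr
    · have hXw : (fun i => w (algebraMap K (AlgebraicClosure K) (X i))) = fun i => v (X i) := by
        funext i
        exact hw _ (hX0 i)
      refine ⟨fun i => algebraMap K (AlgebraicClosure K) (X i), fun i => hne _ (hX0 i), ?_, ?_⟩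
      · rw [hXw]; exact hX
      · rw [hXw]
        exact LU1.ExtVal_H2.val_mem_span v w hw _ hspan
  · intro x hx
    exact C06aux.resAlg v w hw h.irr hge (fun _ => hwϖ) hres x hx

end Pool.Agent.LUD
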