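import Pool.Agent.Lib.LUD.D3
import Pool.Agent.Lib.LUD.D4
import Pool.Agent.Lib.LUD.E4
import Pool.Agent.Lib.LUD.H1

/-! # LUD: defect zero, positive transcendence degree -/

set_option autoImplicit false

open Polynomial

namespace Pool.Agent.LUD

open Pool.Agent.LUM
open Pool.Agent.H15JM (RVal)
open Pool.Agent.LU1 (VPos val_add_vpos adj Ev)

universe u

/-- Near elements have the same value. -/
theorem near_val {L : Type u} [Field L] (u : RVal L) {g f : L} (hg : g ≠ 0)
    (h : u.Ge (u g + 1) (g - f)) : f ≠ 0 ∧ u f = u g := by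
  by_cases h0 : g - f = 0
  · rw [sub_eq_zero] at h0
    rw [← h0]
    exact ⟨hg, rfl⟩
  · have h2 := h h0
    have h3 : u g < u (-(g - f)) := by
      rw [u.map_neg _ h0]; linarith
    have h4 := u.add_of_lt hg (neg_ne_zero.2 h0) h3
    have h5 : g + -(g - f) = f := by ring
    rwa [h5] at h4

/-- Polynomials of near elements are near. -/
theorem vpos_aeval_near {Λ L : Type u} [CommRing Λ] [Field L] [Algebra Λ L] (w : RVal L)
    (hk : ∀ c : Λ, w.Ge 0 (algebraMap Λ L c)) {a b : L}
    (ha : w.Ge 0 a) (hb : w.Ge 0 b) (hab : VPos w (a - b)) (P : Λ[X]) :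
    VPos w (aeval a P - aeval b P) := by
  have hge : ∀ {c : L}, w.Ge 0 c → ∀ n : ℕ, w.Ge 0 (c ^ n) := by
    intro c hc n
    induction n with
    | zero => rw [pow_zero]; exact fun _ => by rw [w.map_one]
    | succ n ih =>
      rw [pow_succ]
      simpa using ih.mul hc
  have hpow : ∀ n : ℕ, VPos w (a ^ n - b ^ n) := by
    intro n
    induction n with
    | zero => rw [pow_zero, pow_zero, sub_self]; exact VPos.zero
    | succ n ih =>
      have h1 : a ^ (n + 1) - b ^ (n + 1) = a ^ n * (a - b) + (a ^ n - b ^ n) * b := by ring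
      rw [h1]
      exact (VPos.mul' (hge ha n) hab).add (ih.mul hb)
  induction P using Polynomial.induction_on' with
  | add P Q hP hQ =>
    have h1 : aeval a (P + Q) - aeval b (P + Q) =
        (aeval a P - aeval b P) + (aeval a Q - aeval b Q) := by
      rw [map_add, map_add]; ring
    rw [h1]
    exact hP.add hQ
  | monomial n c =>
    rw [aeval_monomial, aeval_monomial, ← mul_sub]
    exact VPos.mul' (hk c) (hpow n)

theorem span_of_indep {W : Submodule ℚ ℝ} {n : ℕ} {a b : Fin n → ℝ}
    (hb : LinearIndependent ℚ b) (hspan : ∀ i, a i ∈ W → True)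
    (ha : LinearIndependent ℚ a) (hba : ∀ i, a i ∈ Submodule.span ℚ (Set.range b)) {g : ℝ}
    (hg : g ∈ Submodule.span ℚ (Set.range b)) : g ∈ Submodule.span ℚ (Set.range a) := by
  have hle : Submodule.span ℚ (Set.range a) ≤ Submodule.span ℚ (Set.range b) := by
    rw [Submodule.span_le]
    rintro _ ⟨i, rfl⟩
    exact hba i
  have hfin : FiniteDimensional ℚ (Submodule.span ℚ (Set.range b)) :=
    FiniteDimensional.span_of_finite ℚ (Set.finite_range _)
  have heq := Submodule.eq_of_le_of_finrank_eq hle (by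
    rw [finrank_span_eq_card ha, finrank_span_eq_card hb])
  rw [heq]
  exact hg

theorem lurV_pos (p : ℕ) (hp : p.Prime) {Λ K : Type u} [CommRing Λ] [IsDomain Λ]
    [IsDiscreteValuationRing Λ] [CharZero Λ] [CharP (kk Λ) p] [PerfectField (kk Λ)]
    [Field K] [Algebra Λ K] [Algebra.EssFiniteType Λ K] {ϖ : Λ} {v : RVal K} (h : Real0 ϖ v)
    (V : ValuationSubring K) (hV : ∀ x : K, x ∈ V ↔ v.Ge 0 x) {s : ℕ}
    (htr : Algebra.trdeg Λ K = ((s + 1 : ℕ) : Cardinal)) (Y : Fin (s + 2) → K)
    (hY0 : ∀ i, Y i ≠ 0) (hY : LinearIndependent ℚ fun i => v (Y i))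
    (hres : ∀ x : K, v.Ge 0 x → ∃ P : Polynomial Λ, P.Monic ∧ VPos v (aeval x P)) :
    LUC.LUrV Λ V := by
  obtain ⟨x, hx0, hxp, hind, hxalg, halg⟩ := exists_basis h htr Y hY0 hY
  obtain ⟨L, _, _, _, _, u, t, hu, htrt, happ, hdense, htop, hess, htrL⟩ :=
    exists_L h htr x hx0 (hxp 0) hind
  have hinjL : Function.Injective (algebraMap K L) := (algebraMap K L).injective
  have hne : ∀ f : K, f ≠ 0 → algebraMap K L f ≠ 0 := fun f hf => (_root_.map_ne_zero _).2 hf
  have htow : ∀ c : Λ, algebraMap Λ L c = algebraMap K L (algebraMap Λ K c) :=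
    fun c => IsScalarTower.algebraMap_apply Λ K L c
  have hϖ0 : algebraMap Λ K ϖ ≠ 0 := by
    intro h0
    exact h.irr.ne_zero (h.inj (by rw [h0, map_zero]))
  have hL0 : Real0 ϖ u := by
    refine ⟨h.irr, ?_, ?_, ?_⟩
    · intro c c' h1
      rw [htow, htow] at h1
      exact h.inj (hinjL h1)
    · intro c h0
      have h1 : algebraMap Λ K c ≠ 0 := by
        intro h2
        rw [htow, h2, map_zero] at h0
        exact h0 rfl
      rw [htow, hu _ h1]
      exact h.ge c h1
    · rw [htow, hu _ hϖ0]
      exact h.pos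
  have hval : ∀ g : L, g ≠ 0 → ∃ f : K, f ≠ 0 ∧ v f = u g := by
    intro g hg
    obtain ⟨f, hf⟩ := hdense g (u g + 1)
    obtain ⟨h1, h2⟩ := near_val u hg hf
    have hf0 : f ≠ 0 := by
      rintro rfl
      exact h1 (map_zero _)
    exact ⟨f, hf0, by rw [← hu f hf0]; exact h2⟩
  -- the values of `K` are in the span of the values of `Y`
  have hspanK : ∀ g : K, g ≠ 0 → v g ∈ Submodule.span ℚ (Set.range fun i => v (Y i)) := by
    intro g hg
    by_contra hcon
    have h1 := rank_le h htr (Fin.snoc Y g : Fin (s + 3) → K) (by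
      intro i
      refine Fin.lastCases ?_ (fun j => ?_) i
      · rw [Fin.snoc_last]; exact hg
      · rw [Fin.snoc_castSucc]; exact hY0 j) (by
      have h2 : (fun i => v ((Fin.snoc Y g : Fin (s + 3) → K) i)) =
          (Fin.snoc (fun i => v (Y i)) (v g) : Fin (s + 3) → ℝ) := by
        funext i
        refine Fin.lastCases ?_ (fun j => ?_) i
        · rw [Fin.snoc_last, Fin.snoc_last]
        · rw [Fin.snoc_castSucc, Fin.snoc_castSucc]
      rw [h2, linearIndependent_finSnoc]
      exact ⟨hY, hcon⟩)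
    omega
  have hYL : (fun i => u (algebraMap K L (Y i))) = fun i => v (Y i) :=
    funext fun i => hu _ (hY0 i)
  obtain ⟨Ω, _, _, _, _, _, w, hw, halgΩ, hctx, hra⟩ := exists_entry_real hL0 (r := s + 2)
    (by omega) htrL (fun i => algebraMap K L (Y i)) (fun i => hne _ (hY0 i))
    (by rw [hYL]; exact hY) (by
      intro g hg
      rw [hYL]
      obtain ⟨f, hf0, hf⟩ := hval g hg
      rw [← hf]
      exact hspanK f hf0) (by
      intro g hg
      obtain ⟨f, hf⟩ := hdense g 1
      have hfu : u.Ge 0 (algebraMap K L f) := by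
        have h3 : algebraMap K L f = g - (g - algebraMap K L f) := by ring
        rw [h3]
        exact hg.sub (hf.mono zero_le_one)
      have hfv : v.Ge 0 f := by
        intro hf0
        have h3 := hfu (hne f hf0)
        rwa [hu f hf0] at h3
      obtain ⟨P, hP, hPv⟩ := hres f hfv
      refine ⟨P, hP, ?_⟩
      have h1 : aeval (algebraMap K L f) P = algebraMap K L (aeval f P) :=
        Polynomial.aeval_algebraMap_apply L f P
      have h2 : VPos u (aeval (algebraMap K L f) P) := by
        rw [h1]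
        intro h0
        have h3 : aeval f P ≠ 0 := by
          intro h4
          rw [h4, map_zero] at h0
          exact h0 rfl
        rw [hu _ h3]
        exact hPv h3
      have h3 := vpos_aeval_near u hL0.ge hg hfu
        (fun h0 => lt_of_lt_of_le one_pos (hf h0)) P
      have h4 := h3.add h2
      rwa [sub_add_cancel] at h4)
  -- the scalar towers
  let a1 : Algebra K Ω := ((algebraMap L Ω).comp (algebraMap K L)).toAlgebra
  have a2 : IsScalarTower K L Ω := IsScalarTower.of_algebraMap_eq fun _ => rfl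
  have a3 : IsScalarTower Λ K Ω := IsScalarTower.of_algebraMap_eq fun c => by
    rw [IsScalarTower.algebraMap_apply K L Ω, ← IsScalarTower.algebraMap_apply Λ K L,
      ← IsScalarTower.algebraMap_apply Λ L Ω]
  have hwK : ∀ f : K, f ≠ 0 → w (algebraMap K Ω f) = v f := by
    intro f hf
    rw [IsScalarTower.algebraMap_apply K L Ω, hw _ (hne f hf), hu f hf]
  have hneK : ∀ f : K, f ≠ 0 → algebraMap K Ω f ≠ 0 := fun f hf => (_root_.map_ne_zero _).2 hf
  let Q := FractionRing Λ
  have b1 : FaithfulSMul Λ K := (faithfulSMul_iff_algebraMap_injective Λ K).2 h.inj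
  let b2 : Algebra Q K := FractionRing.liftAlgebra Λ K
  have b3 : IsScalarTower Λ Q K := FractionRing.isScalarTower_liftAlgebra Λ K
  let b4 : Algebra Q L := ((algebraMap K L).comp (algebraMap Q K)).toAlgebra
  have b5 : IsScalarTower Q K L := IsScalarTower.of_algebraMap_eq fun _ => rfl
  have b6 : IsScalarTower Λ Q L := IsScalarTower.of_algebraMap_eq fun c => by
    rw [IsScalarTower.algebraMap_apply Q K L, ← IsScalarTower.algebraMap_apply Λ Q K,
      ← IsScalarTower.algebraMap_apply Λ K L]
  let b7 : Algebra Q Ω := ((algebraMap L Ω).comp (algebraMap Q L)).toAlgebra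
  have b8 : IsScalarTower Q L Ω := IsScalarTower.of_algebraMap_eq fun _ => rfl
  have b9 : IsScalarTower Λ Q Ω := IsScalarTower.of_algebraMap_eq fun c => by
    rw [IsScalarTower.algebraMap_apply Q L Ω, ← IsScalarTower.algebraMap_apply Λ Q L,
      ← IsScalarTower.algebraMap_apply Λ L Ω]
  have b10 : IsScalarTower Q K Ω := IsScalarTower.of_algebraMap_eq fun c => by
    rw [IsScalarTower.algebraMap_apply Q L Ω, IsScalarTower.algebraMap_apply Q K L,
      ← IsScalarTower.algebraMap_apply K L Ω]
  have b11 : CharZero Q := charZero_of_injective_algebraMap (IsFractionRing.injective Λ Q)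
  have b12 : Algebra.EssFiniteType Q L := Algebra.EssFiniteType.of_comp Λ Q L
  -- the fields
  let E : IntermediateField Q Ω := (IsScalarTower.toAlgHom Q L Ω).fieldRange
  let K' : IntermediateField Q Ω := (IsScalarTower.toAlgHom Q K Ω).fieldRange
  have hKmem : ∀ f, f ∈ K' ↔ ∃ g : K, algebraMap K Ω g = f := fun f => Iff.rfl
  have hEmem : ∀ f, f ∈ E ↔ ∃ g : L, algebraMap L Ω g = f := fun f => Iff.rfl
  have hfg : E.FG := by
    have h1 : (⊤ : IntermediateField Q L).FG := IntermediateField.fg_top Q L
    have h2 : E = IntermediateField.map (IsScalarTower.toAlgHom Q L Ω) ⊤ :=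
      AlgHom.fieldRange_eq_map _
    obtain ⟨S, hS⟩ := h1
    classical
    refine ⟨S.image (algebraMap L Ω), ?_⟩
    rw [h2, ← hS, IntermediateField.adjoin_map]
    simp
  have hEalg : ∀ g : Ω, IsAlgebraic E g := by
    intro g
    obtain ⟨P, hP0, hP⟩ := halgΩ g
    let φ : L →+* E :=
      { toFun := fun x => ⟨algebraMap L Ω x, ⟨x, rfl⟩⟩
        map_one' := by ext; simp
        map_mul' := fun _ _ => by ext; simp
        map_zero' := by ext; simp
        map_add' := fun _ _ => by ext; simp }
    refine ⟨P.map φ, ?_, ?_⟩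
    · rwa [Ne, Polynomial.map_eq_zero]
    · rw [Polynomial.aeval_def, Polynomial.eval₂_map]
      rw [Polynomial.aeval_def] at hP
      exact hP
  have hLUF := LUF.all p hp hctx hra E hfg hEalg
  -- `K(t) = L`
  obtain ⟨tΩ, htΩ⟩ : ∃ tΩ : Ω, tΩ = algebraMap L Ω t := ⟨_, rfl⟩
  have hadj : ∀ f : Ω, f ∈ adj K' tΩ ↔ f ∈ E := by
    intro f
    constructor
    · intro hf
      have h1 : adj K' tΩ ≤ E := by
        refine sup_le ?_ ?_
        · rintro _ ⟨g, rfl⟩
          exact ⟨algebraMap K L g, rfl⟩
        · rw [IntermediateField.adjoin_le_iff, Set.singleton_subset_iff, htΩ]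
          exact ⟨t, rfl⟩
      exact h1 hf
    · rintro ⟨g, rfl⟩
      let S : IntermediateField K L :=
        { carrier := {g | algebraMap L Ω g ∈ adj K' tΩ}
          mul_mem' := fun {a b} ha hb => by
            change algebraMap L Ω (a * b) ∈ adj K' tΩ
            rw [map_mul]; exact mul_mem ha hb
          add_mem' := fun {a b} ha hb => by
            change algebraMap L Ω (a + b) ∈ adj K' tΩ
            rw [map_add]; exact add_mem ha hb
          algebraMap_mem' := fun a => LU1.le_adj K' tΩ ⟨a, rfl⟩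
          inv_mem' := fun a ha => by
            change algebraMap L Ω a⁻¹ ∈ adj K' tΩ
            rw [map_inv₀]; exact inv_mem ha }
      have h1 : IntermediateField.adjoin K {t} ≤ S := by
        rw [IntermediateField.adjoin_le_iff, Set.singleton_subset_iff]
        change algebraMap L Ω t ∈ adj K' tΩ
        rw [← htΩ]
        exact LU1.mem_adj K' tΩ
      rw [htop] at h1
      exact h1 (IntermediateField.mem_top (x := g))
  have hset : {f | f ∈ adj K' tΩ} = (E : Set Ω) := by
    ext f
    exact hadj f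
  have htrΩ : Transcendental K' tΩ := by
    intro halg'
    let f : K →+* K' :=
      { toFun := fun g => ⟨algebraMap K Ω g, ⟨g, rfl⟩⟩
        map_one' := Subtype.ext (map_one (algebraMap K Ω))
        map_mul' := fun a b => Subtype.ext (map_mul (algebraMap K Ω) _ _)
        map_zero' := Subtype.ext (map_zero (algebraMap K Ω))
        map_add' := fun a b => Subtype.ext (map_add (algebraMap K Ω) _ _) }
    rw [htΩ] at halg'
    refine htrt (IsAlgebraic.of_ringHom_of_comp_eq (S := K') (B := Ω) f (algebraMap L Ω) halg'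
      ?_ (algebraMap L Ω).injective ?_)
    · rintro ⟨_, ⟨g, rfl⟩⟩
      exact ⟨g, rfl⟩
    · rfl
  have hlim : ∀ δ : ℝ, ∃ c ∈ K', w.Ge δ (tΩ - c) := by
    intro δ
    obtain ⟨c, hcδ⟩ := happ δ
    refine ⟨algebraMap K Ω c, ⟨c, rfl⟩, ?_⟩
    have h1 : tΩ - algebraMap K Ω c = algebraMap L Ω (t - algebraMap K L c) := by
      rw [htΩ, map_sub, ← IsScalarTower.algebraMap_apply]
    rw [h1]
    intro h0
    have h3 : t - algebraMap K L c ≠ 0 := by
      intro h4
      rw [h4, map_zero] at h0
      exact h0 rfl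
    rw [hw _ h3]
    exact hcδ h3
  have hϖΩ : w (algebraMap Λ Ω ϖ) = v (algebraMap Λ K ϖ) := by
    rw [IsScalarTower.algebraMap_apply Λ K Ω, hwK _ hϖ0]
  have hcv : cv ϖ w (fun i => algebraMap K Ω (x i)) = cv ϖ v x := by
    funext i
    refine Fin.cases ?_ (fun j => ?_) i
    · exact hϖΩ
    · exact hwK _ (hx0 j)
  have hspanΩ : ∀ g : Ω, g ≠ 0 →
      w g ∈ Submodule.span ℚ (Set.range (cv ϖ w fun i => algebraMap K Ω (x i))) := by
    intro g hg
    obtain ⟨X', hX'0, hX'i, hX's⟩ := hctx.rank
    refine span_of_indep (W := ⊤) hX'i (fun _ _ => trivial) (by rw [hcv]; exact hind) ?_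
      (hX's g hg)
    intro i
    refine Fin.cases ?_ (fun j => ?_) i
    · refine hX's (algebraMap Λ Ω ϖ) ?_
      rw [IsScalarTower.algebraMap_apply Λ K Ω]
      exact hneK _ hϖ0
    · exact hX's _ (hneK _ (hx0 j))
  have halg' : ∀ g ∈ K', IsAlgebraic
      (Algebra.adjoin Λ (Set.range fun i => algebraMap K Ω (x i))) g := by
    rintro _ ⟨g, rfl⟩
    let S := Algebra.adjoin Λ (Set.range x)
    have hS : ∀ a ∈ S, algebraMap K Ω a ∈
        Algebra.adjoin Λ (Set.range fun i => algebraMap K Ω (x i)) := by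
      intro a ha
      induction ha using Algebra.adjoin_induction with
      | mem a ha =>
        obtain ⟨i, rfl⟩ := ha
        exact Algebra.subset_adjoin ⟨i, rfl⟩
      | algebraMap c =>
        rw [← IsScalarTower.algebraMap_apply Λ K Ω]
        exact Subalgebra.algebraMap_mem _ c
      | add a b _ _ ha hb => rw [map_add]; exact add_mem ha hb
      | mul a b _ _ ha hb => rw [map_mul]; exact mul_mem ha hb
    let f : S →+* Algebra.adjoin Λ (Set.range fun i => algebraMap K Ω (x i)) :=
      { toFun := fun a => ⟨algebraMap K Ω a, hS a a.2⟩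
        map_one' := Subtype.ext (map_one (algebraMap K Ω))
        map_mul' := fun a b => Subtype.ext (map_mul (algebraMap K Ω) _ _)
        map_zero' := Subtype.ext (map_zero (algebraMap K Ω))
        map_add' := fun a b => Subtype.ext (map_add (algebraMap K Ω) _ _) }
    refine IsAlgebraic.ringHom_of_comp_eq
      (S := Algebra.adjoin Λ (Set.range fun i => algebraMap K Ω (x i)))
      (B := Ω) f (algebraMap K Ω) (halg g) ?_ ?_
    · intro a b hab
      exact Subtype.ext ((algebraMap K Ω).injective (congrArg Subtype.val hab))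
    · rfl
  have hL0' := luf0 hctx K' tΩ htrΩ hlim (by rw [hset]; exact hLUF)
    (x := fun i => algebraMap K Ω (x i)) (fun i => ⟨x i, rfl⟩) (fun i => hneK _ (hx0 i))
    (by rw [hcv]; exact hind) hspanΩ halg'
  refine LUF0.lurV (by omega) V ?_ hL0'
  intro f
  rw [hV]
  constructor
  · intro h1 h0
    have hf0 : f ≠ 0 := by
      rintro rfl
      exact h0 (map_zero _)
    rw [hwK f hf0]
    exact h1 hf0
  · intro h1 hf0
    rw [← hwK f hf0]
    exact h1 (hneK f hf0)

end Pool.Agent.LUD
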